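import Mathlib

/-!
Counting lemma: in a hereditary class, a set `Z` whose traces separate `X` produces at least
`|X|.descFactorial s` labelled graphs of the class on `|Z| + s` vertices.
-/

set_option autoImplicit false

namespace Pool.Agent.Hhelper71.Small

open Finset

/-- Hereditary: closed under pulling back along embeddings (this includes isomorphisms). -/
def Hered (C : (n : ℕ) → Set (SimpleGraph (Fin n))) : Prop :=
  ∀ (n m : ℕ) (e : Fin m ↪ Fin n) (G : SimpleGraph (Fin n)), G ∈ C n → G.comap ⇑e ∈ C m

theorem count_lemma {C : (n : ℕ) → Set (SimpleGraph (Fin n))} (hered : Hered C)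
    {n : ℕ} {G : SimpleGraph (Fin n)} (hG : G ∈ C n) (Z X : Finset (Fin n)) (hd : Disjoint Z X)
    (hsep : ∀ x ∈ X, ∀ y ∈ X, (∀ z ∈ Z, (G.Adj z x ↔ G.Adj z y)) → x = y) (s : ℕ) :
    X.card.descFactorial s ≤ (C (Z.card + s)).ncard := by
  classical
  let emb : (Fin s ↪ X) → Fin (Z.card + s) → Fin n := fun g =>
    Fin.addCases (fun j => (Z.orderEmbOfFin rfl j : Fin n)) (fun j => ((g j : X) : Fin n))
  have hl : ∀ g (j : Fin Z.card), emb g (Fin.castAdd s j) = Z.orderEmbOfFin rfl j := by
    intro g j; simp [emb]
  have hr : ∀ g (j : Fin s), emb g (Fin.natAdd Z.card j) = ((g j : X) : Fin n) := by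
    intro g j; simp [emb]
  have hinj : ∀ g, Function.Injective (emb g) := by
    intro g a b hab
    induction a using Fin.addCases with
    | left a =>
      induction b using Fin.addCases with
      | left b =>
        rw [hl, hl] at hab
        have := (Z.orderEmbOfFin rfl).injective hab
        rw [this]
      | right b =>
        rw [hl, hr] at hab
        exfalso
        have h1 : Z.orderEmbOfFin rfl a ∈ Z := Z.orderEmbOfFin_mem rfl a
        have h2 : ((g b : X) : Fin n) ∈ X := (g b).2
        rw [← hab] at h2
        exact (Finset.disjoint_left.mp hd) h1 h2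
    | right a =>
      induction b using Fin.addCases with
      | left b =>
        rw [hl, hr] at hab
        exfalso
        have h1 : Z.orderEmbOfFin rfl b ∈ Z := Z.orderEmbOfFin_mem rfl b
        have h2 : ((g a : X) : Fin n) ∈ X := (g a).2
        rw [hab] at h2
        exact (Finset.disjoint_left.mp hd) h1 h2
      | right b =>
        rw [hr, hr] at hab
        have := g.injective (Subtype.ext hab)
        rw [this]
  let Φ : (Fin s ↪ X) → SimpleGraph (Fin (Z.card + s)) := fun g => G.comap (emb g)
  have hΦ : Function.Injective Φ := by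
    intro g g' h
    ext i
    have hx := hsep (g i) (g i).2 (g' i) (g' i).2 ?_
    · exact congrArg _ hx
    · intro z hz
      obtain ⟨j, hj⟩ : ∃ j, Z.orderEmbOfFin rfl j = z := by
        have : z ∈ Set.range (Z.orderEmbOfFin rfl) := by
          rw [Finset.range_orderEmbOfFin]; exact hz
        exact this
      have h1 : (Φ g).Adj (Fin.castAdd s j) (Fin.natAdd Z.card i) ↔ G.Adj z (g i) := by
        simp only [Φ, SimpleGraph.comap_adj]
        rw [hl, hr, hj]
      have h2 : (Φ g').Adj (Fin.castAdd s j) (Fin.natAdd Z.card i) ↔ G.Adj z (g' i) := by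
        simp only [Φ, SimpleGraph.comap_adj]
        rw [hl, hr, hj]
      rw [← h1, ← h2, h]
  have hsub : Set.range Φ ⊆ C (Z.card + s) := by
    rintro _ ⟨g, rfl⟩
    exact hered n (Z.card + s) ⟨emb g, hinj g⟩ G hG
  calc X.card.descFactorial s = Fintype.card (Fin s ↪ X) := by
        rw [Fintype.card_embedding_eq]; simp
    _ = Nat.card (Fin s ↪ X) := (Nat.card_eq_fintype_card).symm
    _ = (Set.range Φ).ncard := by
        rw [← Set.image_univ, Set.ncard_image_of_injective _ hΦ, Set.ncard_univ]
    _ ≤ (C (Z.card + s)).ncard := Set.ncard_le_ncard hsub (Set.toFinite _)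

end Pool.Agent.Hhelper71.Small
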