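import Mathlib

/-!
Density of one-inclusion graphs: a family with all shattered sets of size at most `v` has at most
`v * |F|` one-inclusion edges; and the weighted version of this bound.
-/

set_option autoImplicit false

namespace Pool.Agent.Hhelper71.Small

open Finset

variable {α : Type*} [DecidableEq α]

/-- One-inclusion edges in direction `z`, represented by their lower endpoint. -/
def dirEdges (F : Finset (Finset α)) (z : α) : Finset (Finset α) :=
  F.filter (fun τ => z ∉ τ ∧ insert z τ ∈ F)

theorem mem_dirEdges {F : Finset (Finset α)} {z : α} {τ : Finset α} :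
    τ ∈ dirEdges F z ↔ τ ∈ F ∧ z ∉ τ ∧ insert z τ ∈ F := by
  simp [dirEdges]

theorem oneInc (Z : Finset α) : ∀ (F : Finset (Finset α)) (v : ℕ), (∀ τ ∈ F, τ ⊆ Z) →
    (∀ T, F.Shatters T → T.card ≤ v) → ∑ z ∈ Z, (dirEdges F z).card ≤ v * F.card := by
  induction Z using Finset.induction_on with
  | empty => intro F v _ _; simp
  | insert a Z ha ih =>
    intro F v hF hv
    set F0 := F.nonMemberSubfamily a with hF0
    set F1 := F.memberSubfamily a with hF1
    have hcard : F.card = (F0 ∪ F1).card + (F0 ∩ F1).card := by
      rw [Finset.card_union_add_card_inter, ← Finset.card_memberSubfamily_add_card_nonMemberSubfamily a F]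
      ring
    have hm0 : ∀ τ, τ ∈ F0 ↔ τ ∈ F ∧ a ∉ τ := by intro τ; simp [F0]
    have hm1 : ∀ τ, τ ∈ F1 ↔ insert a τ ∈ F ∧ a ∉ τ := by intro τ; simp [F1]
    have hsub0 : ∀ τ ∈ F0, τ ⊆ Z := by
      intro τ hτ x hx
      obtain ⟨h1, h2⟩ := (hm0 τ).1 hτ
      have := hF τ h1 hx
      rcases Finset.mem_insert.1 this with h | h
      · exact absurd (h ▸ hx) h2
      · exact h
    have hsub1 : ∀ τ ∈ F1, τ ⊆ Z := by
      intro τ hτ x hx
      obtain ⟨h1, h2⟩ := (hm1 τ).1 hτ
      have := hF _ h1 (Finset.mem_insert_of_mem hx)
      rcases Finset.mem_insert.1 this with h | h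
      · exact absurd (h ▸ hx) h2
      · exact h
    -- shattering
    have hshU : ∀ T, (F0 ∪ F1).Shatters T → T.card ≤ v := by
      intro T hT
      apply hv
      have haT : a ∉ T := by
        obtain ⟨t, ht, hTt⟩ := hT.exists_superset
        intro h
        have hat := hTt h
        rcases Finset.mem_union.1 ht with h0 | h0
        · exact ((hm0 t).1 h0).2 hat
        · exact ((hm1 t).1 h0).2 hat
      intro S hS
      obtain ⟨u, hu, hTu⟩ := hT hS
      rcases Finset.mem_union.1 hu with h0 | h0
      · exact ⟨u, ((hm0 u).1 h0).1, hTu⟩
      · refine ⟨insert a u, ((hm1 u).1 h0).1, ?_⟩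
        rw [← hTu]
        ext x
        simp only [Finset.mem_inter, Finset.mem_insert]
        constructor
        · rintro ⟨hx, h | h⟩
          · exact absurd (h ▸ hx) haT
          · exact ⟨hx, h⟩
        · rintro ⟨hx, h⟩
          exact ⟨hx, Or.inr h⟩
    have hshI : ∀ T, (F0 ∩ F1).Shatters T → T.card + 1 ≤ v := by
      intro T hT
      have haT : a ∉ T := by
        obtain ⟨t, ht, hTt⟩ := hT.exists_superset
        intro h
        exact ((hm0 t).1 (Finset.mem_inter.1 ht).1).2 (hTt h)
      have : F.Shatters (insert a T) := by
        intro S hS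
        by_cases haS : a ∈ S
        · have hS' : S.erase a ⊆ T := by
            intro x hx
            have hx' := Finset.mem_erase.1 hx
            exact (Finset.mem_insert.1 (hS hx'.2)).resolve_left hx'.1
          obtain ⟨u, hu, hTu⟩ := hT hS'
          have hu' := (hm1 u).1 (Finset.mem_inter.1 hu).2
          refine ⟨insert a u, hu'.1, ?_⟩
          ext x
          simp only [Finset.mem_inter, Finset.mem_insert]
          have hx2 : x ∈ T ∩ u ↔ x ∈ S.erase a := by rw [hTu]
          simp only [Finset.mem_inter, Finset.mem_erase] at hx2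
          by_cases hxa : x = a
          · subst hxa; simp [haS]
          · simp only [hxa, false_or]
            rw [hx2]
            simp [hxa]
        · have hS' : S ⊆ T := by
            intro x hx
            refine (Finset.mem_insert.1 (hS hx)).resolve_left ?_
            intro h; exact haS (h ▸ hx)
          obtain ⟨u, hu, hTu⟩ := hT hS'
          have hu' := (hm0 u).1 (Finset.mem_inter.1 hu).1
          refine ⟨u, hu'.1, ?_⟩
          rw [← hTu]
          ext x
          simp only [Finset.mem_inter, Finset.mem_insert]
          constructor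
          · rintro ⟨h | h, hx⟩
            · exact absurd (h ▸ hx) hu'.2
            · exact ⟨h, hx⟩
          · rintro ⟨hx, h⟩
            exact ⟨Or.inr hx, h⟩
      have := hv _ this
      rwa [Finset.card_insert_of_notMem haT] at this
    have ihU := ih (F0 ∪ F1) v (by
      intro τ hτ
      rcases Finset.mem_union.1 hτ with h | h
      · exact hsub0 τ h
      · exact hsub1 τ h) hshU
    have ihI : ∑ z ∈ Z, (dirEdges (F0 ∩ F1) z).card + (F0 ∩ F1).card ≤ v * (F0 ∩ F1).card := by
      rcases Finset.eq_empty_or_nonempty (F0 ∩ F1) with h | h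
      · rw [h]; simp [dirEdges]
      · have hv1 : 1 ≤ v := by
          have := hshI ∅ (by simpa using h)
          simpa using this
        obtain ⟨w, rfl⟩ : ∃ w, v = w + 1 := ⟨v - 1, by omega⟩
        have := ih (F0 ∩ F1) w (by
          intro τ hτ
          exact hsub0 τ (Finset.mem_inter.1 hτ).1) (by
            intro T hT
            have := hshI T hT
            omega)
        linarith
    -- direction `a`
    have hdirA : (dirEdges F a).card = (F0 ∩ F1).card := by
      congr 1
      ext τ
      rw [mem_dirEdges, Finset.mem_inter, hm0, hm1]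
      tauto
    -- other directions
    have hdir : ∀ z ∈ Z, (dirEdges F z).card ≤
        (dirEdges (F0 ∪ F1) z).card + (dirEdges (F0 ∩ F1) z).card := by
      intro z hz
      have hza : z ≠ a := by rintro rfl; exact ha hz
      have h1 : (dirEdges F z).card = (dirEdges F0 z).card + (dirEdges F1 z).card := by
        rw [← Finset.card_filter_add_card_filter_not (s := dirEdges F z) (fun τ => a ∉ τ)]
        congr 1
        · congr 1
          ext τ
          simp only [Finset.mem_filter, mem_dirEdges, hm0, Finset.mem_insert]
          constructor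
          · rintro ⟨⟨h1, h2, h3⟩, h4⟩
            exact ⟨⟨h1, h4⟩, h2, h3, by rintro (h | h); exacts [hza h.symm, h4 h]⟩
          · rintro ⟨⟨h1, h4⟩, h2, h3, _⟩
            exact ⟨⟨h1, h2, h3⟩, h4⟩
        · refine Finset.card_bij' (fun τ _ => τ.erase a) (fun τ _ => insert a τ) ?_ ?_ ?_ ?_
          · intro τ hτ
            simp only [Finset.mem_filter, mem_dirEdges, not_not] at hτ
            obtain ⟨⟨h1, h2, h3⟩, h4⟩ := hτ
            rw [mem_dirEdges, hm1, hm1]
            refine ⟨⟨?_, Finset.notMem_erase a τ⟩, ?_, ?_, ?_⟩
            · rwa [Finset.insert_erase h4]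
            · intro h; exact h2 (Finset.mem_of_mem_erase h)
            · have : insert a (insert z (τ.erase a)) = insert z τ := by
                rw [Finset.insert_comm, Finset.insert_erase h4]
              rwa [this]
            · simp only [Finset.mem_insert, Finset.mem_erase]
              rintro (h | h)
              · exact hza h.symm
              · exact h.1 rfl
          · intro τ hτ
            rw [mem_dirEdges, hm1, hm1] at hτ
            obtain ⟨⟨h1, h2⟩, h3, h4, h5⟩ := hτ
            simp only [Finset.mem_filter, mem_dirEdges, not_not]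
            refine ⟨⟨h1, ?_, ?_⟩, Finset.mem_insert_self _ _⟩
            · simp only [Finset.mem_insert]
              rintro (h | h)
              · exact hza h
              · exact h3 h
            · rwa [Finset.insert_comm]
          · intro τ hτ
            simp only [Finset.mem_filter, not_not] at hτ
            exact Finset.insert_erase hτ.2
          · intro τ hτ
            rw [mem_dirEdges, hm1] at hτ
            exact Finset.erase_insert hτ.1.2
      have h2 : (dirEdges F0 z).card + (dirEdges F1 z).card =
          (dirEdges F0 z ∪ dirEdges F1 z).card + (dirEdges F0 z ∩ dirEdges F1 z).card :=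
        (Finset.card_union_add_card_inter _ _).symm
      rw [h1, h2]
      refine Nat.add_le_add (Finset.card_le_card ?_) (Finset.card_le_card ?_)
      · intro τ hτ
        rcases Finset.mem_union.1 hτ with h | h
        · rw [mem_dirEdges] at h ⊢
          exact ⟨Finset.mem_union_left _ h.1, h.2.1, Finset.mem_union_left _ h.2.2⟩
        · rw [mem_dirEdges] at h ⊢
          exact ⟨Finset.mem_union_right _ h.1, h.2.1, Finset.mem_union_right _ h.2.2⟩
      · intro τ hτ
        obtain ⟨h, h'⟩ := Finset.mem_inter.1 hτ
        rw [mem_dirEdges] at h h' ⊢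
        exact ⟨Finset.mem_inter.2 ⟨h.1, h'.1⟩, h.2.1, Finset.mem_inter.2 ⟨h.2.2, h'.2.2⟩⟩
    rw [Finset.sum_insert ha, hdirA, hcard]
    have hsum := Finset.sum_le_sum hdir
    rw [Finset.sum_add_distrib] at hsum
    nlinarith [hsum, ihU, ihI]

end Pool.Agent.Hhelper71.Small
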