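import Mathlib
import Pool.Agent.Hhelper71.Small.OneInc

/-!
Haussler's packing argument: if the sets `S p` (`p ∈ P`) are pairwise at distance at least `d`
and shatter nothing larger than `v`, then some set `Z` of size `r` has many traces.
-/

set_option autoImplicit false

namespace Pool.Agent.Hhelper71.Small

open Finset

variable {α β : Type*} [DecidableEq α] [DecidableEq β]

/-- Number of points with trace `τ` on `Z`. -/
def wt (P : Finset β) (S : β → Finset α) (Z τ : Finset α) : ℕ :=
  (P.filter (fun p => S p ∩ Z = τ)).card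

omit [DecidableEq β] in
theorem wt_le (P : Finset β) (S : β → Finset α) (Z τ : Finset α) : wt P S Z τ ≤ P.card :=
  Finset.card_filter_le _ _

theorem min_eq_card (M a b : ℕ) (ha : a ≤ M) :
    min a b = ((Finset.range M).filter (fun t => t < a ∧ t < b)).card := by
  have : (Finset.range M).filter (fun t => t < a ∧ t < b) = Finset.range (min a b) := by
    ext t
    simp only [Finset.mem_filter, Finset.mem_range, lt_min_iff]
    constructor
    · rintro ⟨_, h⟩; exact h
    · rintro h; exact ⟨lt_of_lt_of_le h.1 ha, h⟩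
  rw [this, Finset.card_range]

theorem weighted_oneInc (P : Finset β) (S : β → Finset α) (Z : Finset α) (v : ℕ)
    (hsh : ∀ T, T ⊆ Z → (P.image S).Shatters T → T.card ≤ v) :
    ∑ z ∈ Z, ∑ τ ∈ (Z.erase z).powerset, min (wt P S Z τ) (wt P S Z (insert z τ)) ≤
      v * P.card := by
  set M := P.card with hM
  let F : ℕ → Finset (Finset α) := fun t => Z.powerset.filter (fun τ => t < wt P S Z τ)
  have hF : ∀ t τ, τ ∈ F t ↔ τ ⊆ Z ∧ t < wt P S Z τ := by
    intro t τ; simp [F]
  have hstep : ∀ t, ∑ z ∈ Z, (dirEdges (F t) z).card ≤ v * (F t).card := by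
    intro t
    apply oneInc Z (F t) v
    · intro τ hτ; exact ((hF t τ).1 hτ).1
    · intro T hT
      have hTZ : T ⊆ Z := by
        obtain ⟨u, hu, hTu⟩ := hT.exists_superset
        exact hTu.trans ((hF t u).1 hu).1
      refine hsh T hTZ ?_
      intro S' hS'
      obtain ⟨u, hu, hTu⟩ := hT hS'
      have hpos : 0 < wt P S Z u := lt_of_le_of_lt (Nat.zero_le _) ((hF t u).1 hu).2
      obtain ⟨p, hp⟩ := Finset.card_pos.1 hpos
      rw [Finset.mem_filter] at hp
      refine ⟨S p, Finset.mem_image_of_mem _ hp.1, ?_⟩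
      rw [← hTu, ← hp.2]
      ext x
      simp only [Finset.mem_inter]
      constructor
      · rintro ⟨h1, h2⟩; exact ⟨h1, h2, hTZ h1⟩
      · rintro ⟨h1, h2, _⟩; exact ⟨h1, h2⟩
  have hdir : ∀ t, ∀ z ∈ Z, (dirEdges (F t) z) = (Z.erase z).powerset.filter
      (fun τ => t < wt P S Z τ ∧ t < wt P S Z (insert z τ)) := by
    intro t z hz
    ext τ
    rw [mem_dirEdges, hF, hF, Finset.mem_filter, Finset.mem_powerset, Finset.subset_erase]
    constructor
    · rintro ⟨⟨h1, h2⟩, h3, h4, h5⟩
      exact ⟨⟨h1, h3⟩, h2, h5⟩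
    · rintro ⟨⟨h1, h3⟩, h2, h5⟩
      exact ⟨⟨h1, h2⟩, h3, Finset.insert_subset hz h1, h5⟩
  calc ∑ z ∈ Z, ∑ τ ∈ (Z.erase z).powerset, min (wt P S Z τ) (wt P S Z (insert z τ))
      = ∑ z ∈ Z, ∑ τ ∈ (Z.erase z).powerset, ∑ t ∈ Finset.range M,
          if t < wt P S Z τ ∧ t < wt P S Z (insert z τ) then 1 else 0 := by
        refine Finset.sum_congr rfl fun z _ => Finset.sum_congr rfl fun τ _ => ?_
        rw [min_eq_card M _ _ (wt_le P S Z τ), Finset.card_filter]
    _ = ∑ z ∈ Z, ∑ t ∈ Finset.range M, ∑ τ ∈ (Z.erase z).powerset,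
          if t < wt P S Z τ ∧ t < wt P S Z (insert z τ) then 1 else 0 := by
        refine Finset.sum_congr rfl fun z _ => Finset.sum_comm
    _ = ∑ t ∈ Finset.range M, ∑ z ∈ Z, ∑ τ ∈ (Z.erase z).powerset,
          if t < wt P S Z τ ∧ t < wt P S Z (insert z τ) then 1 else 0 := Finset.sum_comm
    _ = ∑ t ∈ Finset.range M, ∑ z ∈ Z, (dirEdges (F t) z).card := by
        refine Finset.sum_congr rfl fun t _ => Finset.sum_congr rfl fun z hz => ?_
        rw [hdir t z hz, Finset.card_filter]
    _ ≤ ∑ t ∈ Finset.range M, v * (F t).card := Finset.sum_le_sum fun t _ => hstep t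
    _ = v * ∑ t ∈ Finset.range M, (F t).card := by rw [Finset.mul_sum]
    _ = v * ∑ τ ∈ Z.powerset, wt P S Z τ := by
        congr 1
        have : ∀ t, (F t).card = ∑ τ ∈ Z.powerset, if t < wt P S Z τ then 1 else 0 := by
          intro t; simp only [F]; rw [Finset.card_filter]
        simp_rw [this]
        rw [Finset.sum_comm]
        refine Finset.sum_congr rfl fun τ _ => ?_
        rw [← Finset.card_filter]
        have : (Finset.range M).filter (fun t => t < wt P S Z τ) = Finset.range (wt P S Z τ) := by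
          ext t
          simp only [Finset.mem_filter, Finset.mem_range]
          constructor
          · rintro ⟨_, h⟩; exact h
          · intro h; exact ⟨lt_of_lt_of_le h (wt_le P S Z τ), h⟩
        rw [this, Finset.card_range]
    _ ≤ v * M := by
        gcongr
        rw [hM, Finset.card_eq_sum_card_fiberwise (f := fun p => S p ∩ Z) (t := Z.powerset)]
        · rfl
        · intro p _
          simp only [Finset.coe_powerset, Set.mem_preimage, Set.mem_powerset_iff,
            Finset.coe_inter]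
          exact Set.inter_subset_right

/-- Lower bound for one set `Z`. -/
theorem lower_one (P : Finset β) (S : β → Finset α) (Y Z : Finset α) (d : ℕ)
    (hS : ∀ p ∈ P, S p ⊆ Y)
    (hsep : ∀ p ∈ P, ∀ q ∈ P, p ≠ q → d ≤ (S p \ S q).card + (S q \ S p).card) :
    (P.card - (P.image (fun p => S p ∩ Z)).card) * d ≤
      2 * ∑ z ∈ Y \ Z, ∑ τ ∈ Z.powerset,
        min (wt P S (insert z Z) τ) (wt P S (insert z Z) (insert z τ)) := by
  set I := P.image (fun p => S p ∩ Z) with hI
  have hIsub : I ⊆ Z.powerset := by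
    intro τ hτ
    obtain ⟨p, _, rfl⟩ := Finset.mem_image.1 hτ
    exact Finset.mem_powerset.2 Finset.inter_subset_right
  -- per class bound
  have hclass : ∀ τ ∈ I, (wt P S Z τ - 1) * d ≤
      2 * ∑ z ∈ Y \ Z, min (wt P S (insert z Z) τ) (wt P S (insert z Z) (insert z τ)) := by
    intro τ hτ
    have hτZ : τ ⊆ Z := Finset.mem_powerset.1 (hIsub hτ)
    set Q := P.filter (fun p => S p ∩ Z = τ) with hQ
    have hQP : ∀ p ∈ Q, p ∈ P := fun p hp => (Finset.mem_filter.1 hp).1
    have hQt : ∀ p ∈ Q, S p ∩ Z = τ := fun p hp => (Finset.mem_filter.1 hp).2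
    have hW : wt P S Z τ = Q.card := rfl
    have ha : ∀ z ∈ Y \ Z, wt P S (insert z Z) τ = (Q.filter (fun p => z ∉ S p)).card := by
      intro z hz
      have hzZ : z ∉ Z := (Finset.mem_sdiff.1 hz).2
      unfold wt
      congr 1
      ext p
      simp only [Finset.mem_filter, hQ]
      constructor
      · rintro ⟨hp, h⟩
        have hzp : z ∉ S p := by
          intro hzp
          have : z ∈ τ := by rw [← h]; simp [hzp]
          exact hzZ (hτZ this)
        refine ⟨⟨hp, ?_⟩, hzp⟩
        rw [← h]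
        ext x
        simp only [Finset.mem_inter, Finset.mem_insert]
        constructor
        · rintro ⟨h1, h2⟩; exact ⟨h1, Or.inr h2⟩
        · rintro ⟨h1, h2 | h2⟩
          · exact absurd (h2 ▸ h1) hzp
          · exact ⟨h1, h2⟩
      · rintro ⟨⟨hp, h⟩, hzp⟩
        refine ⟨hp, ?_⟩
        rw [← h]
        ext x
        simp only [Finset.mem_inter, Finset.mem_insert]
        constructor
        · rintro ⟨h1, h2 | h2⟩
          · exact absurd (h2 ▸ h1) hzp
          · exact ⟨h1, h2⟩
        · rintro ⟨h1, h2⟩; exact ⟨h1, Or.inr h2⟩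
    have hb : ∀ z ∈ Y \ Z, wt P S (insert z Z) (insert z τ) =
        (Q.filter (fun p => z ∈ S p)).card := by
      intro z hz
      have hzZ : z ∉ Z := (Finset.mem_sdiff.1 hz).2
      have hzτ : z ∉ τ := fun h => hzZ (hτZ h)
      unfold wt
      congr 1
      ext p
      simp only [Finset.mem_filter, hQ]
      constructor
      · rintro ⟨hp, h⟩
        have hzp : z ∈ S p := by
          have : z ∈ S p ∩ insert z Z := by rw [h]; exact Finset.mem_insert_self _ _
          exact (Finset.mem_inter.1 this).1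
        refine ⟨⟨hp, ?_⟩, hzp⟩
        ext x
        have hx : x ∈ S p ∩ insert z Z ↔ x ∈ insert z τ := by rw [h]
        simp only [Finset.mem_inter, Finset.mem_insert] at hx ⊢
        constructor
        · rintro ⟨h1, h2⟩
          rcases hx.1 ⟨h1, Or.inr h2⟩ with h3 | h3
          · exact absurd (h3 ▸ h2) hzZ
          · exact h3
        · intro h1
          have := hx.2 (Or.inr h1)
          exact ⟨this.1, hτZ h1⟩
      · rintro ⟨⟨hp, h⟩, hzp⟩
        refine ⟨hp, ?_⟩
        ext x
        have hx : x ∈ S p ∩ Z ↔ x ∈ τ := by rw [h]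
        simp only [Finset.mem_inter, Finset.mem_insert] at hx ⊢
        constructor
        · rintro ⟨h1, h2 | h2⟩
          · exact Or.inl h2
          · exact Or.inr (hx.1 ⟨h1, h2⟩)
        · rintro (h1 | h1)
          · subst h1; exact ⟨hzp, Or.inl rfl⟩
          · exact ⟨(hx.2 h1).1, Or.inr (hx.2 h1).2⟩
    have hsumab : ∑ z ∈ Y \ Z, (Q.filter (fun p => z ∈ S p)).card *
        (Q.filter (fun p => z ∉ S p)).card = ∑ p ∈ Q, ∑ q ∈ Q, (S p \ S q).card := by
      have h1 : ∀ z, (Q.filter (fun p => z ∈ S p)).card * (Q.filter (fun p => z ∉ S p)).card =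
          ∑ p ∈ Q, ∑ q ∈ Q, if z ∈ S p \ S q then 1 else 0 := by
        intro z
        rw [Finset.card_filter, Finset.card_filter, Finset.sum_mul_sum]
        refine Finset.sum_congr rfl fun p _ => Finset.sum_congr rfl fun q _ => ?_
        by_cases h1 : z ∈ S p <;> by_cases h2 : z ∈ S q <;> simp [h1, h2]
      simp_rw [h1]
      rw [Finset.sum_comm]
      refine Finset.sum_congr rfl fun p hp => ?_
      rw [Finset.sum_comm]
      refine Finset.sum_congr rfl fun q hq => ?_
      rw [← Finset.card_filter]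
      congr 1
      ext z
      simp only [Finset.mem_filter, Finset.mem_sdiff]
      constructor
      · rintro ⟨_, h⟩; exact h
      · rintro ⟨h1, h2⟩
        refine ⟨⟨hS p (hQP p hp) h1, ?_⟩, h1, h2⟩
        intro hzZ
        have h3 : z ∈ S p ∩ Z := Finset.mem_inter.2 ⟨h1, hzZ⟩
        rw [hQt p hp, ← hQt q hq] at h3
        exact h2 (Finset.mem_inter.1 h3).1
    have hpair : Q.card * (Q.card - 1) * d ≤ 2 * ∑ p ∈ Q, ∑ q ∈ Q, (S p \ S q).card := by
      have h1 : 2 * ∑ p ∈ Q, ∑ q ∈ Q, (S p \ S q).card =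
          ∑ p ∈ Q, ∑ q ∈ Q, ((S p \ S q).card + (S q \ S p).card) := by
        simp_rw [Finset.sum_add_distrib]
        rw [two_mul]
        congr 1
        exact Finset.sum_comm
      rw [h1]
      calc Q.card * (Q.card - 1) * d = ∑ p ∈ Q, ∑ q ∈ Q.erase p, d := by
            rw [Finset.sum_congr rfl (g := fun _ => (Q.card - 1) * d)]
            · simp [mul_assoc]
            · intro p hp
              rw [Finset.sum_const, Finset.card_erase_of_mem hp, smul_eq_mul]
        _ ≤ ∑ p ∈ Q, ∑ q ∈ Q.erase p, ((S p \ S q).card + (S q \ S p).card) := by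
            refine Finset.sum_le_sum fun p hp => Finset.sum_le_sum fun q hq => ?_
            have hq' := Finset.mem_erase.1 hq
            exact hsep p (hQP p hp) q (hQP q hq'.2) (fun h => hq'.1 h.symm)
        _ ≤ ∑ p ∈ Q, ∑ q ∈ Q, ((S p \ S q).card + (S q \ S p).card) := by
            refine Finset.sum_le_sum fun p _ => ?_
            exact Finset.sum_le_sum_of_subset (Finset.erase_subset _ _)
    have hmul : ∑ z ∈ Y \ Z, (Q.filter (fun p => z ∈ S p)).card *
        (Q.filter (fun p => z ∉ S p)).card ≤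
        Q.card * ∑ z ∈ Y \ Z, min (Q.filter (fun p => z ∉ S p)).card
          (Q.filter (fun p => z ∈ S p)).card := by
      rw [Finset.mul_sum]
      refine Finset.sum_le_sum fun z _ => ?_
      have h1 : (Q.filter (fun p => z ∈ S p)).card ≤ Q.card := Finset.card_filter_le _ _
      have h2 : (Q.filter (fun p => z ∉ S p)).card ≤ Q.card := Finset.card_filter_le _ _
      rcases le_total (Q.filter (fun p => z ∉ S p)).card (Q.filter (fun p => z ∈ S p)).card with h | h
      · rw [min_eq_left h]; exact Nat.mul_le_mul_right _ h1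
      · rw [min_eq_right h, mul_comm]; exact Nat.mul_le_mul_right _ h2
    have hsum_eq : ∑ z ∈ Y \ Z, min (wt P S (insert z Z) τ) (wt P S (insert z Z) (insert z τ)) =
        ∑ z ∈ Y \ Z, min (Q.filter (fun p => z ∉ S p)).card (Q.filter (fun p => z ∈ S p)).card := by
      refine Finset.sum_congr rfl fun z hz => ?_
      rw [ha z hz, hb z hz]
    rw [hsum_eq, hW]
    have hQpos : 0 < Q.card := by
      obtain ⟨p, hp, hpτ⟩ := Finset.mem_image.1 hτ
      exact Finset.card_pos.2 ⟨p, Finset.mem_filter.2 ⟨hp, hpτ⟩⟩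
    refine Nat.le_of_mul_le_mul_left ?_ hQpos
    calc Q.card * ((Q.card - 1) * d) = Q.card * (Q.card - 1) * d := by ring
      _ ≤ 2 * ∑ p ∈ Q, ∑ q ∈ Q, (S p \ S q).card := hpair
      _ = 2 * ∑ z ∈ Y \ Z, (Q.filter (fun p => z ∈ S p)).card *
            (Q.filter (fun p => z ∉ S p)).card := by rw [hsumab]
      _ ≤ 2 * (Q.card * ∑ z ∈ Y \ Z, min (Q.filter (fun p => z ∉ S p)).card
            (Q.filter (fun p => z ∈ S p)).card) := Nat.mul_le_mul_left _ hmul
      _ = _ := by ring
  calc (P.card - I.card) * d ≤ (∑ τ ∈ I, (wt P S Z τ - 1)) * d := by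
        gcongr
        have h1 : P.card = ∑ τ ∈ I, wt P S Z τ := by
          rw [Finset.card_eq_sum_card_fiberwise (f := fun p => S p ∩ Z) (t := I)]
          · rfl
          · intro p hp
            exact Finset.mem_coe.2 (Finset.mem_image_of_mem _ hp)
        have h2 : ∑ τ ∈ I, wt P S Z τ ≤ ∑ τ ∈ I, ((wt P S Z τ - 1) + 1) :=
          Finset.sum_le_sum fun τ _ => by omega
        rw [Finset.sum_add_distrib] at h2
        simp only [Finset.sum_const, smul_eq_mul, mul_one] at h2
        omega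
    _ = ∑ τ ∈ I, (wt P S Z τ - 1) * d := by rw [Finset.sum_mul]
    _ ≤ ∑ τ ∈ I, 2 * ∑ z ∈ Y \ Z,
          min (wt P S (insert z Z) τ) (wt P S (insert z Z) (insert z τ)) :=
        Finset.sum_le_sum hclass
    _ = 2 * ∑ z ∈ Y \ Z, ∑ τ ∈ I,
          min (wt P S (insert z Z) τ) (wt P S (insert z Z) (insert z τ)) := by
        rw [← Finset.mul_sum, Finset.sum_comm]
    _ ≤ _ := by
        gcongr

theorem haussler (P : Finset β) (S : β → Finset α) (Y : Finset α) (v d r : ℕ)
    (hS : ∀ p ∈ P, S p ⊆ Y)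
    (hsh : ∀ T, T ⊆ Y → (P.image S).Shatters T → T.card ≤ v)
    (hsep : ∀ p ∈ P, ∀ q ∈ P, p ≠ q → d ≤ (S p \ S q).card + (S q \ S p).card)
    (hr : r + 1 ≤ Y.card) :
    ∃ Z, Z ⊆ Y ∧ Z.card = r ∧
      (P.card - (P.image (fun p => S p ∩ Z)).card) * d * (r + 1) ≤ 2 * v * P.card * Y.card := by
  by_contra hcon
  push Not at hcon
  have hlow : ∀ Z ∈ Finset.powersetCard r Y, 2 * v * P.card * Y.card <
      2 * (r + 1) * ∑ z ∈ Y \ Z, ∑ τ ∈ Z.powerset,
        min (wt P S (insert z Z) τ) (wt P S (insert z Z) (insert z τ)) := by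
    intro Z hZ
    obtain ⟨h1, h2⟩ := Finset.mem_powersetCard.1 hZ
    refine lt_of_lt_of_le (hcon Z h1 h2) ?_
    have := lower_one P S Y Z d hS hsep
    calc _ ≤ (2 * ∑ z ∈ Y \ Z, ∑ τ ∈ Z.powerset,
          min (wt P S (insert z Z) τ) (wt P S (insert z Z) (insert z τ))) * (r + 1) :=
          Nat.mul_le_mul_right _ this
      _ = _ := by ring
  have hne : (Finset.powersetCard r Y).Nonempty :=
    Finset.powersetCard_nonempty.2 (by omega)
  have hsum1 : (Y.card.choose r) * (2 * v * P.card * Y.card) <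
      2 * (r + 1) * ∑ Z ∈ Finset.powersetCard r Y, ∑ z ∈ Y \ Z, ∑ τ ∈ Z.powerset,
        min (wt P S (insert z Z) τ) (wt P S (insert z Z) (insert z τ)) := by
    rw [Finset.mul_sum, ← Finset.card_powersetCard, ← smul_eq_mul, ← Finset.sum_const]
    exact Finset.sum_lt_sum_of_nonempty hne hlow
  have hswap : ∑ Z ∈ Finset.powersetCard r Y, ∑ z ∈ Y \ Z, ∑ τ ∈ Z.powerset,
        min (wt P S (insert z Z) τ) (wt P S (insert z Z) (insert z τ)) =
      ∑ Z ∈ Finset.powersetCard (r + 1) Y, ∑ z ∈ Z, ∑ τ ∈ (Z.erase z).powerset,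
        min (wt P S Z τ) (wt P S Z (insert z τ)) := by
    rw [Finset.sum_sigma' (Finset.powersetCard r Y) (fun Z => Y \ Z) (fun Z z =>
        ∑ τ ∈ Z.powerset, min (wt P S (insert z Z) τ) (wt P S (insert z Z) (insert z τ))),
      Finset.sum_sigma' (Finset.powersetCard (r + 1) Y) (fun Z => Z) (fun Z z =>
        ∑ τ ∈ (Z.erase z).powerset, min (wt P S Z τ) (wt P S Z (insert z τ)))]
    refine Finset.sum_bij' (fun x _ => (⟨insert x.2 x.1, x.2⟩ : (_ : Finset α) × α))
      (fun x _ => (⟨x.1.erase x.2, x.2⟩ : (_ : Finset α) × α))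
      ?_ ?_ ?_ ?_ ?_
    · rintro ⟨Z, z⟩ h
      simp only [Finset.mem_sigma, Finset.mem_powersetCard, Finset.mem_sdiff] at h ⊢
      obtain ⟨⟨h1, h2⟩, h3, h4⟩ := h
      refine ⟨⟨Finset.insert_subset h3 h1, ?_⟩, Finset.mem_insert_self _ _⟩
      rw [Finset.card_insert_of_notMem h4, h2]
    · rintro ⟨Z, z⟩ h
      simp only [Finset.mem_sigma, Finset.mem_powersetCard, Finset.mem_sdiff] at h ⊢
      obtain ⟨⟨h1, h2⟩, h3⟩ := h
      refine ⟨⟨(Finset.erase_subset _ _).trans h1, ?_⟩, h1 h3, Finset.notMem_erase _ _⟩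
      rw [Finset.card_erase_of_mem h3, h2]; rfl
    · rintro ⟨Z, z⟩ h
      simp only [Finset.mem_sigma, Finset.mem_powersetCard, Finset.mem_sdiff] at h
      simp only [Finset.erase_insert h.2.2]
    · rintro ⟨Z, z⟩ h
      simp only [Finset.mem_sigma, Finset.mem_powersetCard] at h
      simp only [Finset.insert_erase h.2]
    · rintro ⟨Z, z⟩ h
      simp only [Finset.mem_sigma, Finset.mem_powersetCard, Finset.mem_sdiff] at h
      simp only [Finset.erase_insert h.2.2]
  have hup : ∑ Z ∈ Finset.powersetCard (r + 1) Y, ∑ z ∈ Z, ∑ τ ∈ (Z.erase z).powerset,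
        min (wt P S Z τ) (wt P S Z (insert z τ)) ≤ (Y.card.choose (r + 1)) * (v * P.card) := by
    rw [← Finset.card_powersetCard, ← smul_eq_mul, ← Finset.sum_const]
    refine Finset.sum_le_sum fun Z hZ => ?_
    have hZY := (Finset.mem_powersetCard.1 hZ).1
    exact weighted_oneInc P S Z v (fun T hT hs => hsh T (hT.trans hZY) hs)
  rw [hswap] at hsum1
  have hch : Y.card.choose (r + 1) * (r + 1) = Y.card.choose r * (Y.card - r) :=
    Nat.choose_succ_right_eq _ _
  have hfinal : 2 * (r + 1) * (Y.card.choose (r + 1) * (v * P.card)) ≤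
      Y.card.choose r * (2 * v * P.card * Y.card) := by
    calc 2 * (r + 1) * (Y.card.choose (r + 1) * (v * P.card))
        = 2 * (Y.card.choose (r + 1) * (r + 1)) * (v * P.card) := by ring
      _ = 2 * (Y.card.choose r * (Y.card - r)) * (v * P.card) := by rw [hch]
      _ ≤ 2 * (Y.card.choose r * Y.card) * (v * P.card) := by
          gcongr
          exact Nat.sub_le _ _
      _ = _ := by ring
  have := Nat.mul_le_mul_left (2 * (r + 1)) hup
  omega

end Pool.Agent.Hhelper71.Small
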