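import Mathlib
import Pool.Agent.Hhelper71.Small.Count
import Pool.Agent.Hhelper71.Small.Haussler

/-!
The halving lemma: in a small hereditary class every vertex set `Y` has a subset `P` of at most
half its size such that every vertex of `Y` agrees on `Y` with a vertex of `P`, up to
`O(log |Y|)` exceptions.
-/

set_option autoImplicit false

namespace Pool.Agent.Hhelper71.Small

open Finset

theorem pow_four_le : ∀ k : ℕ, 16 ≤ k → k ^ 4 ≤ 2 ^ k := by
  intro k hk
  induction k, hk using Nat.le_induction with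
  | base => norm_num
  | succ k hk ih =>
    have h1 : (k + 1) ^ 4 ≤ 2 * k ^ 4 := by
      have h2 : 16 * (k + 1) ≤ 17 * k := by omega
      have h3 : (16 * (k + 1)) ^ 4 ≤ (17 * k) ^ 4 := Nat.pow_le_pow_left h2 4
      have h4 : (16 * (k + 1)) ^ 4 = 65536 * (k + 1) ^ 4 := by ring
      have h5 : (17 * k) ^ 4 = 83521 * k ^ 4 := by ring
      rw [h4, h5] at h3
      omega
    calc (k + 1) ^ 4 ≤ 2 * k ^ 4 := h1
      _ ≤ 2 * 2 ^ k := by omega
      _ = 2 ^ (k + 1) := by ring

theorem fact_pow_le (m c : ℕ) : m.factorial * c ^ m ≤ (m * c) ^ m := by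
  rw [mul_pow]
  exact Nat.mul_le_mul_right _ (Nat.factorial_le_pow m)

section

variable {C : (n : ℕ) → Set (SimpleGraph (Fin n))} {c : ℕ}

/-- Shattered sets have bounded size. -/
theorem vc_bound (hered : Hered C) (hsmall : ∀ n : ℕ, (C n).ncard ≤ n.factorial * c ^ n)
    {n : ℕ} {G : SimpleGraph (Fin n)} [DecidableRel G.Adj] (hG : G ∈ C n)
    (P Y T : Finset (Fin n)) (h : (P.image (fun p => Y.filter (G.Adj p))).Shatters T) :
    T.card ≤ 8 * c + 16 := by
  classical
  by_contra hcon
  push Not at hcon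
  set k := T.card with hk
  have hex : ∀ S : Finset (Fin n), ∃ p, S ⊆ T → T ∩ Y.filter (G.Adj p) = S := by
    intro S
    by_cases hS : S ⊆ T
    · obtain ⟨u, hu, hTu⟩ := h hS
      obtain ⟨p, _, rfl⟩ := Finset.mem_image.1 hu
      exact ⟨p, fun _ => hTu⟩
    · have : 0 < T.card := by omega
      obtain ⟨x, _⟩ := Finset.card_pos.1 this
      exact ⟨x, fun h => absurd h hS⟩
  choose f hf using hex
  set X := (T.powerset.image f) \ T with hX
  have hXcard : 2 ^ k - k ≤ X.card := by
    have h1 : (T.powerset.image f).card = 2 ^ k := by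
      rw [Finset.card_image_of_injOn, Finset.card_powerset]
      intro S hS S' hS' hff
      have hS := Finset.mem_powerset.1 (Finset.mem_coe.1 hS)
      have hS' := Finset.mem_powerset.1 (Finset.mem_coe.1 hS')
      rw [← hf S hS, ← hf S' hS', hff]
    have h2 := Finset.le_card_sdiff T (T.powerset.image f)
    rw [h1] at h2
    exact h2
  have hsep : ∀ x ∈ X, ∀ y ∈ X, (∀ z ∈ T, (G.Adj z x ↔ G.Adj z y)) → x = y := by
    intro x hx y hy hxy
    obtain ⟨hx1, _⟩ := Finset.mem_sdiff.1 hx
    obtain ⟨hy1, _⟩ := Finset.mem_sdiff.1 hy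
    obtain ⟨S, hS, rfl⟩ := Finset.mem_image.1 hx1
    obtain ⟨S', hS', rfl⟩ := Finset.mem_image.1 hy1
    have hS := Finset.mem_powerset.1 hS
    have hS' := Finset.mem_powerset.1 hS'
    have : S = S' := by
      rw [← hf S hS, ← hf S' hS']
      ext z
      simp only [Finset.mem_inter, Finset.mem_filter]
      constructor
      · rintro ⟨h1, h2, h3⟩
        exact ⟨h1, h2, ((hxy z h1).1 h3.symm).symm⟩
      · rintro ⟨h1, h2, h3⟩
        exact ⟨h1, h2, ((hxy z h1).2 h3.symm).symm⟩
    rw [this]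
  have hcount := count_lemma hered hG T X (Finset.disjoint_sdiff) hsep k
  have h1 : (X.card + 1 - k) ^ k ≤ (4 * k ^ 2 * c ^ 2) ^ k := by
    calc (X.card + 1 - k) ^ k ≤ X.card.descFactorial k := Nat.pow_sub_le_descFactorial _ _
      _ ≤ (C (T.card + k)).ncard := hcount
      _ ≤ (k + k).factorial * c ^ (k + k) := hsmall _
      _ ≤ ((k + k) * c) ^ (k + k) := fact_pow_le _ _
      _ = (4 * k ^ 2 * c ^ 2) ^ k := by
          rw [← two_mul, pow_mul]; congr 1; ring
  have hk0 : k ≠ 0 := by omega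
  have h2 : X.card + 1 - k ≤ 4 * k ^ 2 * c ^ 2 := (Nat.pow_le_pow_iff_left hk0).1 h1
  have h3 := pow_four_le k (by omega)
  have h4 : 64 * c ^ 2 ≤ k ^ 2 := by
    have : 8 * c ≤ k := by omega
    calc 64 * c ^ 2 = (8 * c) ^ 2 := by ring
      _ ≤ k ^ 2 := Nat.pow_le_pow_left this 2
  have h5 : 16 * (4 * k ^ 2 * c ^ 2) ≤ k ^ 4 := by
    calc 16 * (4 * k ^ 2 * c ^ 2) = k ^ 2 * (64 * c ^ 2) := by ring
      _ ≤ k ^ 2 * k ^ 2 := Nat.mul_le_mul_left _ h4
      _ = k ^ 4 := by ring
  have h6 : 4096 * k ≤ k ^ 4 := by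
    have : 16 ^ 3 ≤ k ^ 3 := Nat.pow_le_pow_left (by omega) 3
    calc 4096 * k = 16 ^ 3 * k := by norm_num
      _ ≤ k ^ 3 * k := Nat.mul_le_mul_right _ this
      _ = k ^ 4 := by ring
  omega

theorem numeric (N c r s X : ℕ) (hs : 64 * c * s ≤ N) (hrs : r ≤ s)
    (hX : N ≤ 8 * (X + 1 - s)) (h : X.descFactorial s ≤ (r + s).factorial * c ^ (r + s)) :
    2 * s ≤ (Nat.log 2 N + 1) * r ∨ c = 0 ∨ N = 0 := by
  rcases Nat.eq_zero_or_pos N with hN | hN
  · right; right; exact hN
  rcases Nat.eq_zero_or_pos c with hc | hc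
  · right; left; exact hc
  left
  have h1 : N ^ s ≤ 8 ^ s * (2 * s * c) ^ (r + s) := by
    calc N ^ s ≤ (8 * (X + 1 - s)) ^ s := Nat.pow_le_pow_left hX s
      _ = 8 ^ s * (X + 1 - s) ^ s := mul_pow _ _ _
      _ ≤ 8 ^ s * X.descFactorial s := Nat.mul_le_mul_left _ (Nat.pow_sub_le_descFactorial _ _)
      _ ≤ 8 ^ s * ((r + s).factorial * c ^ (r + s)) := Nat.mul_le_mul_left _ h
      _ ≤ 8 ^ s * ((r + s) * c) ^ (r + s) := Nat.mul_le_mul_left _ (fact_pow_le _ _)
      _ ≤ 8 ^ s * (2 * s * c) ^ (r + s) := by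
          gcongr
          omega
  have h2 : 32 ^ (r + s) * (2 * s * c) ^ (r + s) ≤ N ^ (r + s) := by
    rw [← mul_pow]
    refine Nat.pow_le_pow_left ?_ _
    calc 32 * (2 * s * c) = 64 * c * s := by ring
      _ ≤ N := hs
  have h3 : N ^ s * 32 ^ (r + s) ≤ N ^ s * (8 ^ s * N ^ r) := by
    calc N ^ s * 32 ^ (r + s) ≤ 8 ^ s * (2 * s * c) ^ (r + s) * 32 ^ (r + s) :=
          Nat.mul_le_mul_right _ h1
      _ = 8 ^ s * (32 ^ (r + s) * (2 * s * c) ^ (r + s)) := by ring
      _ ≤ 8 ^ s * N ^ (r + s) := Nat.mul_le_mul_left _ h2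
      _ = N ^ s * (8 ^ s * N ^ r) := by rw [pow_add]; ring
  have h4 : 32 ^ (r + s) ≤ 8 ^ s * N ^ r := Nat.le_of_mul_le_mul_left h3 (by positivity)
  have h5 : 8 ^ s * 4 ^ s ≤ 8 ^ s * N ^ r := by
    calc 8 ^ s * 4 ^ s = 32 ^ s := by rw [← mul_pow]; norm_num
      _ ≤ 32 ^ (r + s) := Nat.pow_le_pow_right (by norm_num) (by omega)
      _ ≤ _ := h4
  have h6 : 4 ^ s ≤ N ^ r := Nat.le_of_mul_le_mul_left h5 (by positivity)
  have h7 : N ≤ 2 ^ (Nat.log 2 N + 1) := (Nat.lt_pow_succ_log_self (by norm_num) N).le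
  have h8 : 2 ^ (2 * s) ≤ 2 ^ ((Nat.log 2 N + 1) * r) := by
    calc 2 ^ (2 * s) = 4 ^ s := by rw [pow_mul]; norm_num
      _ ≤ N ^ r := h6
      _ ≤ (2 ^ (Nat.log 2 N + 1)) ^ r := Nat.pow_le_pow_left h7 r
      _ = _ := by rw [← pow_mul]
  exact (Nat.pow_le_pow_iff_right (by norm_num)).1 h8

/-- The vertices of `Y` on which `a` and `b` disagree. -/
def dis {n : ℕ} (G : SimpleGraph (Fin n)) [DecidableRel G.Adj] (Y : Finset (Fin n))
    (a b : Fin n) : Finset (Fin n) :=
  Y.filter (fun z => ¬ (G.Adj a z ↔ G.Adj b z))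

theorem dis_card {n : ℕ} (G : SimpleGraph (Fin n)) [DecidableRel G.Adj] (Y : Finset (Fin n))
    (a b : Fin n) : (dis G Y a b).card =
      ((Y.filter (G.Adj a)) \ (Y.filter (G.Adj b))).card +
        ((Y.filter (G.Adj b)) \ (Y.filter (G.Adj a))).card := by
  rw [← Finset.card_union_of_disjoint]
  · congr 1
    ext z
    simp only [dis, Finset.mem_filter, Finset.mem_union, Finset.mem_sdiff]
    tauto
  · rw [Finset.disjoint_left]
    intro z h1 h2
    simp only [Finset.mem_filter, Finset.mem_sdiff] at h1 h2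
    tauto

theorem halving (hered : Hered C) (hsmall : ∀ n : ℕ, (C n).ncard ≤ n.factorial * c ^ n)
    (hc : 1 ≤ c) {n : ℕ} {G : SimpleGraph (Fin n)} [DecidableRel G.Adj] (hG : G ∈ C n)
    (Y : Finset (Fin n)) (hY : 2 ≤ Y.card) :
    ∃ P, P ⊆ Y ∧ 2 * P.card ≤ Y.card ∧ ∀ a ∈ Y, ∃ b ∈ P,
      (dis G Y a b).card ≤ 512 * (8 * c + 16) * c * (Nat.log 2 Y.card + 1) := by
  classical
  set v := 8 * c + 16 with hv
  set N := Y.card with hN
  set L := Nat.log 2 N + 1 with hL
  set D := 512 * v * c * L with hD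
  -- a maximal separated set
  let fam := Y.powerset.filter (fun P => ∀ a ∈ P, ∀ b ∈ P, a ≠ b → D < (dis G Y a b).card)
  have hfam : fam.Nonempty := ⟨∅, by simp [fam]⟩
  obtain ⟨P, hP, hmax⟩ := Finset.exists_max_image fam Finset.card hfam
  have hP' : P ⊆ Y ∧ ∀ a ∈ P, ∀ b ∈ P, a ≠ b → D < (dis G Y a b).card := by
    simpa [fam] using hP
  obtain ⟨hPY, hPsep⟩ := hP'
  refine ⟨P, hPY, ?_, ?_⟩
  swap
  · intro a ha
    by_cases haP : a ∈ P
    · refine ⟨a, haP, ?_⟩
      have : dis G Y a a = ∅ := by simp [dis]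
      rw [this]; simp
    · by_contra hcon
      push Not at hcon
      have hmem : insert a P ∈ fam := by
        simp only [fam, Finset.mem_filter, Finset.mem_powerset]
        refine ⟨Finset.insert_subset ha hPY, ?_⟩
        intro x hx y hy hxy
        have hsymm : ∀ x y, dis G Y x y = dis G Y y x := by
          intro x y; unfold dis; congr 1; ext z; tauto
        rcases Finset.mem_insert.1 hx with hx1 | hx1
        · rcases Finset.mem_insert.1 hy with hy1 | hy1
          · exact absurd (hx1.trans hy1.symm) hxy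
          · rw [hx1]; exact hcon y hy1
        · rcases Finset.mem_insert.1 hy with hy1 | hy1
          · rw [hsymm, hy1]; exact hcon x hx1
          · exact hPsep x hx1 y hy1 hxy
      have := hmax _ hmem
      rw [Finset.card_insert_of_notMem haP] at this
      omega
  · by_contra hcon
    push Not at hcon
    -- `N` is large
    have hND : D + 1 ≤ N := by
      have h1 : 1 < P.card := by omega
      obtain ⟨a, ha, b, hb, hab⟩ := Finset.one_lt_card.1 h1
      have h2 := hPsep a ha b hb hab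
      have h3 : (dis G Y a b).card ≤ Y.card := Finset.card_filter_le _ _
      omega
    have hv0 : 0 < v := by omega
    have hL0 : 1 ≤ L := by omega
    set S : Fin n → Finset (Fin n) := fun p => Y.filter (G.Adj p) with hS
    set r := 4 * v * N / (D + 1) with hr
    have hr1 : 4 * v * N < (r + 1) * (D + 1) := by
      rw [hr, add_mul, one_mul]
      have h2 := Nat.div_add_mod (4 * v * N) (D + 1)
      have h3 := Nat.mod_lt (4 * v * N) (Nat.succ_pos D)
      calc 4 * v * N = (D + 1) * (4 * v * N / (D + 1)) + 4 * v * N % (D + 1) := h2.symm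
        _ < (D + 1) * (4 * v * N / (D + 1)) + (D + 1) := by
            exact Nat.add_lt_add_left h3 _
        _ = _ := by ring
    have hr2 : r * (D + 1) ≤ 4 * v * N := Nat.div_mul_le_self _ _
    -- r * 128 * c * L ≤ N
    have hr3 : 128 * c * L * r ≤ N := by
      have h1 : (4 * v) * (128 * c * L * r) ≤ (4 * v) * N := by
        calc (4 * v) * (128 * c * L * r) = r * D := by rw [hD]; ring
          _ ≤ r * (D + 1) := Nat.mul_le_mul_left _ (Nat.le_succ _)
          _ ≤ 4 * v * N := hr2
      exact Nat.le_of_mul_le_mul_left h1 (by omega)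
    have hr4 : 128 * r ≤ N := by
      calc 128 * r = 128 * 1 * 1 * r := by ring
        _ ≤ 128 * c * L * r := by gcongr
        _ ≤ N := hr3
    obtain ⟨Z, hZY, hZr, hHau⟩ := haussler P S Y v (D + 1) r
      (fun p _ => Finset.filter_subset _ _)
      (fun T _ hsh => vc_bound hered hsmall hG P Y T hsh)
      (fun p hp q hq hpq => by
        have := hPsep p hp q hq hpq
        rw [dis_card] at this
        exact this)
      (by omega)
    set I := P.image (fun p => S p ∩ Z) with hI
    -- many traces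
    have hI2 : P.card ≤ 2 * I.card := by
      have h1 : (P.card - I.card) * (4 * v * N) ≤ 2 * v * P.card * N := by
        calc (P.card - I.card) * (4 * v * N) ≤ (P.card - I.card) * ((r + 1) * (D + 1)) :=
              Nat.mul_le_mul_left _ hr1.le
          _ = (P.card - I.card) * (D + 1) * (r + 1) := by ring
          _ ≤ 2 * v * P.card * N := hHau
      have h2 : (2 * v * N) * (2 * (P.card - I.card)) ≤ (2 * v * N) * P.card := by
        calc (2 * v * N) * (2 * (P.card - I.card)) = (P.card - I.card) * (4 * v * N) := by ring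
          _ ≤ 2 * v * P.card * N := h1
          _ = _ := by ring
      have h3 : 0 < 2 * v * N := by positivity
      have h4 := Nat.le_of_mul_le_mul_left h2 h3
      omega
    -- representatives
    have hrep : ∀ τ : Finset (Fin n), ∃ p, τ ∈ I → S p ∩ Z = τ := by
      intro τ
      by_cases hτ : τ ∈ I
      · obtain ⟨p, _, hp⟩ := Finset.mem_image.1 hτ
        exact ⟨p, fun _ => hp⟩
      · have : 0 < P.card := by omega
        obtain ⟨x, _⟩ := Finset.card_pos.1 this
        exact ⟨x, fun h => absurd h hτ⟩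
    choose f hf using hrep
    set X := (I.image f) \ Z with hX
    have hXcard : I.card - r ≤ X.card := by
      have h1 : (I.image f).card = I.card := by
        rw [Finset.card_image_of_injOn]
        intro τ hτ τ' hτ' hff
        rw [← hf τ (Finset.mem_coe.1 hτ), ← hf τ' (Finset.mem_coe.1 hτ'), hff]
      have h2 := Finset.le_card_sdiff Z (I.image f)
      rw [h1, hZr] at h2
      exact h2
    have hsep : ∀ x ∈ X, ∀ y ∈ X, (∀ z ∈ Z, (G.Adj z x ↔ G.Adj z y)) → x = y := by
      intro x hx y hy hxy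
      obtain ⟨hx1, _⟩ := Finset.mem_sdiff.1 hx
      obtain ⟨hy1, _⟩ := Finset.mem_sdiff.1 hy
      obtain ⟨τ, hτ, rfl⟩ := Finset.mem_image.1 hx1
      obtain ⟨τ', hτ', rfl⟩ := Finset.mem_image.1 hy1
      have : τ = τ' := by
        rw [← hf τ hτ, ← hf τ' hτ']
        ext z
        simp only [hS, Finset.mem_inter, Finset.mem_filter]
        constructor
        · rintro ⟨⟨h1, h2⟩, h3⟩
          exact ⟨⟨h1, ((hxy z h3).1 h2.symm).symm⟩, h3⟩
        · rintro ⟨⟨h1, h2⟩, h3⟩
          exact ⟨⟨h1, ((hxy z h3).2 h2.symm).symm⟩, h3⟩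
      rw [this]
    set s := N / (64 * c) with hs
    have hs1 : 64 * c * s ≤ N := Nat.mul_div_le _ _
    have hs2 : N < 64 * c * (s + 1) := by
      rw [mul_add, mul_one]
      have h2 := Nat.div_add_mod N (64 * c)
      have h3 := Nat.mod_lt N (show 0 < 64 * c by omega)
      calc N = 64 * c * (N / (64 * c)) + N % (64 * c) := h2.symm
        _ < _ := Nat.add_lt_add_left h3 _
    have hKN : 128 * c ≤ N := by
      have : 128 * c ≤ D := by
        calc 128 * c = 128 * 1 * c * 1 := by ring
          _ ≤ 512 * v * c * L := by gcongr <;> omega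
      omega
    have hs3 : 64 * s ≤ N := by
      calc 64 * s = 64 * 1 * s := by ring
        _ ≤ 64 * c * s := by gcongr
        _ ≤ N := hs1
    have hrs : 2 * r ≤ s := by
      have h1 : 64 * c * (2 * r) < 64 * c * (s + 1) := by
        calc 64 * c * (2 * r) = 128 * c * 1 * r := by ring
          _ ≤ 128 * c * L * r := by gcongr
          _ ≤ N := hr3
          _ < _ := hs2
      have := Nat.lt_of_mul_lt_mul_left h1
      omega
    have hcount := count_lemma hered hG Z X (Finset.disjoint_sdiff) hsep s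
    rw [hZr] at hcount
    have hnum := numeric N c r s X.card hs1 (by omega) (by omega)
      (hcount.trans (hsmall _))
    rcases hnum with h | h | h
    · -- 2 s ≤ L r but 128 c L r ≤ N < 64 c (s+1)
      have h1 : 64 * c * (2 * s) ≤ 64 * c * (L * r) := Nat.mul_le_mul_left _ h
      have h2 : 2 * (64 * c * (L * r)) ≤ N := by
        calc 2 * (64 * c * (L * r)) = 128 * c * L * r := by ring
          _ ≤ N := hr3
      have h3 : 64 * c * (s + 1) = 64 * c * s + 64 * c := by ring
      have h4 : 64 * c * (2 * s) = 2 * (64 * c * s) := by ring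
      omega
    · omega
    · omega

end

end Pool.Agent.Hhelper71.Small
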