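import Mathlib
import Pool.Agent.Hhelper71.Small.Halve

/-!
Recursive labels: `Lab d j` is the label type for vertex sets of size at most `2 ^ j`.
-/

set_option autoImplicit false

namespace Pool.Agent.Hhelper71.Small

open Finset

/-- Label type: own number, list of exceptions, number of the parent, label of the parent. -/
def Lab (d : ℕ → ℕ) : ℕ → Type
  | 0 => Unit
  | j + 1 => (Fin (2 ^ (j + 1)) × (Fin (d (j + 1)) → Option (Fin (2 ^ (j + 1))))) ×
      (Fin (2 ^ (j + 1)) × Lab d j)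

/-- The decoder. -/
def dec (d : ℕ → ℕ) : (j : ℕ) → Lab d j → Lab d j → Prop
  | 0, _, _ => False
  | j + 1, x, y => ¬ ((∃ i, x.1.2 i = some y.1.1) ↔
      ¬ ((∃ i, y.1.2 i = some x.2.1) ↔ dec d j x.2.2 y.2.2))

instance labFintype (d : ℕ → ℕ) : (j : ℕ) → Fintype (Lab d j)
  | 0 => inferInstanceAs (Fintype Unit)
  | j + 1 =>
    letI := labFintype d j
    inferInstanceAs (Fintype ((Fin (2 ^ (j + 1)) × (Fin (d (j + 1)) → Option (Fin (2 ^ (j + 1))))) ×
      (Fin (2 ^ (j + 1)) × Lab d j)))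

theorem card_lab_zero (d : ℕ → ℕ) : Fintype.card (Lab d 0) = 1 := rfl

theorem card_lab_succ (d : ℕ → ℕ) (j : ℕ) : Fintype.card (Lab d (j + 1)) =
    (2 ^ (j + 1) * (2 ^ (j + 1) + 1) ^ (d (j + 1))) * (2 ^ (j + 1) * Fintype.card (Lab d j)) := by
  have : Fintype.card (Lab d (j + 1)) = Fintype.card
      ((Fin (2 ^ (j + 1)) × (Fin (d (j + 1)) → Option (Fin (2 ^ (j + 1))))) ×
      (Fin (2 ^ (j + 1)) × Lab d j)) := by
    apply Fintype.card_congr; exact Equiv.refl _
  rw [this]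
  simp [Fintype.card_prod]

theorem card_lab_le (K : ℕ) : ∀ j, Fintype.card (Lab (fun i => K * (i + 1)) j) ≤
    2 ^ ((K + 2) * (j + 1) ^ 3) := by
  intro j
  induction j with
  | zero => rw [card_lab_zero]; exact Nat.one_le_two_pow
  | succ j ih =>
    rw [card_lab_succ]
    have h1 : 2 ^ (j + 1) + 1 ≤ 2 ^ (j + 2) := by
      have := Nat.one_le_two_pow (n := j + 1)
      rw [pow_succ 2 (j + 1)]; omega
    calc (2 ^ (j + 1) * (2 ^ (j + 1) + 1) ^ (K * (j + 1 + 1))) *
          (2 ^ (j + 1) * Fintype.card (Lab (fun i => K * (i + 1)) j))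
        ≤ (2 ^ (j + 1) * (2 ^ (j + 2)) ^ (K * (j + 1 + 1))) *
          (2 ^ (j + 1) * 2 ^ ((K + 2) * (j + 1) ^ 3)) := by gcongr
      _ = 2 ^ ((j + 1) + (j + 2) * (K * (j + 1 + 1)) + ((j + 1) + (K + 2) * (j + 1) ^ 3)) := by
          rw [← pow_mul, ← pow_add, ← pow_add, ← pow_add]
      _ ≤ 2 ^ ((K + 2) * (j + 1 + 1) ^ 3) := by
          apply Nat.pow_le_pow_right (by norm_num)
          nlinarith [sq_nonneg j, Nat.zero_le K, Nat.zero_le (K * j), Nat.zero_le (K * j * j)]

/-- Encoding a small finite set by a function. -/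
theorem exists_list_fun {α : Type*} [DecidableEq α] (S : Finset α) (m : ℕ) (h : S.card ≤ m) :
    ∃ E : Fin m → Option α, ∀ x, x ∈ S ↔ ∃ i, E i = some x := by
  refine ⟨fun i => S.toList[(i : ℕ)]?, fun x => ?_⟩
  rw [← Finset.mem_toList, List.mem_iff_getElem?]
  constructor
  · rintro ⟨i, hi⟩
    have hlt : i < S.toList.length := by
      by_contra hcon
      rw [List.getElem?_eq_none (by omega)] at hi
      exact absurd hi (by simp)
    rw [Finset.length_toList] at hlt
    exact ⟨⟨i, by omega⟩, hi⟩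
  · rintro ⟨i, hi⟩
    exact ⟨i, hi⟩

section

variable {C : (n : ℕ) → Set (SimpleGraph (Fin n))} {c : ℕ}

theorem labels (hered : Hered C) (hsmall : ∀ n : ℕ, (C n).ncard ≤ n.factorial * c ^ n)
    (hc : 1 ≤ c) {n : ℕ} {G : SimpleGraph (Fin n)} (hG : G ∈ C n) :
    ∀ (j : ℕ) (Y : Finset (Fin n)), Y.card ≤ 2 ^ j →
      ∃ ℓ : Fin n → Lab (fun i => 512 * (8 * c + 16) * c * (i + 1)) j,
        ∀ a ∈ Y, ∀ b ∈ Y, (G.Adj a b ↔ dec _ j (ℓ a) (ℓ b)) := by
  classical
  intro j
  induction j with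
  | zero =>
    intro Y hY
    refine ⟨fun _ => (), fun a ha b hb => ?_⟩
    have : a = b := Finset.card_le_one.1 (by simpa using hY) a ha b hb
    subst this
    simp [dec]
  | succ j ih =>
    intro Y hY
    -- choice of the parents
    have hpar : ∃ P, P ⊆ Y ∧ P.card ≤ 2 ^ j ∧ ∀ a ∈ Y, ∃ b ∈ P,
        (dis G Y a b).card ≤ 512 * (8 * c + 16) * c * ((j + 1) + 1) := by
      by_cases h2 : 2 ≤ Y.card
      · obtain ⟨P, hPY, hPc, hP⟩ := halving hered hsmall hc hG Y h2
        refine ⟨P, hPY, ?_, fun a ha => ?_⟩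
        · rw [pow_succ] at hY; omega
        · obtain ⟨b, hb, hbd⟩ := hP a ha
          refine ⟨b, hb, hbd.trans ?_⟩
          have : Nat.log 2 Y.card ≤ j + 1 := by
            calc Nat.log 2 Y.card ≤ Nat.log 2 (2 ^ (j + 1)) := Nat.log_mono_right hY
              _ = j + 1 := Nat.log_pow (by norm_num) _
          gcongr
      · refine ⟨Y, Finset.Subset.refl _, ?_, fun a ha => ⟨a, ha, ?_⟩⟩
        · have := Nat.one_le_two_pow (n := j); omega
        · have : dis G Y a a = ∅ := by simp [dis]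
          rw [this]; simp
    obtain ⟨P, hPY, hPc, hP⟩ := hpar
    obtain ⟨ℓ, hℓ⟩ := ih P hPc
    have hpar' : ∀ a, ∃ b, a ∈ Y → b ∈ P ∧
        (dis G Y a b).card ≤ 512 * (8 * c + 16) * c * ((j + 1) + 1) := by
      intro a
      by_cases ha : a ∈ Y
      · obtain ⟨b, hb, hbd⟩ := hP a ha
        exact ⟨b, fun _ => ⟨hb, hbd⟩⟩
      · exact ⟨a, fun h => absurd h ha⟩
    choose π hπ using hpar'
    -- numbering of `Y`
    obtain ⟨num, hnum⟩ : ∃ num : Fin n → Fin (2 ^ (j + 1)), ∀ a ∈ Y, ∀ b ∈ Y,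
        num a = num b → a = b := by
      have h1 : Fintype.card Y ≤ Fintype.card (Fin (2 ^ (j + 1))) := by simpa using hY
      obtain ⟨e⟩ := Function.Embedding.nonempty_of_card_le h1
      refine ⟨fun a => if h : a ∈ Y then e ⟨a, h⟩ else ⟨0, by positivity⟩, ?_⟩
      intro a ha b hb hab
      simp only [ha, hb, dif_pos] at hab
      have := e.injective hab
      exact congrArg Subtype.val this
    -- exceptions
    have hE : ∀ a, ∃ E : Fin (512 * (8 * c + 16) * c * ((j + 1) + 1)) →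
        Option (Fin (2 ^ (j + 1))), a ∈ Y →
          ∀ x, x ∈ (dis G Y a (π a)).image num ↔ ∃ i, E i = some x := by
      intro a
      by_cases ha : a ∈ Y
      · obtain ⟨E, hE⟩ := exists_list_fun ((dis G Y a (π a)).image num)
          (512 * (8 * c + 16) * c * ((j + 1) + 1))
          (Finset.card_image_le.trans (hπ a ha).2)
        exact ⟨E, fun _ => hE⟩
      · exact ⟨fun _ => none, fun h => absurd h ha⟩
    choose E hE using hE
    have hmem : ∀ a ∈ Y, ∀ b ∈ Y, ((∃ i, E a i = some (num b)) ↔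
        ¬ (G.Adj a b ↔ G.Adj (π a) b)) := by
      intro a ha b hb
      rw [← hE a ha (num b), Finset.mem_image]
      constructor
      · rintro ⟨z, hz, hzb⟩
        have hzY : z ∈ Y := (Finset.mem_filter.1 hz).1
        have := hnum z hzY b hb hzb
        subst this
        exact (Finset.mem_filter.1 hz).2
      · intro h
        exact ⟨b, Finset.mem_filter.2 ⟨hb, h⟩, rfl⟩
    refine ⟨fun a => ((num a, E a), (num (π a), ℓ (π a))), fun a ha b hb => ?_⟩
    have hπa : π a ∈ Y := hPY (hπ a ha).1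
    have hπb : π b ∈ Y := hPY (hπ b hb).1
    have h1 := hmem a ha b hb
    have h2 := hmem b hb (π a) hπa
    have h3 := hℓ (π a) (hπ a ha).1 (π b) (hπ b hb).1
    have h4 : G.Adj b (π a) ↔ G.Adj (π a) b := G.adj_comm _ _
    have h5 : G.Adj (π b) (π a) ↔ G.Adj (π a) (π b) := G.adj_comm _ _
    show G.Adj a b ↔ ¬ ((∃ i, E a i = some (num b)) ↔
      ¬ ((∃ i, E b i = some (num (π a))) ↔ dec _ j (ℓ (π a)) (ℓ (π b))))
    rw [h1, h2, ← h3, h4, h5]
    tauto

end

end Pool.Agent.Hhelper71.Small
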