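import Mathlib
import Pool.Agent.Hhelper71.Small.Labels

/-!
Labels of length `K * (log n + 1) ^ 3` for every small hereditary class, with one decoder.
-/

set_option autoImplicit false

namespace Pool.Agent.Hhelper71.Small

open Finset

theorem polylog_labels (C : (n : ℕ) → Set (SimpleGraph (Fin n)))
    (hered : ∀ (n m : ℕ) (e : Fin m ↪ Fin n) (G : SimpleGraph (Fin n)),
      G ∈ C n → G.comap ⇑e ∈ C m)
    (small : ∃ c : ℕ, ∀ n : ℕ, (C n).ncard ≤ n.factorial * c ^ n) :
    ∃ (K : ℕ) (D : List Bool → List Bool → Prop), ∀ (n : ℕ), ∀ G ∈ C n,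
      ∃ ℓ : Fin n → List Bool, Function.Injective ℓ ∧
        (∀ v, (ℓ v).length = K * (Nat.log 2 n + 1) ^ 3) ∧
        ∀ u v, G.Adj u v ↔ D (ℓ u) (ℓ v) := by
  classical
  obtain ⟨c0, hc0⟩ := small
  obtain ⟨c, hc, hsmall⟩ : ∃ c, 1 ≤ c ∧ ∀ n : ℕ, (C n).ncard ≤ n.factorial * c ^ n :=
    ⟨c0 + 1, by omega, fun n => (hc0 n).trans
      (Nat.mul_le_mul_left _ (Nat.pow_le_pow_left (Nat.le_succ _) _))⟩
  set K0 := 512 * (8 * c + 16) * c with hK0
  set K := 8 * (K0 + 3) with hK
  let Λ : ℕ → Type := fun L => Lab (fun i => K0 * (i + 1)) (L + 1) × Fin (2 ^ (L + 1))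
  have hΛcard : ∀ L, Fintype.card (Λ L) ≤ 2 ^ (K * (L + 1) ^ 3) := by
    intro L
    have h1 : Fintype.card (Λ L) =
        Fintype.card (Lab (fun i => K0 * (i + 1)) (L + 1)) * 2 ^ (L + 1) := by
      simp [Λ, Fintype.card_prod]
    rw [h1]
    calc _ ≤ 2 ^ ((K0 + 2) * (L + 1 + 1) ^ 3) * 2 ^ (L + 1) :=
          Nat.mul_le_mul_right _ (card_lab_le K0 (L + 1))
      _ = 2 ^ ((K0 + 2) * (L + 1 + 1) ^ 3 + (L + 1)) := by rw [← pow_add]
      _ ≤ 2 ^ (K * (L + 1) ^ 3) := by
          apply Nat.pow_le_pow_right (by norm_num)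
          have h2 : (L + 1 + 1) ^ 3 ≤ 8 * (L + 1) ^ 3 := by
            calc (L + 1 + 1) ^ 3 ≤ (2 * (L + 1)) ^ 3 := Nat.pow_le_pow_left (by omega) 3
              _ = 8 * (L + 1) ^ 3 := by ring
          have h3 : L + 1 ≤ (L + 1) ^ 3 := Nat.le_self_pow (by norm_num) _
          calc (K0 + 2) * (L + 1 + 1) ^ 3 + (L + 1)
              ≤ (K0 + 2) * (8 * (L + 1) ^ 3) + (L + 1) ^ 3 := by gcongr
            _ ≤ K * (L + 1) ^ 3 := by
                rw [hK]
                nlinarith [Nat.zero_le ((L + 1) ^ 3)]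
  have hemb : ∀ L, ∃ e : Λ L → (Fin (K * (L + 1) ^ 3) → Bool), Function.Injective e := by
    intro L
    have : Fintype.card (Λ L) ≤ Fintype.card (Fin (K * (L + 1) ^ 3) → Bool) := by
      simpa using hΛcard L
    obtain ⟨e⟩ := Function.Embedding.nonempty_of_card_le this
    exact ⟨e, e.injective⟩
  choose e he using hemb
  have hK1 : 0 < K := by omega
  have hLinj : ∀ L L', K * (L + 1) ^ 3 = K * (L' + 1) ^ 3 → L = L' := by
    intro L L' h
    have h1 := Nat.eq_of_mul_eq_mul_left hK1 h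
    have h2 := Nat.pow_left_injective (show 3 ≠ 0 by norm_num) h1
    omega
  refine ⟨K, fun a b => ∃ (L : ℕ) (x y : Λ L), a = List.ofFn (e L x) ∧ b = List.ofFn (e L y) ∧
    dec _ (L + 1) x.1 y.1, fun n G hG => ?_⟩
  set L := Nat.log 2 n with hL
  have hn : (Finset.univ : Finset (Fin n)).card ≤ 2 ^ (L + 1) := by
    rw [Finset.card_univ, Fintype.card_fin]
    exact (Nat.lt_pow_succ_log_self (by norm_num) n).le
  obtain ⟨ℓ, hℓ⟩ := labels hered hsmall hc hG (L + 1) Finset.univ hn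
  obtain ⟨num⟩ : Nonempty (Fin n ↪ Fin (2 ^ (L + 1))) := by
    apply Function.Embedding.nonempty_of_card_le
    simpa using hn
  let x : Fin n → Λ L := fun v => (ℓ v, num v)
  have hxinj : Function.Injective x := by
    intro a b hab
    exact num.injective (congrArg Prod.snd hab)
  refine ⟨fun v => List.ofFn (e L (x v)), ?_, ?_, ?_⟩
  · intro a b hab
    exact hxinj (he L (List.ofFn_injective hab))
  · intro v
    rw [List.length_ofFn]
  · intro u v
    constructor
    · intro h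
      exact ⟨L, x u, x v, rfl, rfl, (hℓ u (Finset.mem_univ _) v (Finset.mem_univ _)).1 h⟩
    · rintro ⟨L', x', y', hx', hy', hd⟩
      have hlen : K * (L + 1) ^ 3 = K * (L' + 1) ^ 3 := by
        have := congrArg List.length hx'
        simpa using this
      have := hLinj L L' hlen
      subst this
      have h1 : x u = x' := he L (List.ofFn_injective hx')
      have h2 : x v = y' := he L (List.ofFn_injective hy')
      rw [← h1, ← h2] at hd
      exact (hℓ u (Finset.mem_univ _) v (Finset.mem_univ _)).2 hd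

end Pool.Agent.Hhelper71.Small
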