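import Mathlib

/-!
A system `(Z, X, rel)` of `|X| = R * |Z|` points with pairwise distinct traces on `Z`, minimal in the
sense that every nonempty proper subset `U` of `Z` carries fewer than `R * |U|` traces.
The potential `pot s` grows by at least `s` from a stuck set to any larger set.
-/

set_option autoImplicit false

namespace Pool.Agent.Hhelper71.Small

open Finset Classical

variable {ζ ξ : Type*}

/-- A minimal dense system. -/
structure MinSys (Z : Finset ζ) (X : Finset ξ) (rel : ξ → ζ → Prop) (R : ℕ) : Prop where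
  dist : ∀ x ∈ X, ∀ x' ∈ X, (∀ z ∈ Z, (rel x z ↔ rel x' z)) → x = x'
  card : X.card = R * Z.card
  min : ∀ U, U ⊂ Z → U.Nonempty → (X.image (fun x => U.filter (rel x))).card + 1 ≤ R * U.card

section

variable (Z : Finset ζ) (X : Finset ξ) (rel : ξ → ζ → Prop)

/-- The class of `x` with respect to `Y`. -/
noncomputable def cl (Y : Finset ζ) (x : ξ) : Finset ξ :=
  X.filter (fun x' => ∀ z ∈ Y, (rel x' z ↔ rel x z))

/-- Points in small classes. -/
noncomputable def sm (s : ℕ) (Y : Finset ζ) : Finset ξ :=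
  X.filter (fun x => (cl X rel Y x).card ≤ s)

/-- Traces of the big classes. -/
noncomputable def bg (s : ℕ) (Y : Finset ζ) : Finset (Finset ζ) :=
  (X.filter (fun x => s < (cl X rel Y x).card)).image (fun x => Y.filter (rel x))

/-- The block of `z` seen by the points in small classes. -/
noncomputable def blk (s : ℕ) (Y : Finset ζ) (z : ζ) : Finset ζ :=
  (Z \ Y).filter (fun z' => ∀ x ∈ sm X rel s Y, (rel x z' ↔ rel x z))

/-- `Y` is stuck at threshold `s`. -/
def Stuck (s : ℕ) (Y : Finset ζ) : Prop := ∀ z ∈ Z \ Y, s < (blk Z X rel s Y z).card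

/-- The potential. -/
noncomputable def pot (R s : ℕ) (Y : Finset ζ) : ℤ :=
  ((sm X rel s Y).card : ℤ) * (s + R + 1) + (R + 1) * Y.card
    + s * (R + 1) * (bg X rel s Y).card - s * R * Y.card

end

variable {Z : Finset ζ} {X : Finset ξ} {rel : ξ → ζ → Prop} {R : ℕ}

theorem filter_eq_iff (U : Finset ζ) (x x' : ξ) :
    U.filter (rel x) = U.filter (rel x') ↔ ∀ z ∈ U, (rel x z ↔ rel x' z) := by
  constructor
  · intro h z hz
    have := Finset.ext_iff.1 h z
    simp only [Finset.mem_filter] at this
    tauto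
  · intro h
    ext z
    simp only [Finset.mem_filter]
    constructor
    · rintro ⟨h1, h2⟩; exact ⟨h1, (h z h1).1 h2⟩
    · rintro ⟨h1, h2⟩; exact ⟨h1, (h z h1).2 h2⟩

theorem cl_mono {Y Y' : Finset ζ} (h : Y ⊆ Y') (x : ξ) : cl X rel Y' x ⊆ cl X rel Y x := by
  intro x' hx'
  simp only [cl, Finset.mem_filter] at hx' ⊢
  exact ⟨hx'.1, fun z hz => hx'.2 z (h hz)⟩

theorem cl_congr {Y : Finset ζ} {x x' : ξ} (h : ∀ z ∈ Y, (rel x z ↔ rel x' z)) :
    cl X rel Y x = cl X rel Y x' := by
  ext y
  simp only [cl, Finset.mem_filter]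
  constructor
  · rintro ⟨h1, h2⟩
    exact ⟨h1, fun z hz => (h2 z hz).trans (h z hz)⟩
  · rintro ⟨h1, h2⟩
    exact ⟨h1, fun z hz => (h2 z hz).trans (h z hz).symm⟩

theorem sm_mono {s : ℕ} {Y Y' : Finset ζ} (h : Y ⊆ Y') : sm X rel s Y ⊆ sm X rel s Y' := by
  intro x hx
  simp only [sm, Finset.mem_filter] at hx ⊢
  exact ⟨hx.1, (Finset.card_le_card (cl_mono h x)).trans hx.2⟩

/-- Separating `Q` with few elements. -/
theorem exists_sep (Q : Finset ξ) (D : Finset ζ) : ∀ (m : ℕ) (S : Finset ζ),
    Q.card - (Q.image (fun x => S.filter (rel x))).card ≤ m →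
    (∀ q ∈ Q, ∀ q' ∈ Q, (∀ z ∈ S ∪ D, (rel q z ↔ rel q' z)) → q = q') →
    ∃ W, W ⊆ D ∧ (∀ q ∈ Q, ∀ q' ∈ Q, (∀ z ∈ S ∪ W, (rel q z ↔ rel q' z)) → q = q') ∧
      W.card + (Q.image (fun x => S.filter (rel x))).card ≤ Q.card := by
  intro m
  induction m with
  | zero =>
    intro S hm _
    have h1 : (Q.image (fun x => S.filter (rel x))).card ≤ Q.card := Finset.card_image_le
    have h2 : (Q.image (fun x => S.filter (rel x))).card = Q.card := by omega
    have h3 := Finset.card_image_iff.1 h2
    refine ⟨∅, Finset.empty_subset _, ?_, by simp [h1]⟩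
    intro q hq q' hq' h
    apply h3 (Finset.mem_coe.2 hq) (Finset.mem_coe.2 hq')
    rw [filter_eq_iff]
    intro z hz
    exact h z (by simp [hz])
  | succ m ih =>
    intro S hm hsep
    by_cases hall : ∀ q ∈ Q, ∀ q' ∈ Q, (∀ z ∈ S, (rel q z ↔ rel q' z)) → q = q'
    · refine ⟨∅, Finset.empty_subset _, ?_, ?_⟩
      · intro q hq q' hq' h
        exact hall q hq q' hq' (fun z hz => h z (by simp [hz]))
      · simpa using Finset.card_image_le
    · push Not at hall
      obtain ⟨q, hq, q', hq', hag, hne⟩ := hall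
      obtain ⟨δ, hδD, hδ⟩ : ∃ δ ∈ D, ¬ (rel q δ ↔ rel q' δ) := by
        by_contra hcon
        push Not at hcon
        apply hne
        apply hsep q hq q' hq'
        intro z hz
        rcases Finset.mem_union.1 hz with h | h
        · exact hag z h
        · exact hcon z h
      -- more traces on `insert δ S`
      have hlt : (Q.image (fun x => S.filter (rel x))).card <
          (Q.image (fun x => (insert δ S).filter (rel x))).card := by
        have himg : Q.image (fun x => S.filter (rel x)) =
            (Q.image (fun x => (insert δ S).filter (rel x))).image (fun τ => τ ∩ S) := by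
          rw [Finset.image_image]
          apply Finset.image_congr
          intro x _
          simp only [Function.comp]
          ext z
          simp only [Finset.mem_filter, Finset.mem_inter, Finset.mem_insert]
          tauto
        rw [himg]
        refine lt_of_le_of_ne Finset.card_image_le ?_
        intro heq
        have hinj := Finset.card_image_iff.1 heq
        have h1 : (insert δ S).filter (rel q) = (insert δ S).filter (rel q') := by
          apply hinj
          · exact Finset.mem_coe.2 (Finset.mem_image_of_mem _ hq)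
          · exact Finset.mem_coe.2 (Finset.mem_image_of_mem _ hq')
          · ext z
            simp only [Finset.mem_filter, Finset.mem_inter, Finset.mem_insert]
            constructor
            · rintro ⟨⟨_, h2⟩, h3⟩; exact ⟨⟨Or.inr h3, (hag z h3).1 h2⟩, h3⟩
            · rintro ⟨⟨_, h2⟩, h3⟩; exact ⟨⟨Or.inr h3, (hag z h3).2 h2⟩, h3⟩
        rw [filter_eq_iff] at h1
        exact hδ (h1 δ (Finset.mem_insert_self _ _))
      obtain ⟨W, hWD, hW1, hW2⟩ := ih (insert δ S) (by omega) (by
        intro p hp p' hp' h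
        apply hsep p hp p' hp'
        intro z hz
        apply h z
        rcases Finset.mem_union.1 hz with h' | h'
        · exact Finset.mem_union_left _ (Finset.mem_insert_of_mem h')
        · exact Finset.mem_union_right _ h')
      refine ⟨insert δ W, Finset.insert_subset hδD hWD, ?_, ?_⟩
      · intro p hp p' hp' h
        apply hW1 p hp p' hp'
        intro z hz
        apply h z
        rcases Finset.mem_union.1 hz with h' | h'
        · rcases Finset.mem_insert.1 h' with h'' | h''
          · exact Finset.mem_union_right _ (h'' ▸ Finset.mem_insert_self _ _)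
          · exact Finset.mem_union_left _ h''
        · exact Finset.mem_union_right _ (Finset.mem_insert_of_mem h')
      · have := Finset.card_insert_le δ W
        omega

/-- The hitting set for the blocks contained in `D = Y \ Y₀`. -/
theorem exists_hit {s : ℕ} {Y₀ Y : Finset ζ} (hYZ : Y ⊆ Z)
    (hst : Stuck Z X rel s Y₀) :
    ∃ W, W ⊆ Y \ Y₀ ∧ s * W.card ≤ (Y \ Y₀).card ∧
      (∀ x ∈ sm X rel s Y₀, ∀ x' ∈ sm X rel s Y₀,
        (∀ z ∈ (Z \ (Y \ Y₀)) ∪ W, (rel x z ↔ rel x' z)) → ∀ z ∈ Y \ Y₀, (rel x z ↔ rel x' z)) ∧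
      (Y = Z → (Y \ Y₀).Nonempty → W.Nonempty) := by
  set D := Y \ Y₀ with hD
  have hDsub : D ⊆ Z \ Y₀ := by
    intro z hz
    rw [hD, Finset.mem_sdiff] at hz
    exact Finset.mem_sdiff.2 ⟨hYZ hz.1, hz.2⟩
  rcases Finset.eq_empty_or_nonempty D with hDe | hDne
  · refine ⟨∅, Finset.empty_subset _, by simp, ?_, ?_⟩
    · intro x _ x' _ _ z hz
      rw [hDe] at hz
      simp at hz
    · intro _ h
      rw [hDe] at h
      simp at h
  obtain ⟨z₀, _⟩ := hDne
  set B : ζ → Finset ζ := fun z => blk Z X rel s Y₀ z with hB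
  have hBmem : ∀ z z', z' ∈ B z ↔ z' ∈ Z \ Y₀ ∧ ∀ x ∈ sm X rel s Y₀, (rel x z' ↔ rel x z) := by
    intro z z'
    simp only [hB, blk, Finset.mem_filter]
  have hBself : ∀ z ∈ Z \ Y₀, z ∈ B z := by
    intro z hz
    rw [hBmem]
    exact ⟨hz, fun x _ => by simp⟩
  have hBeq : ∀ z z', z' ∈ B z → B z' = B z := by
    intro z z' h
    rw [hBmem] at h
    ext y
    rw [hBmem, hBmem]
    constructor
    · rintro ⟨h1, h2⟩
      exact ⟨h1, fun x hx => (h2 x hx).trans (h.2 x hx)⟩
    · rintro ⟨h1, h2⟩
      exact ⟨h1, fun x hx => (h2 x hx).trans (h.2 x hx).symm⟩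
  have hrep' : ∀ T : Finset ζ, ∃ t, T.Nonempty → t ∈ T := by
    intro T
    by_cases h : T.Nonempty
    · exact ⟨h.choose, fun _ => h.choose_spec⟩
    · exact ⟨z₀, fun h' => absurd h' h⟩
  choose rep hrep using hrep'
  have hrepB : ∀ z ∈ Z \ Y₀, rep (B z) ∈ B z := fun z hz => hrep _ ⟨z, hBself z hz⟩
  have hrepB' : ∀ z ∈ Z \ Y₀, B (rep (B z)) = B z := fun z hz => hBeq _ _ (hrepB z hz)
  refine ⟨D.filter (fun z => B z ⊆ D ∧ rep (B z) = z), Finset.filter_subset _ _, ?_, ?_, ?_⟩
  · set W := D.filter (fun z => B z ⊆ D ∧ rep (B z) = z) with hW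
    have hWm : ∀ z, z ∈ W ↔ z ∈ D ∧ B z ⊆ D ∧ rep (B z) = z := by
      intro z; simp only [hW, Finset.mem_filter]
    have hdisj : Set.PairwiseDisjoint (W : Set ζ) B := by
      intro z hz z' hz' hne
      rw [Function.onFun, Finset.disjoint_left]
      intro y hy hy'
      apply hne
      have h1 := hBeq _ _ hy
      have h2 := hBeq _ _ hy'
      have h3 := ((hWm z).1 (Finset.mem_coe.1 hz)).2.2
      have h4 := ((hWm z').1 (Finset.mem_coe.1 hz')).2.2
      rw [← h3, ← h4, ← h1, ← h2]
    calc s * W.card = ∑ z ∈ W, s := by rw [Finset.sum_const, smul_eq_mul, mul_comm]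
      _ ≤ ∑ z ∈ W, (B z).card := by
          refine Finset.sum_le_sum fun z hz => ?_
          exact (hst z (hDsub ((hWm z).1 hz).1)).le
      _ = (W.biUnion B).card := (Finset.card_biUnion hdisj).symm
      _ ≤ D.card := by
          apply Finset.card_le_card
          intro y hy
          obtain ⟨z, hz, hyz⟩ := Finset.mem_biUnion.1 hy
          exact ((hWm z).1 hz).2.1 hyz
  · intro x hx x' hx' hag z hz
    have hzZ := hDsub hz
    by_cases hBD : B z ⊆ D
    · have hw := hrepB z hzZ
      have hwW : rep (B z) ∈ D.filter (fun z => B z ⊆ D ∧ rep (B z) = z) := by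
        rw [Finset.mem_filter]
        refine ⟨hBD hw, ?_, ?_⟩
        · rw [hrepB' z hzZ]; exact hBD
        · rw [hrepB' z hzZ]
      have h1 := hag (rep (B z)) (Finset.mem_union_right _ hwW)
      have h2 := ((hBmem z (rep (B z))).1 hw).2
      rw [← h2 x hx, ← h2 x' hx']
      exact h1
    · rw [Finset.not_subset] at hBD
      obtain ⟨y, hy, hyD⟩ := hBD
      have h2 := (hBmem z y).1 hy
      have h1 := hag y (Finset.mem_union_left _ (Finset.mem_sdiff.2
        ⟨(Finset.mem_sdiff.1 h2.1).1, hyD⟩))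
      rw [← h2.2 x hx, ← h2.2 x' hx']
      exact h1
  · intro hYZ' hne
    obtain ⟨z, hz⟩ := hne
    have hzZ := hDsub hz
    refine ⟨rep (B z), ?_⟩
    have hBD : ∀ y, B y ⊆ D := by
      intro y t ht
      have := ((hBmem y t).1 ht).1
      rw [hD, hYZ']
      exact this
    rw [Finset.mem_filter]
    exact ⟨hBD z (hrepB z hzZ), hBD _, by rw [hrepB' z hzZ]⟩

theorem arith {R s δ p q d x v b : ℤ} (hs : 1 ≤ s) (hR : 0 ≤ R) (hδ : 1 ≤ δ) (hp : 0 ≤ p)
    (hq : 0 ≤ q) (hv : 0 ≤ v) (hx : 0 ≤ x) (e1 : s * p ≤ δ) (e2 : q ≤ b + v) (e3 : s * v ≤ x)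
    (e4 : δ ≤ d + p + q) (e5 : d = 0 ∨ R * d + 1 ≤ x) :
    s ≤ (s + R + 1) * x + (R + 1) * δ + s * (R + 1) * b - s * R * δ := by
  have hs0 : 0 ≤ s := by linarith
  have f1 : s * R * δ ≤ s * R * d + s * R * p + s * R * q := by
    have := mul_le_mul_of_nonneg_left e4 (mul_nonneg hs0 hR)
    linarith
  have f2 : s * R * p ≤ R * δ := by
    have := mul_le_mul_of_nonneg_left e1 hR
    linarith
  have f3 : s * R * q ≤ s * R * b + s * R * v := by
    have := mul_le_mul_of_nonneg_left e2 (mul_nonneg hs0 hR)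
    linarith
  have f4 : s * R * v ≤ R * x := by
    have := mul_le_mul_of_nonneg_left e3 hR
    linarith
  have f5 : s * q ≤ s * b + s * v := by
    have := mul_le_mul_of_nonneg_left e2 hs0
    linarith
  have f6 : 0 ≤ s * q := mul_nonneg hs0 hq
  rcases e5 with e5 | e5
  · subst e5
    have g1 : s * x + δ + s * q ≤
        (s + R + 1) * x + (R + 1) * δ + s * (R + 1) * b - s * R * δ := by
      linarith
    refine le_trans ?_ g1
    by_cases hx1 : 1 ≤ x
    · have := mul_le_mul_of_nonneg_left hx1 hs0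
      linarith
    · by_cases hq1 : 1 ≤ q
      · have := mul_le_mul_of_nonneg_left hq1 hs0
        have := mul_nonneg hs0 hx
        linarith
      · have hp1 : 1 ≤ p := by omega
        have := mul_le_mul_of_nonneg_left hp1 hs0
        have := mul_nonneg hs0 hx
        linarith
  · have f7 : s * R * d + s ≤ s * x := by
      have := mul_le_mul_of_nonneg_left e5 hs0
      linarith
    linarith

/-- The key inequality. -/
theorem star (h : MinSys Z X rel R) {s : ℕ} (hs : 1 ≤ s) {Y₀ Y : Finset ζ} (hY₀ : Y₀ ⊂ Y)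
    (hYZ : Y ⊆ Z) (hcase : Stuck Z X rel s Y₀ ∨ (sm X rel s Y₀ = ∅ ∧ Y ≠ Z)) :
    pot X rel R s Y₀ + s ≤ pot X rel R s Y := by
  set D := Y \ Y₀ with hD
  have hDne : D.Nonempty := by
    rw [hD, Finset.sdiff_nonempty]
    exact hY₀.2
  have hsub : Y₀ ⊆ Y := hY₀.1
  have hDZ : D ⊆ Z := Finset.sdiff_subset.trans hYZ
  -- hitting set
  obtain ⟨W1, hW1D, hW1c, hW1a, hW1n⟩ : ∃ W, W ⊆ D ∧ s * W.card ≤ D.card ∧
      (∀ x ∈ sm X rel s Y₀, ∀ x' ∈ sm X rel s Y₀,
        (∀ z ∈ (Z \ D) ∪ W, (rel x z ↔ rel x' z)) → ∀ z ∈ D, (rel x z ↔ rel x' z)) ∧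
      ((Z \ D).Nonempty ∨ W.Nonempty) := by
    rcases hcase with hst | ⟨hsm, hne⟩
    · obtain ⟨W, h1, h2, h3, h4⟩ := exists_hit (Y := Y) hYZ hst
      refine ⟨W, h1, h2, h3, ?_⟩
      by_cases hYZ' : Y = Z
      · exact Or.inr (h4 hYZ' hDne)
      · left
        rw [Finset.sdiff_nonempty]
        intro hcon
        exact hYZ' (Finset.Subset.antisymm hYZ (hcon.trans Finset.sdiff_subset))
    · refine ⟨∅, Finset.empty_subset _, by simp, ?_, ?_⟩
      · intro x hx
        rw [hsm] at hx
        simp at hx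
      · left
        rw [Finset.sdiff_nonempty]
        intro hcon
        exact hne (Finset.Subset.antisymm hYZ (hcon.trans Finset.sdiff_subset))
  -- representatives of the big classes
  set Xb := X.filter (fun x => s < (cl X rel Y x).card) with hXb
  obtain ⟨Q, hQX, hQinj, hQimg⟩ := Finset.exists_subset_injOn_image_eq_of_surjOn
    (f := fun x => Y.filter (rel x)) (Xb) (bg X rel s Y) (by
      intro τ hτ
      rw [bg, Finset.mem_coe] at hτ
      obtain ⟨x, hx, hxτ⟩ := Finset.mem_image.1 hτ
      exact ⟨x, Finset.mem_coe.2 hx, hxτ⟩)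
  have hQc : Q.card = (bg X rel s Y).card := by
    rw [← hQimg, Finset.card_image_of_injOn hQinj]
  have hQsub : ∀ q ∈ Q, q ∈ X ∧ s < (cl X rel Y q).card := by
    intro q hq
    have := Finset.mem_coe.1 (hQX hq)
    rw [hXb, Finset.mem_filter] at this
    exact this
  obtain ⟨W2, hW2D, hW2a, hW2c⟩ := exists_sep (rel := rel) Q D (Q.card) Y₀ (Nat.sub_le _ _) (by
    intro q hq q' hq' hag
    apply hQinj (Finset.mem_coe.2 hq) (Finset.mem_coe.2 hq')
    show Y.filter (rel q) = Y.filter (rel q')
    rw [filter_eq_iff]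
    intro z hz
    apply hag
    by_cases hz0 : z ∈ Y₀
    · exact Finset.mem_union_left _ hz0
    · exact Finset.mem_union_right _ (Finset.mem_sdiff.2 ⟨hz, hz0⟩))
  -- vanishing classes
  set xd := sm X rel s Y \ sm X rel s Y₀ with hxd
  set V := bg X rel s Y₀ \ Q.image (fun x => Y₀.filter (rel x)) with hV
  have hVc : s * V.card ≤ xd.card := by
    have h1 : ((xd.filter (fun x => Y₀.filter (rel x) ∈ V)).card) =
        ∑ τ ∈ V, ((xd.filter (fun x => Y₀.filter (rel x) ∈ V)).filter
          (fun x => Y₀.filter (rel x) = τ)).card :=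
      Finset.card_eq_sum_card_fiberwise (by
        intro x hx
        have := Finset.mem_coe.1 hx
        rw [Finset.mem_filter] at this
        exact this.2)
    calc s * V.card = ∑ τ ∈ V, s := by rw [Finset.sum_const, smul_eq_mul, mul_comm]
      _ ≤ ∑ τ ∈ V, ((xd.filter (fun x => Y₀.filter (rel x) ∈ V)).filter
          (fun x => Y₀.filter (rel x) = τ)).card := by
          refine Finset.sum_le_sum fun τ hτ => ?_
          have hτ' := Finset.mem_sdiff.1 hτ
          rw [bg] at hτ'
          obtain ⟨x, hx, hxτ⟩ := Finset.mem_image.1 hτ'.1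
          rw [Finset.mem_filter] at hx
          refine hx.2.le.trans (Finset.card_le_card ?_)
          intro y hy
          have hy' := hy
          rw [cl, Finset.mem_filter] at hy'
          have hyτ : Y₀.filter (rel y) = τ := by
            rw [← hxτ, filter_eq_iff]; exact hy'.2
          have hyb : y ∉ sm X rel s Y₀ := by
            intro hcon
            rw [sm, Finset.mem_filter, cl_congr hy'.2] at hcon
            omega
          have hys : y ∈ sm X rel s Y := by
            by_contra hcon
            rw [sm, Finset.mem_filter] at hcon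
            push Not at hcon
            have hyb' := hcon hy'.1
            have : Y.filter (rel y) ∈ bg X rel s Y := by
              rw [bg]
              exact Finset.mem_image_of_mem _ (Finset.mem_filter.2 ⟨hy'.1, hyb'⟩)
            rw [← hQimg] at this
            obtain ⟨q, hq, hqy⟩ := Finset.mem_image.1 this
            apply hτ'.2
            rw [← hyτ]
            refine Finset.mem_image.2 ⟨q, hq, ?_⟩
            rw [filter_eq_iff] at hqy ⊢
            intro z hz
            exact hqy z (hsub hz)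
          rw [Finset.mem_filter, Finset.mem_filter]
          exact ⟨⟨Finset.mem_sdiff.2 ⟨hys, hyb⟩, by rw [hyτ]; exact hτ⟩, hyτ⟩
      _ ≤ xd.card := by
          rw [← h1]
          exact Finset.card_filter_le _ _
  have hVc2 : (bg X rel s Y₀).card ≤ (Q.image (fun x => Y₀.filter (rel x))).card + V.card := by
    have := Finset.card_le_card_sdiff_add_card (t := Q.image (fun x => Y₀.filter (rel x)))
      (s := bg X rel s Y₀)
    rw [hV]
    omega
  -- the reduced set
  set D' := D \ (W1 ∪ W2) with hD'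
  set U := Z \ D' with hU
  have hD'D : D' ⊆ D := Finset.sdiff_subset
  have hUsub : (Z \ D) ⊆ U := Finset.sdiff_subset_sdiff (Finset.Subset.refl _) hD'D
  have hW1U : W1 ⊆ U := by
    intro z hz
    rw [hU, hD', Finset.mem_sdiff, Finset.mem_sdiff, Finset.mem_union]
    exact ⟨hDZ (hW1D hz), fun hcon => hcon.2 (Or.inl hz)⟩
  have hW2U : W2 ⊆ U := by
    intro z hz
    rw [hU, hD', Finset.mem_sdiff, Finset.mem_sdiff, Finset.mem_union]
    exact ⟨hDZ (hW2D hz), fun hcon => hcon.2 (Or.inr hz)⟩
  have hY₀U : Y₀ ⊆ U := by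
    intro z hz
    apply hUsub
    rw [hD, Finset.mem_sdiff, Finset.mem_sdiff]
    exact ⟨hYZ (hsub hz), fun hcon => hcon.2 hz⟩
  have hDc : D.card ≤ D'.card + W1.card + W2.card := by
    have h1 := Finset.card_le_card_sdiff_add_card (t := W1 ∪ W2) (s := D)
    have h2 := Finset.card_union_le W1 W2
    rw [hD']
    omega
  -- injectivity
  have hinj : Set.InjOn (fun x => U.filter (rel x)) (X \ xd : Finset ξ) := by
    intro x hx x' hx' hxx
    have hx := Finset.mem_sdiff.1 (Finset.mem_coe.1 hx)
    have hx' := Finset.mem_sdiff.1 (Finset.mem_coe.1 hx')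
    have hag : ∀ z ∈ U, (rel x z ↔ rel x' z) := (filter_eq_iff U x x').1 hxx
    have hcl0 : cl X rel Y₀ x = cl X rel Y₀ x' := cl_congr fun z hz => hag z (hY₀U hz)
    by_cases hsm : x ∈ sm X rel s Y₀
    · have hsm' : x' ∈ sm X rel s Y₀ := by
        rw [sm, Finset.mem_filter] at hsm ⊢
        rw [← hcl0]
        exact ⟨hx'.1, hsm.2⟩
      apply h.dist x hx.1 x' hx'.1
      intro z hz
      by_cases hzD : z ∈ D
      · refine hW1a x hsm x' hsm' ?_ z hzD
        intro z' hz'
        rcases Finset.mem_union.1 hz' with h' | h'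
        · exact hag z' (hUsub h')
        · exact hag z' (hW1U h')
      · exact hag z (hUsub (Finset.mem_sdiff.2 ⟨hz, hzD⟩))
    · have hsm' : x' ∉ sm X rel s Y₀ := by
        intro hcon
        apply hsm
        rw [sm, Finset.mem_filter] at hcon ⊢
        rw [hcl0]
        exact ⟨hx.1, hcon.2⟩
      have hb : x ∉ sm X rel s Y := fun hcon => hx.2 (Finset.mem_sdiff.2 ⟨hcon, hsm⟩)
      have hb' : x' ∉ sm X rel s Y := fun hcon => hx'.2 (Finset.mem_sdiff.2 ⟨hcon, hsm'⟩)
      have hrep : ∀ y ∈ X, y ∉ sm X rel s Y → ∃ q ∈ Q, ∀ z ∈ Y, (rel q z ↔ rel y z) := by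
        intro y hyX hy
        rw [sm, Finset.mem_filter] at hy
        push Not at hy
        have hyb' := hy hyX
        have : Y.filter (rel y) ∈ bg X rel s Y := by
          rw [bg]
          exact Finset.mem_image_of_mem _ (Finset.mem_filter.2 ⟨hyX, hyb'⟩)
        rw [← hQimg] at this
        obtain ⟨q, hq, hqy⟩ := Finset.mem_image.1 this
        exact ⟨q, hq, (filter_eq_iff _ _ _).1 hqy⟩
      obtain ⟨q, hq, hqx⟩ := hrep x hx.1 hb
      obtain ⟨q', hq', hqx'⟩ := hrep x' hx'.1 hb'
      have hqq : q = q' := by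
        apply hW2a q hq q' hq'
        intro z hz
        have hzU : z ∈ U := by
          rcases Finset.mem_union.1 hz with h' | h'
          · exact hY₀U h'
          · exact hW2U h'
        have hzY : z ∈ Y := by
          rcases Finset.mem_union.1 hz with h' | h'
          · exact hsub h'
          · exact (Finset.mem_sdiff.1 (hW2D h')).1
        rw [hqx z hzY, hqx' z hzY]
        exact hag z hzU
      apply h.dist x hx.1 x' hx'.1
      intro z hz
      by_cases hzY : z ∈ Y
      · rw [← hqx z hzY, ← hqx' z hzY, hqq]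
      · apply hag z (hUsub (Finset.mem_sdiff.2 ⟨hz, ?_⟩))
        rw [hD, Finset.mem_sdiff]
        tauto
  have hxdX : xd ⊆ X := by
    intro x hx
    have := (Finset.mem_sdiff.1 hx).1
    rw [sm, Finset.mem_filter] at this
    exact this.1
  have hcount : D'.Nonempty → R * D'.card + 1 ≤ xd.card := by
    intro hne
    have hUZ : U ⊂ Z := by
      rw [hU]
      refine Finset.ssubset_iff_subset_ne.2 ⟨Finset.sdiff_subset, ?_⟩
      intro hcon
      obtain ⟨z, hz⟩ := hne
      have : z ∈ Z \ D' := by rw [hcon]; exact hDZ (hD'D hz)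
      exact (Finset.mem_sdiff.1 this).2 hz
    have hUne : U.Nonempty := by
      rcases hW1n with h' | h'
      · exact h'.mono hUsub
      · exact h'.mono hW1U
    have h1 := h.min U hUZ hUne
    have h2 : (X \ xd).card ≤ (X.image (fun x => U.filter (rel x))).card := by
      rw [← Finset.card_image_of_injOn hinj]
      exact Finset.card_le_card (Finset.image_subset_image Finset.sdiff_subset)
    have h3 : (X \ xd).card + xd.card = X.card := Finset.card_sdiff_add_card_eq_card hxdX
    have h4 : U.card + D'.card = Z.card :=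
      Finset.card_sdiff_add_card_eq_card (hD'D.trans hDZ)
    have h5 := h.card
    rw [← h4, mul_add] at h5
    omega
  -- cardinalities
  have hsmY : (sm X rel s Y).card = (sm X rel s Y₀).card + xd.card := by
    have := Finset.card_sdiff_add_card_eq_card (sm_mono (X := X) (rel := rel) (s := s) hsub)
    rw [← hxd] at this
    omega
  have hYc : Y.card = Y₀.card + D.card := by
    have := Finset.card_sdiff_add_card_eq_card hsub
    rw [← hD] at this
    omega
  have hD1 : 1 ≤ D.card := Finset.card_pos.2 hDne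
  unfold pot
  rw [hsmY, hYc]
  push_cast
  -- abbreviations
  have e1 : (s : ℤ) * W1.card ≤ D.card := by exact_mod_cast hW1c
  have e2 : (W2.card : ℤ) ≤ (bg X rel s Y).card - (bg X rel s Y₀).card + V.card := by
    have : W2.card + (bg X rel s Y₀).card ≤ (bg X rel s Y).card + V.card := by
      omega
    have : (W2.card : ℤ) + (bg X rel s Y₀).card ≤ (bg X rel s Y).card + V.card := by
      exact_mod_cast this
    linarith
  have e3 : (s : ℤ) * V.card ≤ xd.card := by exact_mod_cast hVc
  have e4 : (D.card : ℤ) ≤ D'.card + W1.card + W2.card := by exact_mod_cast hDc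
  have e5 : (1 : ℤ) ≤ D.card := by exact_mod_cast hD1
  have e6 : (1 : ℤ) ≤ s := by exact_mod_cast hs
  have e7 : (0 : ℤ) ≤ W1.card := by positivity
  have e8 : (0 : ℤ) ≤ W2.card := by positivity
  have e9 : (0 : ℤ) ≤ V.card := by positivity
  have e10 : (0 : ℤ) ≤ xd.card := by positivity
  have e11 : (0 : ℤ) ≤ R := by positivity
  have e12 : (D'.card : ℤ) = 0 ∨ (R : ℤ) * D'.card + 1 ≤ xd.card := by
    rcases Finset.eq_empty_or_nonempty D' with h' | h'
    · left; rw [h']; simp
    · right; exact_mod_cast hcount h'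
  have key := arith (R := R) (s := s) (δ := D.card) (p := W1.card) (q := W2.card)
    (d := D'.card) (x := xd.card) (v := V.card)
    (b := (bg X rel s Y).card - (bg X rel s Y₀).card) e6 e11 e5 e7 e8 e9 e10 e1 e2 e3 e4 e12
  linarith

end Pool.Agent.Hhelper71.Small
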