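import Mathlib
import Pool.Agent.Hhelper71.Small.Star

/-!
Greedy exploration of a minimal dense system: the sequence of the costs has small product.
-/

set_option autoImplicit false

namespace Pool.Agent.Hhelper71.Small

open Finset Classical

variable {ζ ξ : Type*}

section

variable (Z : Finset ζ) (X : Finset ξ) (rel : ξ → ζ → Prop)

/-- The block of `z` in `Z \ Y` with respect to `A`. -/
noncomputable def ab (A : Finset ξ) (Y : Finset ζ) (z : ζ) : Finset ζ :=
  (Z \ Y).filter (fun z' => ∀ x ∈ A, (rel x z' ↔ rel x z))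

/-- The number of blocks. -/
noncomputable def nb (A : Finset ξ) (Y : Finset ζ) : ℕ :=
  ((Z \ Y).image (fun z => A.filter (fun x => rel x z))).card

/-- `c` is at most the cost of every useful step. -/
def MinCost (Y : Finset ζ) (A : Finset ξ) (c : ℕ) : Prop :=
  (∀ x ∈ X, nb Z rel A Y < nb Z rel (insert x A) Y → c ≤ (cl X rel Y x).card) ∧
    ∀ z ∈ Z \ Y, c ≤ (ab Z rel A Y z).card

/-- Greedy exploration from `(Y, A)` until `Y = Z`, with the list of the costs. -/
inductive Path : Finset ζ → Finset ξ → Finset ξ → List ℕ → Prop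
  | done (A : Finset ξ) : A ⊆ X → Path Z A A []
  | xstep (Y : Finset ζ) (A Af : Finset ξ) (x : ξ) (cs : List ℕ) : Y ⊂ Z → A ⊆ X → x ∈ X →
      nb Z rel A Y < nb Z rel (insert x A) Y → MinCost Z X rel Y A (cl X rel Y x).card →
      Path Y (insert x A) Af cs → Path Y A Af ((cl X rel Y x).card :: cs)
  | zstep (Y : Finset ζ) (A Af : Finset ξ) (z : ζ) (cs : List ℕ) : Y ⊂ Z → A ⊆ X → z ∈ Z \ Y →
      MinCost Z X rel Y A (ab Z rel A Y z).card →
      Path (insert z Y) A Af cs → Path Y A Af ((ab Z rel A Y z).card :: cs)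

end

variable {Z : Finset ζ} {X : Finset ξ} {rel : ξ → ζ → Prop} {R : ℕ}

theorem afilter_eq_iff (A : Finset ξ) (z z' : ζ) :
    A.filter (fun x => rel x z) = A.filter (fun x => rel x z') ↔
      ∀ x ∈ A, (rel x z ↔ rel x z') := by
  constructor
  · intro h x hx
    have := Finset.ext_iff.1 h x
    simp only [Finset.mem_filter] at this
    tauto
  · intro h
    ext x
    simp only [Finset.mem_filter]
    constructor
    · rintro ⟨h1, h2⟩; exact ⟨h1, (h x h1).1 h2⟩
    · rintro ⟨h1, h2⟩; exact ⟨h1, (h x h1).2 h2⟩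

theorem nb_mono {A A' : Finset ξ} (h : A ⊆ A') (Y : Finset ζ) : nb Z rel A Y ≤ nb Z rel A' Y := by
  unfold nb
  have : (Z \ Y).image (fun z => A.filter (fun x => rel x z)) =
      ((Z \ Y).image (fun z => A'.filter (fun x => rel x z))).image (fun τ => τ ∩ A) := by
    rw [Finset.image_image]
    apply Finset.image_congr
    intro z _
    ext x
    simp only [Function.comp, Finset.mem_filter, Finset.mem_inter]
    constructor
    · rintro ⟨h1, h2⟩; exact ⟨⟨h h1, h2⟩, h1⟩
    · rintro ⟨⟨_, h2⟩, h1⟩; exact ⟨h1, h2⟩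
  rw [this]
  exact Finset.card_image_le

theorem nb_split {A : Finset ξ} {Y : Finset ζ} {z z' : ζ} {x : ξ} (hz : z ∈ Z \ Y)
    (hz' : z' ∈ Z \ Y) (hag : ∀ a ∈ A, (rel a z ↔ rel a z')) (hx : ¬ (rel x z ↔ rel x z')) :
    nb Z rel A Y < nb Z rel (insert x A) Y := by
  unfold nb
  have himg : (Z \ Y).image (fun z => A.filter (fun x => rel x z)) =
      ((Z \ Y).image (fun z => (insert x A).filter (fun x => rel x z))).image
        (fun τ => τ ∩ A) := by
    rw [Finset.image_image]
    apply Finset.image_congr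
    intro z _
    ext y
    simp only [Function.comp, Finset.mem_filter, Finset.mem_inter, Finset.mem_insert]
    tauto
  rw [himg]
  refine lt_of_le_of_ne Finset.card_image_le ?_
  intro heq
  have hinj := Finset.card_image_iff.1 heq
  have h1 : (insert x A).filter (fun y => rel y z) = (insert x A).filter (fun y => rel y z') := by
    apply hinj
    · exact Finset.mem_coe.2 (Finset.mem_image_of_mem _ hz)
    · exact Finset.mem_coe.2 (Finset.mem_image_of_mem _ hz')
    · ext y
      simp only [Finset.mem_filter, Finset.mem_inter, Finset.mem_insert]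
      constructor
      · rintro ⟨⟨_, h2⟩, h3⟩; exact ⟨⟨Or.inr h3, (hag y h3).1 h2⟩, h3⟩
      · rintro ⟨⟨_, h2⟩, h3⟩; exact ⟨⟨Or.inr h3, (hag y h3).2 h2⟩, h3⟩
  rw [afilter_eq_iff] at h1
  exact hx (h1 x (Finset.mem_insert_self _ _))

theorem nb_insert {A : Finset ξ} {Y : Finset ζ} (z : ζ) :
    nb Z rel A Y ≤ nb Z rel A (insert z Y) + 1 := by
  unfold nb
  refine le_trans (Finset.card_le_card (t := insert (A.filter (fun x => rel x z))
    ((Z \ insert z Y).image (fun z => A.filter (fun x => rel x z)))) ?_) (Finset.card_insert_le _ _)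
  intro τ hτ
  obtain ⟨z', hz', rfl⟩ := Finset.mem_image.1 hτ
  rw [Finset.mem_insert]
  by_cases h : z' = z
  · left; rw [h]
  · right
    apply Finset.mem_image_of_mem
    rw [Finset.mem_sdiff] at hz' ⊢
    refine ⟨hz'.1, ?_⟩
    rw [Finset.mem_insert]
    tauto

theorem nb_self (A : Finset ξ) : nb Z rel A Z = 0 := by
  simp [nb]

theorem exists_path : ∀ (N : ℕ) (Y : Finset ζ) (A : Finset ξ), Y ⊆ Z → A ⊆ X →
    (Z \ Y).card + (X \ A).card ≤ N → ∃ Af cs, Path Z X rel Y A Af cs := by
  intro N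
  induction N with
  | zero =>
    intro Y A hY hA hN
    have : (Z \ Y).card = 0 := by omega
    rw [Finset.card_eq_zero, Finset.sdiff_eq_empty_iff_subset] at this
    have : Y = Z := Finset.Subset.antisymm hY this
    subst this
    exact ⟨A, [], Path.done A hA⟩
  | succ N ih =>
    intro Y A hY hA hN
    by_cases hYZ : Y = Z
    · subst hYZ
      exact ⟨A, [], Path.done A hA⟩
    have hss : Y ⊂ Z := Finset.ssubset_iff_subset_ne.2 ⟨hY, hYZ⟩
    have hne : (Z \ Y).Nonempty := by
      rw [Finset.sdiff_nonempty]; exact hss.2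
    set S : Finset ℕ := (X.filter (fun x => nb Z rel A Y < nb Z rel (insert x A) Y)).image
      (fun x => (cl X rel Y x).card) ∪ (Z \ Y).image (fun z => (ab Z rel A Y z).card) with hS
    have hSne : S.Nonempty := by
      obtain ⟨z, hz⟩ := hne
      exact ⟨_, Finset.mem_union_right _ (Finset.mem_image_of_mem _ hz)⟩
    have hmin : MinCost Z X rel Y A (S.min' hSne) := by
      constructor
      · intro x hx hlt
        apply Finset.min'_le
        exact Finset.mem_union_left _ (Finset.mem_image_of_mem _ (Finset.mem_filter.2 ⟨hx, hlt⟩))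
      · intro z hz
        apply Finset.min'_le
        exact Finset.mem_union_right _ (Finset.mem_image_of_mem _ hz)
    rcases Finset.mem_union.1 (S.min'_mem hSne) with h | h
    · obtain ⟨x, hx, hxc⟩ := Finset.mem_image.1 h
      rw [Finset.mem_filter] at hx
      have hxA : x ∉ A := by
        intro hcon
        rw [Finset.insert_eq_of_mem hcon] at hx
        exact lt_irrefl _ hx.2
      have hlt : (X \ insert x A).card < (X \ A).card := by
        apply Finset.card_lt_card
        refine ⟨Finset.sdiff_subset_sdiff (Finset.Subset.refl _) (Finset.subset_insert _ _), ?_⟩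
        intro hcon
        have := hcon (Finset.mem_sdiff.2 ⟨hx.1, hxA⟩)
        rw [Finset.mem_sdiff] at this
        exact this.2 (Finset.mem_insert_self _ _)
      obtain ⟨Af, cs, hp⟩ := ih Y (insert x A) hY (Finset.insert_subset hx.1 hA) (by omega)
      refine ⟨Af, _, Path.xstep Y A Af x cs hss hA hx.1 hx.2 ?_ hp⟩
      rw [hxc]; exact hmin
    · obtain ⟨z, hz, hzc⟩ := Finset.mem_image.1 h
      have hlt : (Z \ insert z Y).card < (Z \ Y).card := by
        apply Finset.card_lt_card
        refine ⟨Finset.sdiff_subset_sdiff (Finset.Subset.refl _) (Finset.subset_insert _ _), ?_⟩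
        intro hcon
        have := hcon hz
        rw [Finset.mem_sdiff] at this
        exact this.2 (Finset.mem_insert_self _ _)
      obtain ⟨Af, cs, hp⟩ := ih (insert z Y) A
        (Finset.insert_subset (Finset.mem_sdiff.1 hz).1 hY) hA (by omega)
      refine ⟨Af, _, Path.zstep Y A Af z cs hss hA hz ?_ hp⟩
      rw [hzc]; exact hmin

theorem Path.subset {Y : Finset ζ} {A Af : Finset ξ} {cs : List ℕ} (h : Path Z X rel Y A Af cs) :
    A ⊆ Af ∧ Af ⊆ X := by
  induction h with
  | done A hA => exact ⟨Finset.Subset.refl _, hA⟩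
  | xstep Y A Af x cs _ _ _ _ _ _ ih =>
    exact ⟨(Finset.subset_insert _ _).trans ih.1, ih.2⟩
  | zstep Y A Af z cs _ _ _ _ _ ih => exact ih

theorem Path.length_le {Y : Finset ζ} {A Af : Finset ξ} {cs : List ℕ}
    (h : Path Z X rel Y A Af cs) :
    cs.length + 2 * Y.card + nb Z rel A Y ≤ 2 * Z.card := by
  induction h with
  | done A hA => rw [nb_self]; simp
  | xstep Y A Af x cs _ _ _ hlt _ _ ih =>
    rw [List.length_cons]; omega
  | zstep Y A Af z cs _ _ hz _ _ ih =>
    have h1 : (insert z Y).card = Y.card + 1 :=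
      Finset.card_insert_of_notMem (Finset.mem_sdiff.1 hz).2
    have h2 := nb_insert (Z := Z) (rel := rel) (A := A) (Y := Y) z
    rw [List.length_cons]
    omega

theorem Path.card_le {Y : Finset ζ} {A Af : Finset ξ} {cs : List ℕ}
    (h : Path Z X rel Y A Af cs) : Af.card + Y.card + nb Z rel A Y ≤ Z.card + A.card := by
  induction h with
  | done A hA => rw [nb_self]; omega
  | xstep Y A Af x cs _ _ _ hlt _ _ ih =>
    have := Finset.card_insert_le x A
    omega
  | zstep Y A Af z cs _ _ hz _ _ ih =>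
    have h1 : (insert z Y).card = Y.card + 1 :=
      Finset.card_insert_of_notMem (Finset.mem_sdiff.1 hz).2
    have h2 := nb_insert (Z := Z) (rel := rel) (A := A) (Y := Y) z
    omega

theorem Path.le_card {Y : Finset ζ} {A Af : Finset ξ} {cs : List ℕ}
    (hZX : Z.card ≤ X.card) (h : Path Z X rel Y A Af cs) : ∀ c ∈ cs, c ≤ X.card := by
  induction h with
  | done A hA => simp
  | xstep Y A Af x cs _ _ _ hlt _ _ ih =>
    intro c hc
    rcases List.mem_cons.1 hc with h | h
    · rw [h]; exact Finset.card_filter_le _ _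
    · exact ih c h
  | zstep Y A Af z cs _ _ hz _ _ ih =>
    intro c hc
    rcases List.mem_cons.1 hc with h | h
    · rw [h]
      exact ((Finset.card_filter_le _ _).trans (Finset.card_le_card Finset.sdiff_subset)).trans hZX
    · exact ih c h

/-- A stuck reference state. -/
def StuckAt (Z : Finset ζ) (X : Finset ξ) (rel : ξ → ζ → Prop) (s : ℕ) (Y : Finset ζ)
    (A : Finset ξ) : Prop :=
  Stuck Z X rel s Y ∧ ∀ z ∈ Z \ Y, s < (ab Z rel A Y z).card

theorem MinCost.stuckAt {s c : ℕ} {Y : Finset ζ} {A : Finset ξ} (h : MinCost Z X rel Y A c)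
    (hc : s < c) : StuckAt Z X rel s Y A := by
  refine ⟨fun z hz => ?_, fun z hz => lt_of_lt_of_le hc (h.2 z hz)⟩
  refine lt_of_lt_of_le (lt_of_lt_of_le hc (h.2 z hz)) (Finset.card_le_card ?_)
  intro z' hz'
  rw [ab, Finset.mem_filter] at hz'
  rw [blk, Finset.mem_filter]
  refine ⟨hz'.1, fun x hx => ?_⟩
  by_contra hcon
  rw [sm, Finset.mem_filter] at hx
  have := h.1 x hx.1 (nb_split hz'.1 hz hz'.2 hcon)
  omega

/-- The extended potential. -/
noncomputable def epot (Z : Finset ζ) (X : Finset ξ) (rel : ξ → ζ → Prop) (R s : ℕ)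
    (Y : Finset ζ) (A : Finset ξ) : ℤ :=
  pot X rel R s Y + Y.card + s * nb Z rel A Y

theorem vanish {s : ℕ} {Y₀ Y : Finset ζ} {A₀ A : Finset ξ} (hst : StuckAt Z X rel s Y₀ A₀)
    (hY₀ : Y₀ ⊆ Y) (hA : A₀ ⊆ A) :
    Y₀.card + s * nb Z rel A₀ Y₀ ≤ Y.card + s * nb Z rel A Y := by
  set T₀ := (Z \ Y₀).image (fun z => A₀.filter (fun x => rel x z)) with hT₀
  set T₁ := (Z \ Y).image (fun z => A₀.filter (fun x => rel x z)) with hT₁
  set V := T₀ \ T₁ with hV
  have h0 : nb Z rel A₀ Y₀ = T₀.card := rfl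
  have h1 : nb Z rel A₀ Y = T₁.card := rfl
  have h2 : T₁.card ≤ nb Z rel A Y := by rw [← h1]; exact nb_mono hA Y
  have h3 : T₀.card ≤ V.card + T₁.card := Finset.card_le_card_sdiff_add_card
  have h4 : s * V.card ≤ (Y \ Y₀).card := by
    have h5 : (((Y \ Y₀).filter (fun z => A₀.filter (fun x => rel x z) ∈ V)).card) =
        ∑ τ ∈ V, (((Y \ Y₀).filter (fun z => A₀.filter (fun x => rel x z) ∈ V)).filter
          (fun z => A₀.filter (fun x => rel x z) = τ)).card :=
      Finset.card_eq_sum_card_fiberwise (by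
        intro x hx
        have := Finset.mem_coe.1 hx
        rw [Finset.mem_filter] at this
        exact this.2)
    calc s * V.card = ∑ τ ∈ V, s := by rw [Finset.sum_const, smul_eq_mul, mul_comm]
      _ ≤ ∑ τ ∈ V, (((Y \ Y₀).filter (fun z => A₀.filter (fun x => rel x z) ∈ V)).filter
          (fun z => A₀.filter (fun x => rel x z) = τ)).card := by
          refine Finset.sum_le_sum fun τ hτ => ?_
          have hτ' := Finset.mem_sdiff.1 hτ
          obtain ⟨z, hz, hzτ⟩ := Finset.mem_image.1 hτ'.1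
          refine (hst.2 z hz).le.trans (Finset.card_le_card ?_)
          intro z' hz'
          rw [ab, Finset.mem_filter] at hz'
          have hz'τ : A₀.filter (fun x => rel x z') = τ := by
            rw [← hzτ, afilter_eq_iff]; exact hz'.2
          have hz'Y : z' ∈ Y := by
            by_contra hcon
            apply hτ'.2
            rw [← hz'τ]
            exact Finset.mem_image_of_mem _
              (Finset.mem_sdiff.2 ⟨(Finset.mem_sdiff.1 hz'.1).1, hcon⟩)
          rw [Finset.mem_filter, Finset.mem_filter]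
          exact ⟨⟨Finset.mem_sdiff.2 ⟨hz'Y, (Finset.mem_sdiff.1 hz'.1).2⟩,
            by rw [hz'τ]; exact hτ⟩, hz'τ⟩
      _ ≤ (Y \ Y₀).card := by
          rw [← h5]
          exact Finset.card_filter_le _ _
  have h5 := Finset.card_sdiff_add_card_eq_card hY₀
  have h6 : s * T₀.card ≤ s * V.card + s * T₁.card := by
    rw [← mul_add]; exact Nat.mul_le_mul_left _ h3
  have h7 : s * T₁.card ≤ s * nb Z rel A Y := Nat.mul_le_mul_left _ h2
  rw [h0]
  omega

/-- The number of expensive steps. -/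
def cnt (s : ℕ) (cs : List ℕ) : ℕ := cs.countP (fun c => decide (s < c))

theorem cnt_cons_of_lt {s c : ℕ} {cs : List ℕ} (h : s < c) : cnt s (c :: cs) = cnt s cs + 1 := by
  unfold cnt
  rw [List.countP_cons_of_pos]
  simpa using h

theorem cnt_cons_of_le {s c : ℕ} {cs : List ℕ} (h : c ≤ s) : cnt s (c :: cs) = cnt s cs := by
  unfold cnt
  rw [List.countP_cons_of_neg]
  simpa using h

theorem gain (hM : MinSys Z X rel R) {s : ℕ} (hs : 1 ≤ s) {Y₀ Y : Finset ζ} {A₀ A : Finset ξ}
    (hst : StuckAt Z X rel s Y₀ A₀) (hY₀ : Y₀ ⊆ Y) (hYZ : Y ⊆ Z) (hA : A₀ ⊆ A)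
    (hne : Y₀ ≠ Y ∨ nb Z rel A₀ Y₀ < nb Z rel A Y) :
    epot Z X rel R s Y₀ A₀ + s ≤ epot Z X rel R s Y A := by
  by_cases hY : Y₀ = Y
  · subst hY
    have hlt : nb Z rel A₀ Y₀ < nb Z rel A Y₀ := by tauto
    unfold epot
    have h1 : (nb Z rel A₀ Y₀ : ℤ) + 1 ≤ nb Z rel A Y₀ := by exact_mod_cast hlt
    have h2 : (0 : ℤ) ≤ s := by positivity
    nlinarith [mul_le_mul_of_nonneg_left h1 h2]
  · have h1 := star hM hs (Finset.ssubset_iff_subset_ne.2 ⟨hY₀, hY⟩) hYZ (Or.inl hst.1)
    have h2 : (Y₀.card : ℤ) + s * nb Z rel A₀ Y₀ ≤ Y.card + s * nb Z rel A Y := by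
      exact_mod_cast vanish hst hY₀ hA
    unfold epot
    linarith

theorem Path.ref_bound (hM : MinSys Z X rel R) {s : ℕ} (hs : 1 ≤ s) {Y : Finset ζ}
    {A Af : Finset ξ} {cs : List ℕ} (h : Path Z X rel Y A Af cs) :
    ∀ (Y₀ : Finset ζ) (A₀ : Finset ξ), StuckAt Z X rel s Y₀ A₀ → Y₀ ⊆ Y → A₀ ⊆ A →
      (Y₀ ≠ Y ∨ nb Z rel A₀ Y₀ < nb Z rel A Y) →
      (s : ℤ) * (cnt s cs + 1) ≤ epot Z X rel R s Z Af - epot Z X rel R s Y₀ A₀ := by
  induction h with
  | done A hA =>
    intro Y₀ A₀ hst hY₀ hA₀ hne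
    have := gain hM hs hst hY₀ (Finset.Subset.refl _) hA₀ hne
    simp only [cnt, List.countP_nil]
    push_cast
    linarith
  | xstep Y A Af x cs hYZ hAX hx hlt hmin _ ih =>
    intro Y₀ A₀ hst hY₀ hA₀ hne
    by_cases hc : s < (cl X rel Y x).card
    · have h1 := gain hM hs hst hY₀ hYZ.1 hA₀ hne
      have h2 := ih Y A (hmin.stuckAt hc) (Finset.Subset.refl _) (Finset.subset_insert _ _)
        (Or.inr hlt)
      rw [cnt_cons_of_lt hc]
      push_cast
      linarith
    · rw [cnt_cons_of_le (by omega)]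
      refine ih Y₀ A₀ hst hY₀ (hA₀.trans (Finset.subset_insert _ _)) ?_
      rcases hne with h | h
      · exact Or.inl h
      · exact Or.inr (h.trans hlt)
  | zstep Y A Af z cs hYZ hAX hz hmin _ ih =>
    intro Y₀ A₀ hst hY₀ hA₀ hne
    have hzY : z ∉ Y := (Finset.mem_sdiff.1 hz).2
    by_cases hc : s < (ab Z rel A Y z).card
    · have h1 := gain hM hs hst hY₀ hYZ.1 hA₀ hne
      have h2 := ih Y A (hmin.stuckAt hc) (Finset.subset_insert _ _) (Finset.Subset.refl _)
        (Or.inl (by intro hcon; exact hzY (hcon ▸ Finset.mem_insert_self _ _)))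
      rw [cnt_cons_of_lt hc]
      push_cast
      linarith
    · rw [cnt_cons_of_le (by omega)]
      refine ih Y₀ A₀ hst (hY₀.trans (Finset.subset_insert _ _)) hA₀ ?_
      left
      intro hcon
      exact hzY (hY₀ (hcon ▸ Finset.mem_insert_self _ _))

theorem epot_nonneg (hM : MinSys Z X rel R) {s : ℕ} (hs : 1 ≤ s) (hsX : s < X.card) {Y : Finset ζ}
    (hYZ : Y ⊂ Z) (A : Finset ξ) : 0 ≤ epot Z X rel R s Y A := by
  have hcl : ∀ x, cl X rel ∅ x = X := by
    intro x
    simp [cl]
  have hsm : sm X rel s ∅ = ∅ := by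
    rw [sm, Finset.filter_eq_empty_iff]
    intro x _
    rw [hcl]
    omega
  have h0 : 0 ≤ pot X rel R s (∅ : Finset ζ) := by
    unfold pot
    rw [hsm]
    simp only [Finset.card_empty, Nat.cast_zero, zero_mul, mul_zero, add_zero, zero_add, sub_zero]
    positivity
  have h1 : 0 ≤ pot X rel R s Y := by
    rcases Finset.eq_empty_or_nonempty Y with h | h
    · rw [h]; exact h0
    · have := star hM hs (Finset.ssubset_iff_subset_ne.2 ⟨Finset.empty_subset _, h.ne_empty.symm⟩)
        hYZ.1 (Or.inr ⟨hsm, hYZ.ne⟩)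
      have h2 : (0 : ℤ) ≤ s := by positivity
      linarith
  unfold epot
  positivity

theorem epot_final (hM : MinSys Z X rel R) {s : ℕ} (hs : 1 ≤ s) (A : Finset ξ) :
    epot Z X rel R s Z A = ((R + 1) ^ 2 + 1) * Z.card := by
  have hcl : ∀ x ∈ X, (cl X rel Z x).card = 1 := by
    intro x hx
    rw [Finset.card_eq_one]
    refine ⟨x, ?_⟩
    ext y
    rw [cl, Finset.mem_filter, Finset.mem_singleton]
    constructor
    · rintro ⟨h1, h2⟩; exact hM.dist y h1 x hx h2
    · rintro rfl; exact ⟨hx, fun z _ => by simp⟩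
  have hsm : sm X rel s Z = X := by
    rw [sm, Finset.filter_eq_self]
    intro x hx
    rw [hcl x hx]; exact hs
  have hbg : bg X rel s Z = ∅ := by
    rw [bg, Finset.image_eq_empty, Finset.filter_eq_empty_iff]
    intro x hx
    rw [hcl x hx]; omega
  unfold epot pot
  rw [hsm, hbg, nb_self, hM.card]
  push_cast
  simp only [Finset.card_empty, Nat.cast_zero, mul_zero, add_zero]
  ring

theorem Path.cnt_bound (hM : MinSys Z X rel R) {s : ℕ} (hs : 1 ≤ s) (hsX : s < X.card)
    {Y : Finset ζ} {A Af : Finset ξ} {cs : List ℕ} (h : Path Z X rel Y A Af cs) :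
    s * cnt s cs ≤ ((R + 1) ^ 2 + 1) * Z.card := by
  induction h with
  | done A hA => simp [cnt]
  | xstep Y A Af x cs hYZ hAX hx hlt hmin hp ih =>
    by_cases hc : s < (cl X rel Y x).card
    · have h1 := Path.ref_bound hM hs hp Y A (hmin.stuckAt hc) (Finset.Subset.refl _)
        (Finset.subset_insert _ _) (Or.inr hlt)
      have h2 := epot_nonneg hM hs hsX hYZ A
      rw [epot_final hM hs] at h1
      rw [cnt_cons_of_lt hc]
      zify
      linarith
    · rw [cnt_cons_of_le (by omega)]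
      exact ih
  | zstep Y A Af z cs hYZ hAX hz hmin hp ih =>
    have hzY : z ∉ Y := (Finset.mem_sdiff.1 hz).2
    by_cases hc : s < (ab Z rel A Y z).card
    · have h1 := Path.ref_bound hM hs hp Y A (hmin.stuckAt hc) (Finset.subset_insert _ _)
        (Finset.Subset.refl _)
        (Or.inl (by intro hcon; exact hzY (hcon ▸ Finset.mem_insert_self _ _)))
      have h2 := epot_nonneg hM hs hsX hYZ A
      rw [epot_final hM hs] at h1
      rw [cnt_cons_of_lt hc]
      zify
      linarith
    · rw [cnt_cons_of_le (by omega)]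
      exact ih

end Pool.Agent.Hhelper71.Small
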