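import Mathlib
import Pool.Agent.Hhelper71.Small.Path

/-!
A greedy path bounds the number of embeddings producing a given labelled graph.
-/

set_option autoImplicit false

namespace Pool.Agent.Hhelper71.Small

open Finset Classical

theorem single_le (J c : ℕ) : ∀ T, c ≤ 2 ^ (J + T) →
    c ≤ 2 ^ J * ∏ i ∈ Finset.range T, (if 2 ^ (J + i) < c then 2 else 1) := by
  intro T
  induction T with
  | zero => intro h; simpa using h
  | succ T ih =>
    intro h
    by_cases hc : 2 ^ (J + T) < c
    · have : ∏ i ∈ Finset.range (T + 1), (if 2 ^ (J + i) < c then 2 else 1) = 2 ^ (T + 1) := by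
        rw [Finset.prod_congr rfl (g := fun _ => 2)]
        · rw [Finset.prod_const, Finset.card_range]
        · intro i hi
          have hi' : i ≤ T := by
            have := Finset.mem_range.1 hi; omega
          rw [if_pos]
          exact lt_of_le_of_lt (Nat.pow_le_pow_right (by norm_num) (by omega)) hc
      rw [this, ← pow_add]
      exact h
    · rw [Finset.prod_range_succ, if_neg hc, mul_one]
      exact ih (by omega)

theorem list_prod_le (J T : ℕ) : ∀ cs : List ℕ, (∀ c ∈ cs, c ≤ 2 ^ (J + T)) →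
    cs.prod ≤ 2 ^ (J * cs.length) * ∏ i ∈ Finset.range T, 2 ^ (cnt (2 ^ (J + i)) cs) := by
  intro cs
  induction cs with
  | nil => intro _; simp [cnt]
  | cons c cs ih =>
    intro h
    have h1 := single_le J c T (h c List.mem_cons_self)
    have h2 := ih (fun d hd => h d (List.mem_cons_of_mem _ hd))
    have h3 : ∏ i ∈ Finset.range T, 2 ^ (cnt (2 ^ (J + i)) (c :: cs)) =
        (∏ i ∈ Finset.range T, (if 2 ^ (J + i) < c then 2 else 1)) *
          ∏ i ∈ Finset.range T, 2 ^ (cnt (2 ^ (J + i)) cs) := by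
      rw [← Finset.prod_mul_distrib]
      refine Finset.prod_congr rfl fun i _ => ?_
      by_cases hc : 2 ^ (J + i) < c
      · rw [cnt_cons_of_lt hc, if_pos hc, pow_succ, mul_comm]
      · rw [cnt_cons_of_le (by omega), if_neg hc, one_mul]
    rw [List.prod_cons, List.length_cons, h3]
    calc c * cs.prod ≤ (2 ^ J * ∏ i ∈ Finset.range T, (if 2 ^ (J + i) < c then 2 else 1)) *
          (2 ^ (J * cs.length) * ∏ i ∈ Finset.range T, 2 ^ (cnt (2 ^ (J + i)) cs)) :=
          Nat.mul_le_mul h1 h2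
      _ = _ := by
          rw [mul_add, mul_one, pow_add]
          ring

theorem sum_le_geom (k : ℕ) (a : ℕ → ℕ) (h : ∀ i, 2 ^ i * a i ≤ k) : ∀ T,
    ∑ i ∈ Finset.range T, a i ≤ 2 * k := by
  intro T
  have key : ∀ T, 2 ^ T * ∑ i ∈ Finset.range T, a i + 2 * k ≤ 2 * k * 2 ^ T := by
    intro T
    induction T with
    | zero => simp
    | succ T ih =>
      rw [Finset.sum_range_succ, pow_succ]
      have := h T
      nlinarith
  have h1 := key T
  have h2 : 2 ^ T * ∑ i ∈ Finset.range T, a i ≤ 2 ^ T * (2 * k) := by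
    rw [mul_comm (2 ^ T) (2 * k)]; omega
  exact Nat.le_of_mul_le_mul_left h2 (by positivity)

theorem prod_bound {k L J B : ℕ} {cs : List ℕ} (hlen : cs.length ≤ 2 * k) (hL : L ≤ 2 ^ J)
    (hB : ∀ c ∈ cs, c ≤ B) (hcnt : ∀ s, 1 ≤ s → s < B → s * cnt s cs ≤ L * k) :
    cs.prod ≤ 2 ^ (2 * k * (J + 1)) := by
  have hcnt' : ∀ s, 1 ≤ s → s * cnt s cs ≤ L * k := by
    intro s hs
    by_cases h : s < B
    · exact hcnt s hs h
    · have : cnt s cs = 0 := by
        unfold cnt
        rw [List.countP_eq_zero]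
        intro c hc
        have := hB c hc
        simp
        omega
      rw [this]; simp
  have h1 : ∀ c ∈ cs, c ≤ 2 ^ (J + B) := by
    intro c hc
    calc c ≤ B := hB c hc
      _ ≤ 2 ^ B := (Nat.lt_two_pow_self).le
      _ ≤ 2 ^ (J + B) := Nat.pow_le_pow_right (by norm_num) (by omega)
  have h2 : ∀ i, 2 ^ i * cnt (2 ^ (J + i)) cs ≤ k := by
    intro i
    have h3 := hcnt' (2 ^ (J + i)) (Nat.one_le_two_pow)
    have h4 : 2 ^ J * (2 ^ i * cnt (2 ^ (J + i)) cs) ≤ 2 ^ J * k := by
      calc 2 ^ J * (2 ^ i * cnt (2 ^ (J + i)) cs) = 2 ^ (J + i) * cnt (2 ^ (J + i)) cs := by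
            rw [pow_add]; ring
        _ ≤ L * k := h3
        _ ≤ 2 ^ J * k := Nat.mul_le_mul_right _ hL
    exact Nat.le_of_mul_le_mul_left h4 (by positivity)
  have h3 := sum_le_geom k (fun i => cnt (2 ^ (J + i)) cs) h2 B
  calc cs.prod ≤ 2 ^ (J * cs.length) * ∏ i ∈ Finset.range B, 2 ^ (cnt (2 ^ (J + i)) cs) :=
        list_prod_le J B cs h1
    _ = 2 ^ (J * cs.length + ∑ i ∈ Finset.range B, cnt (2 ^ (J + i)) cs) := by
        rw [Finset.prod_pow_eq_pow_sum, pow_add]
    _ ≤ 2 ^ (2 * k * (J + 1)) := by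
        apply Nat.pow_le_pow_right (by norm_num)
        have : J * cs.length ≤ J * (2 * k) := Nat.mul_le_mul_left _ hlen
        nlinarith

theorem mem_cl {ζ ξ : Type*} {X : Finset ξ} {rel : ξ → ζ → Prop} {Y : Finset ζ} {x x' : ξ} :
    x' ∈ cl X rel Y x ↔ x' ∈ X ∧ ∀ z ∈ Y, (rel x' z ↔ rel x z) := by
  rw [cl, Finset.mem_filter]

theorem mem_ab {ζ ξ : Type*} {Z : Finset ζ} {A : Finset ξ} {rel : ξ → ζ → Prop} {Y : Finset ζ}
    {z z' : ζ} : z' ∈ ab Z rel A Y z ↔ (z' ∈ Z ∧ z' ∉ Y) ∧ ∀ x ∈ A, (rel x z' ↔ rel x z) := by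
  rw [ab, Finset.mem_filter, Finset.mem_sdiff]

section

variable {V : Type*} [Fintype V] {m : ℕ} (G : SimpleGraph V) (Z X : Finset V)

/-- Embeddings compatible with the labelled graph `Γ`, the position `I` of `Z`, and the placement
`r` of the explored vertices. -/
noncomputable def embs (Γ : SimpleGraph (Fin m)) (I : Finset (Fin m)) (Y A Af : Finset V)
    (r : V → Fin m) : Finset (Fin m ↪ V) :=
  Finset.univ.filter (fun g => G.comap g = Γ ∧ (∀ i, i ∈ I ↔ g i ∈ Z) ∧ (∀ i, g i ∈ Z ∪ X) ∧
    (∀ v ∈ Z ∪ Af, ∃ i, g i = v) ∧ ∀ v ∈ Y ∪ A, g (r v) = v)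

variable {G Z X}

theorem mem_embs {Γ : SimpleGraph (Fin m)} {I : Finset (Fin m)} {Y A Af : Finset V}
    {r : V → Fin m} {g : Fin m ↪ V} : g ∈ embs G Z X Γ I Y A Af r ↔
      G.comap g = Γ ∧ (∀ i, i ∈ I ↔ g i ∈ Z) ∧ (∀ i, g i ∈ Z ∪ X) ∧
    (∀ v ∈ Z ∪ Af, ∃ i, g i = v) ∧ ∀ v ∈ Y ∪ A, g (r v) = v := by
  simp [embs]

theorem card_embs (hd : Disjoint Z X)
    (hdist : ∀ x ∈ X, ∀ x' ∈ X, (∀ z ∈ Z, (G.Adj x z ↔ G.Adj x' z)) → x = x')
    (Γ : SimpleGraph (Fin m)) (I : Finset (Fin m)) {Y A Af : Finset V} {cs : List ℕ}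
    (h : Path Z X (fun x z => G.Adj x z) Y A Af cs) :
    ∀ r : V → Fin m, (embs G Z X Γ I Y A Af r).card ≤ cs.prod := by
  induction h with
  | done A hA =>
    intro r
    rw [List.prod_nil]
    apply Finset.card_le_one.2
    intro g hg g' hg'
    rw [mem_embs] at hg hg'
    obtain ⟨h1, h2, h3, h4, h5⟩ := hg
    obtain ⟨h1', h2', h3', h4', h5'⟩ := hg'
    apply DFunLike.ext
    intro i
    by_cases hi : i ∈ I
    · have hgi := (h2 i).1 hi
      have e1 := h5 (g i) (Finset.mem_union_left _ hgi)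
      have e2 := h5' (g i) (Finset.mem_union_left _ hgi)
      have e3 := g.injective e1
      rw [e3] at e2
      exact e2.symm
    · have hgi : g i ∈ X := by
        rcases Finset.mem_union.1 (h3 i) with h | h
        · exact absurd ((h2 i).2 h) hi
        · exact h
      have hgi' : g' i ∈ X := by
        rcases Finset.mem_union.1 (h3' i) with h | h
        · exact absurd ((h2' i).2 h) hi
        · exact h
      apply hdist _ hgi _ hgi'
      intro z hz
      have e1 := h5 z (Finset.mem_union_left _ hz)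
      have e2 := h5' z (Finset.mem_union_left _ hz)
      have f1 : G.Adj (g i) (g (r z)) ↔ Γ.Adj i (r z) := by rw [← h1]; rfl
      have f2 : G.Adj (g' i) (g' (r z)) ↔ Γ.Adj i (r z) := by rw [← h1']; rfl
      rw [e1] at f1
      rw [e2] at f2
      rw [f1, f2]
  | xstep Y A Af x cs hYZ hAX hx hlt _ hp ih =>
    intro r
    have hxA : x ∉ A := by
      intro hcon
      rw [Finset.insert_eq_of_mem hcon] at hlt
      exact lt_irrefl _ hlt
    have hxZ : x ∉ Z := fun hcon => (Finset.disjoint_left.1 hd) hcon hx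
    have hxY : x ∉ Y := fun hcon => hxZ (hYZ.1 hcon)
    have hxAf : x ∈ Af := hp.subset.1 (Finset.mem_insert_self _ _)
    rcases Finset.eq_empty_or_nonempty (embs G Z X Γ I Y A Af r) with he | hne
    · rw [he]; simp
    set J : Finset (Fin m) := Finset.univ.filter
      (fun i => i ∉ I ∧ ∀ y ∈ Y, (Γ.Adj i (r y) ↔ G.Adj x y)) with hJ
    have hsub : embs G Z X Γ I Y A Af r ⊆
        J.biUnion (fun i => embs G Z X Γ I Y (insert x A) Af (Function.update r x i)) := by
      intro g hg
      have hg' := mem_embs.1 hg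
      obtain ⟨h1, h2, h3, h4, h5⟩ := hg'
      obtain ⟨i, hi⟩ := h4 x (Finset.mem_union_right _ hxAf)
      rw [Finset.mem_biUnion]
      refine ⟨i, ?_, ?_⟩
      · rw [hJ, Finset.mem_filter]
        refine ⟨Finset.mem_univ _, ?_, ?_⟩
        · rw [h2 i, hi]; exact hxZ
        · intro y hy
          have e1 := h5 y (Finset.mem_union_left _ hy)
          have f1 : G.Adj (g i) (g (r y)) ↔ Γ.Adj i (r y) := by rw [← h1]; rfl
          rw [e1, hi] at f1
          exact f1.symm
      · rw [mem_embs]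
        refine ⟨h1, h2, h3, h4, ?_⟩
        intro v hv
        by_cases hvx : v = x
        · rw [hvx, Function.update_self, hi]
        · rw [Function.update_of_ne hvx]
          apply h5
          rcases Finset.mem_union.1 hv with h | h
          · exact Finset.mem_union_left _ h
          · exact Finset.mem_union_right _ ((Finset.mem_insert.1 h).resolve_left hvx)
    have hJc : J.card ≤ (cl X (fun x z => G.Adj x z) Y x).card := by
      obtain ⟨g, hg⟩ := hne
      rw [mem_embs] at hg
      obtain ⟨h1, h2, h3, h4, h5⟩ := hg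
      rw [← Finset.card_map g]
      apply Finset.card_le_card
      intro v hv
      obtain ⟨i, hi, rfl⟩ := Finset.mem_map.1 hv
      rw [hJ, Finset.mem_filter] at hi
      rw [mem_cl]
      refine ⟨?_, ?_⟩
      · rcases Finset.mem_union.1 (h3 i) with h | h
        · exact absurd ((h2 i).2 h) hi.2.1
        · exact h
      · intro y hy
        have e1 := h5 y (Finset.mem_union_left _ hy)
        have f1 : G.Adj (g i) (g (r y)) ↔ Γ.Adj i (r y) := by rw [← h1]; rfl
        rw [e1] at f1
        rw [f1]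
        exact hi.2.2 y hy
    rw [List.prod_cons]
    calc (embs G Z X Γ I Y A Af r).card ≤ _ := Finset.card_le_card hsub
      _ ≤ J.card * cs.prod := Finset.card_biUnion_le_card_mul _ _ _ (fun i _ => ih _)
      _ ≤ _ := Nat.mul_le_mul_right _ hJc
  | zstep Y A Af z cs hYZ hAX hz _ hp ih =>
    intro r
    obtain ⟨hzZ, hzY⟩ := Finset.mem_sdiff.1 hz
    have hzX : z ∉ X := (Finset.disjoint_left.1 hd) hzZ
    have hzA : z ∉ A := fun hcon => hzX (hAX hcon)
    rcases Finset.eq_empty_or_nonempty (embs G Z X Γ I Y A Af r) with he | hne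
    · rw [he]; simp
    set J : Finset (Fin m) := Finset.univ.filter
      (fun i => i ∈ I ∧ (∀ y ∈ Y, i ≠ r y) ∧ ∀ a ∈ A, (Γ.Adj (r a) i ↔ G.Adj a z)) with hJ
    have hsub : embs G Z X Γ I Y A Af r ⊆
        J.biUnion (fun i => embs G Z X Γ I (insert z Y) A Af (Function.update r z i)) := by
      intro g hg
      have hg' := mem_embs.1 hg
      obtain ⟨h1, h2, h3, h4, h5⟩ := hg'
      obtain ⟨i, hi⟩ := h4 z (Finset.mem_union_left _ hzZ)
      rw [Finset.mem_biUnion]
      refine ⟨i, ?_, ?_⟩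
      · rw [hJ, Finset.mem_filter]
        refine ⟨Finset.mem_univ _, ?_, ?_, ?_⟩
        · rw [h2 i, hi]; exact hzZ
        · intro y hy hiy
          have e1 := h5 y (Finset.mem_union_left _ hy)
          rw [← hiy, hi] at e1
          exact hzY (e1 ▸ hy)
        · intro a ha
          have e1 := h5 a (Finset.mem_union_right _ ha)
          have f1 : G.Adj (g (r a)) (g i) ↔ Γ.Adj (r a) i := by rw [← h1]; rfl
          rw [e1, hi] at f1
          exact f1.symm
      · rw [mem_embs]
        refine ⟨h1, h2, h3, h4, ?_⟩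
        intro v hv
        by_cases hvx : v = z
        · rw [hvx, Function.update_self, hi]
        · rw [Function.update_of_ne hvx]
          apply h5
          rcases Finset.mem_union.1 hv with h | h
          · exact Finset.mem_union_left _ ((Finset.mem_insert.1 h).resolve_left hvx)
          · exact Finset.mem_union_right _ h
    have hJc : J.card ≤ (ab Z (fun x z => G.Adj x z) A Y z).card := by
      obtain ⟨g, hg⟩ := hne
      rw [mem_embs] at hg
      obtain ⟨h1, h2, h3, h4, h5⟩ := hg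
      rw [← Finset.card_map g]
      apply Finset.card_le_card
      intro v hv
      obtain ⟨i, hi, rfl⟩ := Finset.mem_map.1 hv
      rw [hJ, Finset.mem_filter] at hi
      rw [mem_ab]
      refine ⟨⟨(h2 i).1 hi.2.1, ?_⟩, ?_⟩
      · intro hgi
        have e1 := h5 (g i) (Finset.mem_union_left _ hgi)
        exact hi.2.2.1 (g i) hgi (g.injective e1).symm
      · intro a ha
        have e1 := h5 a (Finset.mem_union_right _ ha)
        have f1 : G.Adj (g (r a)) (g i) ↔ Γ.Adj (r a) i := by rw [← h1]; rfl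
        rw [e1] at f1
        rw [f1]
        exact hi.2.2.2 a ha
    rw [List.prod_cons]
    calc (embs G Z X Γ I Y A Af r).card ≤ _ := Finset.card_le_card hsub
      _ ≤ J.card * cs.prod := Finset.card_biUnion_le_card_mul _ _ _ (fun i _ => ih _)
      _ ≤ _ := Nat.mul_le_mul_right _ hJc

end

end Pool.Agent.Hhelper71.Small
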