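import Mathlib
import Pool.Agent.Hhelper71.Small.Ident

/-!
Small hereditary classes have linear neighbourhood complexity.
-/

set_option autoImplicit false

namespace Pool.Agent.Hhelper71.Small

open Finset Classical

section

variable {V : Type*} [Fintype V] {m : ℕ} {G : SimpleGraph V} {Z X : Finset V}

theorem count_path {Cm : Set (SimpleGraph (Fin m))} (hC : ∀ g : Fin m ↪ V, G.comap g ∈ Cm)
    (hd : Disjoint Z X)
    (hdist : ∀ x ∈ X, ∀ x' ∈ X, (∀ z ∈ Z, (G.Adj x z ↔ G.Adj x' z)) → x = x')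
    {Af : Finset V} {cs : List ℕ} (h : Path Z X (fun x z => G.Adj x z) ∅ ∅ Af cs) (s : ℕ)
    (hm : m = Z.card + Af.card + s) (hm0 : 0 < m) :
    (X.card - Af.card).choose s * m.factorial ≤ Cm.ncard * 2 ^ m * cs.prod := by
  set E : Finset (Fin m ↪ V) := Finset.univ.filter
    (fun g => (∀ i, g i ∈ Z ∪ X) ∧ ∀ v ∈ Z ∪ Af, ∃ i, g i = v) with hE
  have hAfX : Af ⊆ X := h.subset.2
  have hup : E.card ≤ Cm.ncard * 2 ^ m * cs.prod := by
    let f : (Fin m ↪ V) → SimpleGraph (Fin m) × Finset (Fin m) :=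
      fun g => (G.comap g, Finset.univ.filter (fun i => g i ∈ Z))
    have h1 : E.card ≤ cs.prod * (E.image f).card := by
      apply Finset.card_le_mul_card_image
      rintro ⟨Γ, I⟩ _
      refine (Finset.card_le_card ?_).trans
        (card_embs hd hdist Γ I h (fun _ => ⟨0, hm0⟩))
      intro g hg
      rw [Finset.mem_filter, hE, Finset.mem_filter] at hg
      obtain ⟨⟨_, h2, h3⟩, h4⟩ := hg
      have h5 : G.comap g = Γ := congrArg Prod.fst h4
      have h6 : Finset.univ.filter (fun i => g i ∈ Z) = I := congrArg Prod.snd h4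
      rw [mem_embs]
      refine ⟨h5, ?_, h2, h3, ?_⟩
      · intro i
        rw [← h6, Finset.mem_filter]
        simp
      · intro v hv
        simp at hv
    have h2 : (E.image f).card ≤ Cm.ncard * 2 ^ m := by
      have h3 : E.image f ⊆ (Set.toFinite Cm).toFinset ×ˢ (Finset.univ : Finset (Finset (Fin m))) := by
        intro p hp
        obtain ⟨g, _, rfl⟩ := Finset.mem_image.1 hp
        rw [Finset.mem_product]
        exact ⟨(Set.Finite.mem_toFinset _).2 (hC g), Finset.mem_univ _⟩
      refine (Finset.card_le_card h3).trans ?_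
      rw [Finset.card_product, Finset.card_univ, Fintype.card_finset, Fintype.card_fin,
        ← Set.ncard_eq_toFinset_card]
    calc E.card ≤ cs.prod * (E.image f).card := h1
      _ ≤ cs.prod * (Cm.ncard * 2 ^ m) := Nat.mul_le_mul_left _ h2
      _ = _ := by ring
  refine le_trans ?_ hup
  have hXA : (X \ Af).card = X.card - Af.card := by
    have := Finset.card_sdiff_add_card_eq_card hAfX
    omega
  rcases Finset.eq_empty_or_nonempty (Finset.powersetCard s (X \ Af)) with he | ⟨S₀, hS₀⟩
  · have : (X.card - Af.card).choose s = 0 := by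
      rw [← hXA, ← Finset.card_powersetCard, he]; simp
    rw [this]; simp
  have hemb : ∀ S ∈ Finset.powersetCard s (X \ Af), ∃ e : Fin m ↪ V,
      ∀ v, (∃ i, e i = v) ↔ v ∈ Z ∪ Af ∪ S := by
    intro S hS
    obtain ⟨h1, h2⟩ := Finset.mem_powersetCard.1 hS
    have hc : (Z ∪ Af ∪ S).card = m := by
      rw [Finset.card_union_of_disjoint, Finset.card_union_of_disjoint, h2, hm]
      · exact Finset.disjoint_of_subset_right hAfX hd
      · rw [Finset.disjoint_left]
        intro v hv hvS
        have hvX := Finset.mem_sdiff.1 (h1 hvS)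
        rcases Finset.mem_union.1 hv with h | h
        · exact (Finset.disjoint_left.1 hd) h hvX.1
        · exact hvX.2 h
    let e := (Finset.equivFinOfCardEq hc).symm
    refine ⟨e.toEmbedding.trans (Function.Embedding.subtype _), ?_⟩
    intro v
    constructor
    · rintro ⟨i, rfl⟩
      exact (e i).2
    · intro hv
      refine ⟨e.symm ⟨v, hv⟩, ?_⟩
      simp
  obtain ⟨e₀, _⟩ := hemb S₀ hS₀
  have hemb' : ∀ S, ∃ e : Fin m ↪ V, S ∈ Finset.powersetCard s (X \ Af) →
      ∀ v, (∃ i, e i = v) ↔ v ∈ Z ∪ Af ∪ S := by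
    intro S
    by_cases hS : S ∈ Finset.powersetCard s (X \ Af)
    · obtain ⟨e, he⟩ := hemb S hS
      exact ⟨e, fun _ => he⟩
    · exact ⟨e₀, fun h => absurd h hS⟩
  choose e he using hemb'
  have hcard : (X.card - Af.card).choose s * m.factorial =
      ((Finset.powersetCard s (X \ Af)) ×ˢ (Finset.univ : Finset (Equiv.Perm (Fin m)))).card := by
    rw [Finset.card_product, Finset.card_powersetCard, hXA, Finset.card_univ, Fintype.card_perm,
      Fintype.card_fin]
  rw [hcard]
  refine Finset.card_le_card_of_injOn (fun p => p.2.toEmbedding.trans (e p.1)) ?_ ?_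
  · rintro ⟨S, σ⟩ hp
    have hp := Finset.mem_product.1 (Finset.mem_coe.1 hp)
    have hS : S ∈ Finset.powersetCard s (X \ Af) := hp.1
    obtain ⟨h1, h2⟩ := Finset.mem_powersetCard.1 hS
    apply Finset.mem_coe.2
    rw [hE, Finset.mem_filter]
    refine ⟨Finset.mem_univ _, ?_, ?_⟩
    · intro i
      have : (e S) (σ i) ∈ Z ∪ Af ∪ S := (he S hS _).1 ⟨σ i, rfl⟩
      show (e S) (σ i) ∈ Z ∪ X
      rcases Finset.mem_union.1 this with h | h
      · rcases Finset.mem_union.1 h with h | h
        · exact Finset.mem_union_left _ h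
        · exact Finset.mem_union_right _ (hAfX h)
      · exact Finset.mem_union_right _ (Finset.mem_sdiff.1 (h1 h)).1
    · intro v hv
      obtain ⟨i, hi⟩ := (he S hS v).2 (Finset.mem_union_left _ hv)
      refine ⟨σ.symm i, ?_⟩
      show (e S) (σ (σ.symm i)) = v
      rw [Equiv.apply_symm_apply, hi]
  · rintro ⟨S, σ⟩ hp ⟨S', σ'⟩ hp' heq
    have hS : S ∈ Finset.powersetCard s (X \ Af) :=
      (Finset.mem_product.1 (Finset.mem_coe.1 hp)).1
    have hS' : S' ∈ Finset.powersetCard s (X \ Af) :=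
      (Finset.mem_product.1 (Finset.mem_coe.1 hp')).1
    have heq' : ∀ i, (e S) (σ i) = (e S') (σ' i) := fun i => DFunLike.congr_fun heq i
    have hSX := (Finset.mem_powersetCard.1 hS).1
    have hSX' := (Finset.mem_powersetCard.1 hS').1
    have hun : ∀ v, v ∈ Z ∪ Af ∪ S ↔ v ∈ Z ∪ Af ∪ S' := by
      intro v
      rw [← he S hS, ← he S' hS']
      constructor
      · rintro ⟨i, hi⟩
        refine ⟨σ' (σ.symm i), ?_⟩
        rw [← heq', Equiv.apply_symm_apply, hi]
      · rintro ⟨i, hi⟩
        refine ⟨σ (σ'.symm i), ?_⟩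
        rw [heq', Equiv.apply_symm_apply, hi]
    have hnot : ∀ T, T ⊆ X \ Af → ∀ v, v ∈ X \ Af → (v ∈ Z ∪ Af ∪ T ↔ v ∈ T) := by
      intro T _ v hv
      obtain ⟨hvX, hvA⟩ := Finset.mem_sdiff.1 hv
      have hvZ : v ∉ Z := fun hcon => (Finset.disjoint_left.1 hd) hcon hvX
      simp only [Finset.mem_union]
      tauto
    have hSS : S = S' := by
      ext v
      constructor
      · intro hv
        have hv' := hSX hv
        exact (hnot S' hSX' v hv').1 ((hun v).1 ((hnot S hSX v hv').2 hv))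
      · intro hv
        have hv' := hSX' hv
        exact (hnot S hSX v hv').1 ((hun v).2 ((hnot S' hSX' v hv').2 hv))
    subst hSS
    have : σ = σ' := by
      ext i
      have := (e S).injective (heq' i)
      rw [this]
    rw [this]

end

theorem pow_le_choose_mul (M b : ℕ) (hM : 1 ≤ M) : M ^ b ≤ (M * b).choose b := by
  have key : ∀ j, j ≤ b → M ^ j * b.descFactorial j ≤ (M * b).descFactorial j := by
    intro j
    induction j with
    | zero => simp
    | succ j ih =>
      intro hj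
      rw [Nat.descFactorial_succ, Nat.descFactorial_succ, pow_succ]
      have h1 : M * (b - j) ≤ M * b - j := by
        rw [Nat.mul_sub]
        have : j ≤ M * j := Nat.le_mul_of_pos_left _ hM
        omega
      calc M ^ j * M * ((b - j) * b.descFactorial j) =
            (M * (b - j)) * (M ^ j * b.descFactorial j) := by ring
        _ ≤ (M * b - j) * (M * b).descFactorial j := Nat.mul_le_mul h1 (ih (by omega))
  have h1 := key b le_rfl
  rw [Nat.descFactorial_self, Nat.descFactorial_eq_factorial_mul_choose] at h1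
  have h2 : b.factorial * M ^ b ≤ b.factorial * (M * b).choose b := by
    rw [mul_comm]; exact h1
  exact Nat.le_of_mul_le_mul_left h2 (Nat.factorial_pos _)

theorem linear {V : Type*} [Fintype V] (G : SimpleGraph V)
    (C : (n : ℕ) → Set (SimpleGraph (Fin n))) (c e : ℕ) (hce : c ≤ 2 ^ e)
    (hsmall : ∀ n : ℕ, (C n).ncard ≤ n.factorial * c ^ n)
    (hC : ∀ (m : ℕ) (g : Fin m ↪ V), G.comap g ∈ C m) : ∀ (k : ℕ) (Z X : Finset V),
      Z.card = k → Z.Nonempty → Disjoint Z X →
      (∀ x ∈ X, ∀ x' ∈ X, (∀ z ∈ Z, (G.Adj x z ↔ G.Adj x' z)) → x = x') →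
      X.card + 1 ≤ (9 * 2 ^ (3 * e + 7) + 1) * Z.card := by
  intro k
  induction k using Nat.strong_induction_on with
  | _ k ih =>
  intro Z X hZk hZne hd hdist
  by_contra hcon
  set t := 3 * e + 7 with ht
  set R := 9 * 2 ^ t + 1 with hR
  obtain ⟨X', hX'X, hX'c⟩ := Finset.exists_subset_card_eq (s := X) (n := R * Z.card) (by omega)
  have hd' : Disjoint Z X' := Finset.disjoint_of_subset_right hX'X hd
  have hdist' : ∀ x ∈ X', ∀ x' ∈ X', (∀ z ∈ Z, (G.Adj x z ↔ G.Adj x' z)) → x = x' :=
    fun x hx x' hx' h => hdist x (hX'X hx) x' (hX'X hx') h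
  have hM : MinSys Z X' (fun x z => G.Adj x z) R := by
    refine ⟨hdist', hX'c, ?_⟩
    intro U hU hUne
    obtain ⟨Q, hQX, hQinj, hQimg⟩ := Finset.exists_subset_injOn_image_eq_of_surjOn
      (f := fun x => U.filter (fun z => G.Adj x z)) X'
      (X'.image (fun x => U.filter (fun z => G.Adj x z))) (by
        intro τ hτ
        obtain ⟨x, hx, hxτ⟩ := Finset.mem_image.1 (Finset.mem_coe.1 hτ)
        exact ⟨x, Finset.mem_coe.2 hx, hxτ⟩)
    have hQX' : Q ⊆ X' := fun q hq => Finset.mem_coe.1 (hQX (Finset.mem_coe.2 hq))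
    rw [← hQimg, Finset.card_image_of_injOn hQinj]
    refine ih U.card (hZk ▸ Finset.card_lt_card hU) U Q rfl hUne ?_ ?_
    · exact Finset.disjoint_of_subset_left hU.1 (Finset.disjoint_of_subset_right hQX' hd')
    · intro x hx x' hx' hag
      apply hQinj (Finset.mem_coe.2 hx) (Finset.mem_coe.2 hx')
      exact (filter_eq_iff U x x').2 hag
  have hk1 : 1 ≤ Z.card := Finset.card_pos.2 hZne
  have hR1 : 1 ≤ R := by omega
  obtain ⟨Af, cs, hp⟩ := exists_path (Z := Z) (X := X') (rel := fun x z => G.Adj x z)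
    ((Z \ ∅).card + (X' \ ∅).card) ∅ ∅ (Finset.empty_subset _) (Finset.empty_subset _) le_rfl
  have hlen := hp.length_le
  have hAfc := hp.card_le
  rw [Finset.card_empty] at hlen hAfc
  have hZX : Z.card ≤ X'.card := by
    rw [hX'c]; exact Nat.le_mul_of_pos_left _ hR1
  have hlec := hp.le_card hZX
  have hprod : cs.prod ≤ 2 ^ (2 * Z.card * (2 * t + 9 + 1)) := by
    apply prod_bound (k := Z.card) (L := (R + 1) ^ 2 + 1) (J := 2 * t + 9) (B := X'.card)
      (by omega) ?_ hlec
    · intro s hs hsX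
      exact Path.cnt_bound hM hs hsX hp
    · have h1 : 1 ≤ 2 ^ t := Nat.one_le_two_pow
      have h2 : R + 1 ≤ 11 * 2 ^ t := by omega
      calc (R + 1) ^ 2 + 1 ≤ (11 * 2 ^ t) ^ 2 + (2 ^ t) ^ 2 := by
            apply Nat.add_le_add (Nat.pow_le_pow_left h2 2)
            exact Nat.one_le_pow _ _ (by omega)
        _ = 122 * (2 ^ t) ^ 2 := by ring
        _ ≤ 512 * (2 ^ t) ^ 2 := by gcongr; norm_num
        _ = 2 ^ (2 * t + 9) := by ring
  set s := 9 * Z.card with hs
  set m := Z.card + Af.card + s with hm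
  have hcount := count_path (hC m) hd' hdist' hp s hm (by omega)
  have hlow : 2 ^ (t * s) ≤ (X'.card - Af.card).choose s := by
    rw [pow_mul]
    refine (pow_le_choose_mul (2 ^ t) s Nat.one_le_two_pow).trans ?_
    apply Nat.choose_le_choose
    have h1 : 2 ^ t * s + Z.card = R * Z.card := by rw [hs, hR]; ring
    rw [hX'c]
    omega
  have h1 : 2 ^ (t * s) * m.factorial ≤
      m.factorial * (2 ^ ((e + 1) * m) * 2 ^ (2 * Z.card * (2 * t + 9 + 1))) := by
    calc 2 ^ (t * s) * m.factorial ≤ (X'.card - Af.card).choose s * m.factorial :=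
          Nat.mul_le_mul_right _ hlow
      _ ≤ (C m).ncard * 2 ^ m * cs.prod := hcount
      _ ≤ (m.factorial * c ^ m) * 2 ^ m * 2 ^ (2 * Z.card * (2 * t + 9 + 1)) := by
          gcongr
          exact hsmall m
      _ ≤ (m.factorial * (2 ^ e) ^ m) * 2 ^ m * 2 ^ (2 * Z.card * (2 * t + 9 + 1)) := by
          gcongr
      _ = _ := by
          rw [add_mul, pow_add, ← pow_mul, one_mul]; ring
  rw [mul_comm] at h1
  have h2 := Nat.le_of_mul_le_mul_left h1 (Nat.factorial_pos m)
  rw [← pow_add] at h2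
  have h3 := (Nat.pow_le_pow_iff_right (by norm_num)).1 h2
  have h4 : m ≤ 11 * Z.card := by omega
  have h5 : (e + 1) * m ≤ (e + 1) * (11 * Z.card) := Nat.mul_le_mul_left _ h4
  rw [hs, ht] at h3
  nlinarith

end Pool.Agent.Hhelper71.Small
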