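import Mathlib
import Pool.Agent.Hhelper71.Small.Halve
import Pool.Agent.Hhelper71.Small.Linear

/-!
The halving lemma with a bounded number of exceptions.
-/

set_option autoImplicit false

namespace Pool.Agent.Hhelper71.Small

open Finset

section

variable {C : (n : ℕ) → Set (SimpleGraph (Fin n))} {c : ℕ}

theorem linear_fin (hered : Hered C) (hsmall : ∀ n : ℕ, (C n).ncard ≤ n.factorial * c ^ n)
    {n : ℕ} {G : SimpleGraph (Fin n)} (hG : G ∈ C n) (Z X : Finset (Fin n)) (hZ : Z.Nonempty)
    (hd : Disjoint Z X)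
    (hsep : ∀ x ∈ X, ∀ y ∈ X, (∀ z ∈ Z, (G.Adj z x ↔ G.Adj z y)) → x = y) :
    X.card + 1 ≤ (9 * 2 ^ (3 * Nat.clog 2 c + 7) + 1) * Z.card := by
  refine linear G C c (Nat.clog 2 c) (Nat.le_pow_clog (by norm_num) c) hsmall
    (fun m g => hered n m g G hG) Z.card Z X rfl hZ hd ?_
  intro x hx x' hx' h
  apply hsep x hx x' hx'
  intro z hz
  rw [G.adj_comm z x, G.adj_comm z x']
  exact h z hz

theorem halving_const (hered : Hered C) (hsmall : ∀ n : ℕ, (C n).ncard ≤ n.factorial * c ^ n)
    {n : ℕ} {G : SimpleGraph (Fin n)} [DecidableRel G.Adj] (hG : G ∈ C n)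
    (R D : ℕ) (hR : 9 * 2 ^ (3 * Nat.clog 2 c + 7) + 1 ≤ R)
    (hD : 16 * (R + 1) * (8 * c + 16) ≤ D)
    (Y : Finset (Fin n)) (hY : 2 ≤ Y.card) :
    ∃ P, P ⊆ Y ∧ 2 * P.card ≤ Y.card ∧ ∀ a ∈ Y, ∃ b ∈ P, (dis G Y a b).card ≤ D := by
  classical
  set v := 8 * c + 16 with hv
  set N := Y.card with hN
  -- a maximal separated set
  let fam := Y.powerset.filter (fun P => ∀ a ∈ P, ∀ b ∈ P, a ≠ b → D < (dis G Y a b).card)
  have hfam : fam.Nonempty := ⟨∅, by simp [fam]⟩
  obtain ⟨P, hP, hmax⟩ := Finset.exists_max_image fam Finset.card hfam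
  have hP' : P ⊆ Y ∧ ∀ a ∈ P, ∀ b ∈ P, a ≠ b → D < (dis G Y a b).card := by
    simpa [fam] using hP
  obtain ⟨hPY, hPsep⟩ := hP'
  refine ⟨P, hPY, ?_, ?_⟩
  swap
  · intro a ha
    by_cases haP : a ∈ P
    · refine ⟨a, haP, ?_⟩
      have : dis G Y a a = ∅ := by simp [dis]
      rw [this]; simp
    · by_contra hcon
      push Not at hcon
      have hmem : insert a P ∈ fam := by
        simp only [fam, Finset.mem_filter, Finset.mem_powerset]
        refine ⟨Finset.insert_subset ha hPY, ?_⟩
        intro x hx y hy hxy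
        have hsymm : ∀ x y, dis G Y x y = dis G Y y x := by
          intro x y; unfold dis; congr 1; ext z; tauto
        rcases Finset.mem_insert.1 hx with hx1 | hx1
        · rcases Finset.mem_insert.1 hy with hy1 | hy1
          · exact absurd (hx1.trans hy1.symm) hxy
          · rw [hx1]; exact hcon y hy1
        · rcases Finset.mem_insert.1 hy with hy1 | hy1
          · rw [hsymm, hy1]; exact hcon x hx1
          · exact hPsep x hx1 y hy1 hxy
      have := hmax _ hmem
      rw [Finset.card_insert_of_notMem haP] at this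
      omega
  · by_contra hcon
    push Not at hcon
    -- `N` is large
    have hND : D + 1 ≤ N := by
      have h1 : 1 < P.card := by omega
      obtain ⟨a, ha, b, hb, hab⟩ := Finset.one_lt_card.1 h1
      have h2 := hPsep a ha b hb hab
      have h3 : (dis G Y a b).card ≤ Y.card := Finset.card_filter_le _ _
      omega
    have hv0 : 0 < v := by omega
    set S : Fin n → Finset (Fin n) := fun p => Y.filter (G.Adj p) with hS
    set r := 4 * v * N / (D + 1) with hr
    have hr1 : 4 * v * N < (r + 1) * (D + 1) := by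
      rw [hr, add_mul, one_mul]
      have h2 := Nat.div_add_mod (4 * v * N) (D + 1)
      have h3 := Nat.mod_lt (4 * v * N) (Nat.succ_pos D)
      calc 4 * v * N = (D + 1) * (4 * v * N / (D + 1)) + 4 * v * N % (D + 1) := h2.symm
        _ < (D + 1) * (4 * v * N / (D + 1)) + (D + 1) := by
            exact Nat.add_lt_add_left h3 _
        _ = _ := by ring
    have hr2 : r * (D + 1) ≤ 4 * v * N := Nat.div_mul_le_self _ _
    have hr0 : 1 ≤ r := by
      rw [hr, Nat.one_le_div_iff (by omega)]
      calc D + 1 ≤ N := hND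
        _ ≤ 4 * v * N := Nat.le_mul_of_pos_left _ (by omega)
    have hr3 : 4 * (R + 1) * r ≤ N := by
      have h1 : (4 * v) * (4 * (R + 1) * r) ≤ (4 * v) * N := by
        calc (4 * v) * (4 * (R + 1) * r) = r * (16 * (R + 1) * v) := by ring
          _ ≤ r * (D + 1) := Nat.mul_le_mul_left _ (by omega)
          _ ≤ 4 * v * N := hr2
      exact Nat.le_of_mul_le_mul_left h1 (by omega)
    have hr5 : r + 1 ≤ N := by
      have : 4 * (R + 1) * r = 4 * R * r + 4 * r := by ring
      omega
    obtain ⟨Z, hZY, hZr, hHau⟩ := haussler P S Y v (D + 1) r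
      (fun p _ => Finset.filter_subset _ _)
      (fun T _ hsh => vc_bound hered hsmall hG P Y T hsh)
      (fun p hp q hq hpq => by
        have := hPsep p hp q hq hpq
        rw [dis_card] at this
        exact this)
      hr5
    set I := P.image (fun p => S p ∩ Z) with hI
    -- many traces
    have hI2 : P.card ≤ 2 * I.card := by
      have h1 : (P.card - I.card) * (4 * v * N) ≤ 2 * v * P.card * N := by
        calc (P.card - I.card) * (4 * v * N) ≤ (P.card - I.card) * ((r + 1) * (D + 1)) :=
              Nat.mul_le_mul_left _ hr1.le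
          _ = (P.card - I.card) * (D + 1) * (r + 1) := by ring
          _ ≤ 2 * v * P.card * N := hHau
      have h2 : (2 * v * N) * (2 * (P.card - I.card)) ≤ (2 * v * N) * P.card := by
        calc (2 * v * N) * (2 * (P.card - I.card)) = (P.card - I.card) * (4 * v * N) := by ring
          _ ≤ 2 * v * P.card * N := h1
          _ = _ := by ring
      have h3 : 0 < 2 * v * N := by positivity
      have h4 := Nat.le_of_mul_le_mul_left h2 h3
      omega
    -- representatives
    have hrep : ∀ τ : Finset (Fin n), ∃ p, τ ∈ I → S p ∩ Z = τ := by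
      intro τ
      by_cases hτ : τ ∈ I
      · obtain ⟨p, _, hp⟩ := Finset.mem_image.1 hτ
        exact ⟨p, fun _ => hp⟩
      · have : 0 < P.card := by omega
        obtain ⟨x, _⟩ := Finset.card_pos.1 this
        exact ⟨x, fun h => absurd h hτ⟩
    choose f hf using hrep
    set X := (I.image f) \ Z with hX
    have hXcard : I.card ≤ X.card + r := by
      have h1 : (I.image f).card = I.card := by
        rw [Finset.card_image_of_injOn]
        intro τ hτ τ' hτ' hff
        rw [← hf τ (Finset.mem_coe.1 hτ), ← hf τ' (Finset.mem_coe.1 hτ'), hff]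
      have h2 := Finset.le_card_sdiff Z (I.image f)
      rw [h1, hZr, ← hX] at h2
      omega
    have hsep : ∀ x ∈ X, ∀ y ∈ X, (∀ z ∈ Z, (G.Adj z x ↔ G.Adj z y)) → x = y := by
      intro x hx y hy hxy
      obtain ⟨hx1, _⟩ := Finset.mem_sdiff.1 hx
      obtain ⟨hy1, _⟩ := Finset.mem_sdiff.1 hy
      obtain ⟨τ, hτ, rfl⟩ := Finset.mem_image.1 hx1
      obtain ⟨τ', hτ', rfl⟩ := Finset.mem_image.1 hy1
      have : τ = τ' := by
        rw [← hf τ hτ, ← hf τ' hτ']
        ext z
        simp only [hS, Finset.mem_inter, Finset.mem_filter]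
        constructor
        · rintro ⟨⟨h1, h2⟩, h3⟩
          exact ⟨⟨h1, ((hxy z h3).1 h2.symm).symm⟩, h3⟩
        · rintro ⟨⟨h1, h2⟩, h3⟩
          exact ⟨⟨h1, ((hxy z h3).2 h2.symm).symm⟩, h3⟩
      rw [this]
    have hZne : Z.Nonempty := by
      rw [← Finset.card_pos, hZr]; omega
    have hlin := linear_fin hered hsmall hG Z X hZne (Finset.disjoint_sdiff) hsep
    rw [hZr] at hlin
    have hlin2 : X.card + 1 ≤ R * r := hlin.trans (Nat.mul_le_mul_right _ hR)
    have h6 : 4 * (R + 1) * r = 4 * (R * r) + 4 * r := by ring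
    omega

end

end Pool.Agent.Hhelper71.Small
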