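import Mathlib
import Pool.Agent.Hhelper71.Small.Labels
import Pool.Agent.Hhelper71.Small.HalveConst

/-!
Recursive labels with a bounded number of exceptions on every level.
-/

set_option autoImplicit false

namespace Pool.Agent.Hhelper71.Small

open Finset

theorem card_lab_const (K : ℕ) : ∀ j, Fintype.card (Lab (fun _ => K) j) ≤
    2 ^ ((K + 2) * (j + 1) ^ 2) := by
  intro j
  induction j with
  | zero => rw [card_lab_zero]; exact Nat.one_le_two_pow
  | succ j ih =>
    rw [card_lab_succ]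
    have h1 : 2 ^ (j + 1) + 1 ≤ 2 ^ (j + 2) := by
      have := Nat.one_le_two_pow (n := j + 1)
      rw [pow_succ 2 (j + 1)]; omega
    calc (2 ^ (j + 1) * (2 ^ (j + 1) + 1) ^ K) *
          (2 ^ (j + 1) * Fintype.card (Lab (fun _ => K) j))
        ≤ (2 ^ (j + 1) * (2 ^ (j + 2)) ^ K) *
          (2 ^ (j + 1) * 2 ^ ((K + 2) * (j + 1) ^ 2)) := by gcongr
      _ = 2 ^ ((j + 1) + (j + 2) * K + ((j + 1) + (K + 2) * (j + 1) ^ 2)) := by
          rw [← pow_mul, ← pow_add, ← pow_add, ← pow_add]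
      _ ≤ 2 ^ ((K + 2) * (j + 1 + 1) ^ 2) := by
          apply Nat.pow_le_pow_right (by norm_num)
          nlinarith [Nat.zero_le K, Nat.zero_le (K * j), Nat.zero_le (K * j * j)]

section

variable {C : (n : ℕ) → Set (SimpleGraph (Fin n))} {c : ℕ}

theorem labels_const (hered : Hered C) (hsmall : ∀ n : ℕ, (C n).ncard ≤ n.factorial * c ^ n)
    (R K : ℕ) (hR : 9 * 2 ^ (3 * Nat.clog 2 c + 7) + 1 ≤ R)
    (hK : 16 * (R + 1) * (8 * c + 16) ≤ K)
    {n : ℕ} {G : SimpleGraph (Fin n)} (hG : G ∈ C n) :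
    ∀ (j : ℕ) (Y : Finset (Fin n)), Y.card ≤ 2 ^ j →
      ∃ ℓ : Fin n → Lab (fun _ => K) j,
        ∀ a ∈ Y, ∀ b ∈ Y, (G.Adj a b ↔ dec _ j (ℓ a) (ℓ b)) := by
  classical
  intro j
  induction j with
  | zero =>
    intro Y hY
    refine ⟨fun _ => (), fun a ha b hb => ?_⟩
    have : a = b := Finset.card_le_one.1 (by simpa using hY) a ha b hb
    subst this
    simp [dec]
  | succ j ih =>
    intro Y hY
    -- choice of the parents
    have hpar : ∃ P, P ⊆ Y ∧ P.card ≤ 2 ^ j ∧ ∀ a ∈ Y, ∃ b ∈ P,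
        (dis G Y a b).card ≤ K := by
      by_cases h2 : 2 ≤ Y.card
      · obtain ⟨P, hPY, hPc, hP⟩ := halving_const hered hsmall hG R K hR hK Y h2
        refine ⟨P, hPY, ?_, hP⟩
        rw [pow_succ] at hY; omega
      · refine ⟨Y, Finset.Subset.refl _, ?_, fun a ha => ⟨a, ha, ?_⟩⟩
        · have := Nat.one_le_two_pow (n := j); omega
        · have : dis G Y a a = ∅ := by simp [dis]
          rw [this]; simp
    obtain ⟨P, hPY, hPc, hP⟩ := hpar
    obtain ⟨ℓ, hℓ⟩ := ih P hPc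
    have hpar' : ∀ a, ∃ b, a ∈ Y → b ∈ P ∧
        (dis G Y a b).card ≤ K := by
      intro a
      by_cases ha : a ∈ Y
      · obtain ⟨b, hb, hbd⟩ := hP a ha
        exact ⟨b, fun _ => ⟨hb, hbd⟩⟩
      · exact ⟨a, fun h => absurd h ha⟩
    choose π hπ using hpar'
    -- numbering of `Y`
    obtain ⟨num, hnum⟩ : ∃ num : Fin n → Fin (2 ^ (j + 1)), ∀ a ∈ Y, ∀ b ∈ Y,
        num a = num b → a = b := by
      have h1 : Fintype.card Y ≤ Fintype.card (Fin (2 ^ (j + 1))) := by simpa using hY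
      obtain ⟨e⟩ := Function.Embedding.nonempty_of_card_le h1
      refine ⟨fun a => if h : a ∈ Y then e ⟨a, h⟩ else ⟨0, by positivity⟩, ?_⟩
      intro a ha b hb hab
      simp only [ha, hb, dif_pos] at hab
      have := e.injective hab
      exact congrArg Subtype.val this
    -- exceptions
    have hE : ∀ a, ∃ E : Fin K →
        Option (Fin (2 ^ (j + 1))), a ∈ Y →
          ∀ x, x ∈ (dis G Y a (π a)).image num ↔ ∃ i, E i = some x := by
      intro a
      by_cases ha : a ∈ Y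
      · obtain ⟨E, hE⟩ := exists_list_fun ((dis G Y a (π a)).image num)
          K
          (Finset.card_image_le.trans (hπ a ha).2)
        exact ⟨E, fun _ => hE⟩
      · exact ⟨fun _ => none, fun h => absurd h ha⟩
    choose E hE using hE
    have hmem : ∀ a ∈ Y, ∀ b ∈ Y, ((∃ i, E a i = some (num b)) ↔
        ¬ (G.Adj a b ↔ G.Adj (π a) b)) := by
      intro a ha b hb
      rw [← hE a ha (num b), Finset.mem_image]
      constructor
      · rintro ⟨z, hz, hzb⟩
        have hzY : z ∈ Y := (Finset.mem_filter.1 hz).1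
        have := hnum z hzY b hb hzb
        subst this
        exact (Finset.mem_filter.1 hz).2
      · intro h
        exact ⟨b, Finset.mem_filter.2 ⟨hb, h⟩, rfl⟩
    refine ⟨fun a => ((num a, E a), (num (π a), ℓ (π a))), fun a ha b hb => ?_⟩
    have hπa : π a ∈ Y := hPY (hπ a ha).1
    have hπb : π b ∈ Y := hPY (hπ b hb).1
    have h1 := hmem a ha b hb
    have h2 := hmem b hb (π a) hπa
    have h3 := hℓ (π a) (hπ a ha).1 (π b) (hπ b hb).1
    have h4 : G.Adj b (π a) ↔ G.Adj (π a) b := G.adj_comm _ _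
    have h5 : G.Adj (π b) (π a) ↔ G.Adj (π a) (π b) := G.adj_comm _ _
    show G.Adj a b ↔ ¬ ((∃ i, E a i = some (num b)) ↔
      ¬ ((∃ i, E b i = some (num (π a))) ↔ dec _ j (ℓ (π a)) (ℓ (π b))))
    rw [h1, h2, ← h3, h4, h5]
    tauto

end

end Pool.Agent.Hhelper71.Small
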