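import Mathlib
import Pool.Agent.Hhelper71.Small.FinalSq

/-!
Linear neighbourhood complexity and near-twins in small hereditary classes.
-/

set_option autoImplicit false

namespace Pool.Agent.Hhelper71.Small

open Finset

theorem traces_linear (C : (n : ℕ) → Set (SimpleGraph (Fin n)))
    (hered : ∀ (n m : ℕ) (e : Fin m ↪ Fin n) (G : SimpleGraph (Fin n)),
      G ∈ C n → G.comap ⇑e ∈ C m)
    (small : ∃ c : ℕ, ∀ n : ℕ, (C n).ncard ≤ n.factorial * c ^ n) :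
    ∃ R : ℕ, ∀ (n : ℕ), ∀ G ∈ C n, ∀ Z : Finset (Fin n), Z.Nonempty →
      (Set.range fun v => G.neighborSet v ∩ (Z : Set (Fin n))).ncard ≤ R * Z.card := by
  classical
  obtain ⟨c, hsmall⟩ := small
  refine ⟨(9 * 2 ^ (3 * Nat.clog 2 c + 7) + 1) + 1, fun n G hG Z hZ => ?_⟩
  set R := 9 * 2 ^ (3 * Nat.clog 2 c + 7) + 1 with hR
  set F : Fin n → Set (Fin n) := fun v => G.neighborSet v ∩ (Z : Set (Fin n)) with hF
  set I : Finset (Set (Fin n)) := Finset.univ.image F with hI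
  have h0 : (Set.range F).ncard = I.card := by
    rw [← Set.ncard_coe_finset, hI, Finset.coe_image, Finset.coe_univ, Set.image_univ]
  rw [h0]
  obtain ⟨Q, _, hQinj, hQimg⟩ := Finset.exists_subset_injOn_image_eq_of_surjOn
    (f := F) ((Finset.univ : Finset (Fin n)) : Set (Fin n)) I (by
      intro τ hτ
      obtain ⟨x, hx, hxτ⟩ := Finset.mem_image.1 (Finset.mem_coe.1 hτ)
      exact ⟨x, Finset.mem_coe.2 hx, hxτ⟩)
  have hc : I.card = Q.card := by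
    rw [← hQimg, Finset.card_image_of_injOn hQinj]
  have h1 : Q.card ≤ (Q \ Z).card + Z.card := Finset.card_le_card_sdiff_add_card
  have h2 := linear_fin hered hsmall hG Z (Q \ Z) hZ Finset.disjoint_sdiff (by
    intro x hx y hy hxy
    apply hQinj (Finset.mem_coe.2 (Finset.mem_sdiff.1 hx).1)
      (Finset.mem_coe.2 (Finset.mem_sdiff.1 hy).1)
    show G.neighborSet x ∩ (Z : Set (Fin n)) = G.neighborSet y ∩ (Z : Set (Fin n))
    ext z
    simp only [Set.mem_inter_iff, SimpleGraph.mem_neighborSet, Finset.mem_coe]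
    constructor
    · rintro ⟨h1, h2⟩; exact ⟨((hxy z h2).1 h1.symm).symm, h2⟩
    · rintro ⟨h1, h2⟩; exact ⟨((hxy z h2).2 h1.symm).symm, h2⟩)
  rw [← hR] at h2
  rw [hc, add_mul, one_mul]
  omega

theorem near_twins (C : (n : ℕ) → Set (SimpleGraph (Fin n)))
    (hered : ∀ (n m : ℕ) (e : Fin m ↪ Fin n) (G : SimpleGraph (Fin n)),
      G ∈ C n → G.comap ⇑e ∈ C m)
    (small : ∃ c : ℕ, ∀ n : ℕ, (C n).ncard ≤ n.factorial * c ^ n) :
    ∃ s : ℕ, ∀ (n : ℕ), ∀ G ∈ C n, ∀ Y : Finset (Fin n), ∃ P ⊆ Y,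
      P.card ≤ (Y.card + 1) / 2 ∧ ∀ a ∈ Y, ∃ b ∈ P,
        {z | z ∈ Y ∧ ¬ (G.Adj a z ↔ G.Adj b z)}.ncard ≤ s := by
  classical
  obtain ⟨c, hsmall⟩ := small
  set R := 9 * 2 ^ (3 * Nat.clog 2 c + 7) + 1 with hR
  refine ⟨16 * (R + 1) * (8 * c + 16), fun n G hG Y => ?_⟩
  by_cases hY : 2 ≤ Y.card
  · obtain ⟨P, hPY, hPc, hP⟩ := halving_const hered hsmall hG R _ le_rfl le_rfl Y hY
    refine ⟨P, hPY, by omega, fun a ha => ?_⟩
    obtain ⟨b, hb, hd⟩ := hP a ha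
    refine ⟨b, hb, ?_⟩
    have : {z | z ∈ Y ∧ ¬ (G.Adj a z ↔ G.Adj b z)} = (dis G Y a b : Set (Fin n)) := by
      ext z; simp [dis]
    rw [this, Set.ncard_coe_finset]
    exact hd
  · refine ⟨Y, Finset.Subset.refl _, by omega, fun a ha => ⟨a, ha, ?_⟩⟩
    have : {z | z ∈ Y ∧ ¬ (G.Adj a z ↔ G.Adj a z)} = ∅ := by
      ext z; simp
    rw [this]; simp

end Pool.Agent.Hhelper71.Small
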