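import Mathlib
import Pool.Agent.Hhelper71.Small.FinalLin

/-!
Weakly sparse small hereditary classes have bounded degeneracy and labels of `O(log n)` bits.
-/

set_option autoImplicit false

namespace Pool.Agent.Hhelper71.Small

open Finset

section

variable {C : (n : ℕ) → Set (SimpleGraph (Fin n))} {c : ℕ}

/-- Packing with ratio `q`. -/
theorem packing_const (hered : Hered C) (hsmall : ∀ n : ℕ, (C n).ncard ≤ n.factorial * c ^ n)
    {n : ℕ} {G : SimpleGraph (Fin n)} [DecidableRel G.Adj] (hG : G ∈ C n)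
    (R q D : ℕ) (hq : 1 ≤ q) (hR : 9 * 2 ^ (3 * Nat.clog 2 c + 7) + 1 ≤ R)
    (hD : 8 * q * (R + 1) * (8 * c + 16) ≤ D)
    (Y : Finset (Fin n)) :
    ∃ P, P ⊆ Y ∧ (P.card ≤ 1 ∨ P.card * q ≤ Y.card) ∧
      ∀ a ∈ Y, ∃ b ∈ P, (dis G Y a b).card ≤ D := by
  classical
  set v := 8 * c + 16 with hv
  set N := Y.card with hN
  -- a maximal separated set
  let fam := Y.powerset.filter (fun P => ∀ a ∈ P, ∀ b ∈ P, a ≠ b → D < (dis G Y a b).card)
  have hfam : fam.Nonempty := ⟨∅, by simp [fam]⟩
  obtain ⟨P, hP, hmax⟩ := Finset.exists_max_image fam Finset.card hfam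
  have hP' : P ⊆ Y ∧ ∀ a ∈ P, ∀ b ∈ P, a ≠ b → D < (dis G Y a b).card := by
    simpa [fam] using hP
  obtain ⟨hPY, hPsep⟩ := hP'
  refine ⟨P, hPY, ?_, ?_⟩
  swap
  · intro a ha
    by_cases haP : a ∈ P
    · refine ⟨a, haP, ?_⟩
      have : dis G Y a a = ∅ := by simp [dis]
      rw [this]; simp
    · by_contra hcon
      push Not at hcon
      have hmem : insert a P ∈ fam := by
        simp only [fam, Finset.mem_filter, Finset.mem_powerset]
        refine ⟨Finset.insert_subset ha hPY, ?_⟩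
        intro x hx y hy hxy
        have hsymm : ∀ x y, dis G Y x y = dis G Y y x := by
          intro x y; unfold dis; congr 1; ext z; tauto
        rcases Finset.mem_insert.1 hx with hx1 | hx1
        · rcases Finset.mem_insert.1 hy with hy1 | hy1
          · exact absurd (hx1.trans hy1.symm) hxy
          · rw [hx1]; exact hcon y hy1
        · rcases Finset.mem_insert.1 hy with hy1 | hy1
          · rw [hsymm, hy1]; exact hcon x hx1
          · exact hPsep x hx1 y hy1 hxy
      have := hmax _ hmem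
      rw [Finset.card_insert_of_notMem haP] at this
      omega
  · by_contra hcon
    push Not at hcon
    obtain ⟨hP2, hcon⟩ := hcon
    -- `N` is large
    have hND : D + 1 ≤ N := by
      have h1 : 1 < P.card := by omega
      obtain ⟨a, ha, b, hb, hab⟩ := Finset.one_lt_card.1 h1
      have h2 := hPsep a ha b hb hab
      have h3 : (dis G Y a b).card ≤ Y.card := Finset.card_filter_le _ _
      omega
    have hv0 : 0 < v := by omega
    set S : Fin n → Finset (Fin n) := fun p => Y.filter (G.Adj p) with hS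
    set r := 4 * v * N / (D + 1) with hr
    have hr1 : 4 * v * N < (r + 1) * (D + 1) := by
      rw [hr, add_mul, one_mul]
      have h2 := Nat.div_add_mod (4 * v * N) (D + 1)
      have h3 := Nat.mod_lt (4 * v * N) (Nat.succ_pos D)
      calc 4 * v * N = (D + 1) * (4 * v * N / (D + 1)) + 4 * v * N % (D + 1) := h2.symm
        _ < (D + 1) * (4 * v * N / (D + 1)) + (D + 1) := by
            exact Nat.add_lt_add_left h3 _
        _ = _ := by ring
    have hr2 : r * (D + 1) ≤ 4 * v * N := Nat.div_mul_le_self _ _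
    have hr0 : 1 ≤ r := by
      rw [hr, Nat.one_le_div_iff (by omega)]
      calc D + 1 ≤ N := hND
        _ ≤ 4 * v * N := Nat.le_mul_of_pos_left _ (by omega)
    have hr3 : 2 * q * (R + 1) * r ≤ N := by
      have h1 : (4 * v) * (2 * q * (R + 1) * r) ≤ (4 * v) * N := by
        calc (4 * v) * (2 * q * (R + 1) * r) = r * (8 * q * (R + 1) * v) := by ring
          _ ≤ r * (D + 1) := Nat.mul_le_mul_left _ (by omega)
          _ ≤ 4 * v * N := hr2
      exact Nat.le_of_mul_le_mul_left h1 (by omega)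
    have hr4 : 2 * (R + 1) * r ≤ N := by
      calc 2 * (R + 1) * r = 2 * 1 * (R + 1) * r := by ring
        _ ≤ 2 * q * (R + 1) * r := by gcongr
        _ ≤ N := hr3
    have hr5 : r + 1 ≤ N := by
      have : 2 * (R + 1) * r = 2 * R * r + 2 * r := by ring
      omega
    obtain ⟨Z, hZY, hZr, hHau⟩ := haussler P S Y v (D + 1) r
      (fun p _ => Finset.filter_subset _ _)
      (fun T _ hsh => vc_bound hered hsmall hG P Y T hsh)
      (fun p hp q hq hpq => by
        have := hPsep p hp q hq hpq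
        rw [dis_card] at this
        exact this)
      hr5
    set I := P.image (fun p => S p ∩ Z) with hI
    -- many traces
    have hI2 : P.card ≤ 2 * I.card := by
      have h1 : (P.card - I.card) * (4 * v * N) ≤ 2 * v * P.card * N := by
        calc (P.card - I.card) * (4 * v * N) ≤ (P.card - I.card) * ((r + 1) * (D + 1)) :=
              Nat.mul_le_mul_left _ hr1.le
          _ = (P.card - I.card) * (D + 1) * (r + 1) := by ring
          _ ≤ 2 * v * P.card * N := hHau
      have h2 : (2 * v * N) * (2 * (P.card - I.card)) ≤ (2 * v * N) * P.card := by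
        calc (2 * v * N) * (2 * (P.card - I.card)) = (P.card - I.card) * (4 * v * N) := by ring
          _ ≤ 2 * v * P.card * N := h1
          _ = _ := by ring
      have hN0 : 0 < N := by omega
      have h3 : 0 < 2 * v * N := Nat.mul_pos (by omega) hN0
      have h4 := Nat.le_of_mul_le_mul_left h2 h3
      omega
    -- representatives
    have hrep : ∀ τ : Finset (Fin n), ∃ p, τ ∈ I → S p ∩ Z = τ := by
      intro τ
      by_cases hτ : τ ∈ I
      · obtain ⟨p, _, hp⟩ := Finset.mem_image.1 hτ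
        exact ⟨p, fun _ => hp⟩
      · have : 0 < P.card := by omega
        obtain ⟨x, _⟩ := Finset.card_pos.1 this
        exact ⟨x, fun h => absurd h hτ⟩
    choose f hf using hrep
    set X := (I.image f) \ Z with hX
    have hXcard : I.card ≤ X.card + r := by
      have h1 : (I.image f).card = I.card := by
        rw [Finset.card_image_of_injOn]
        intro τ hτ τ' hτ' hff
        rw [← hf τ (Finset.mem_coe.1 hτ), ← hf τ' (Finset.mem_coe.1 hτ'), hff]
      have h2 := Finset.le_card_sdiff Z (I.image f)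
      rw [h1, hZr, ← hX] at h2
      omega
    have hsep : ∀ x ∈ X, ∀ y ∈ X, (∀ z ∈ Z, (G.Adj z x ↔ G.Adj z y)) → x = y := by
      intro x hx y hy hxy
      obtain ⟨hx1, _⟩ := Finset.mem_sdiff.1 hx
      obtain ⟨hy1, _⟩ := Finset.mem_sdiff.1 hy
      obtain ⟨τ, hτ, rfl⟩ := Finset.mem_image.1 hx1
      obtain ⟨τ', hτ', rfl⟩ := Finset.mem_image.1 hy1
      have : τ = τ' := by
        rw [← hf τ hτ, ← hf τ' hτ']
        ext z
        simp only [hS, Finset.mem_inter, Finset.mem_filter]
        constructor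
        · rintro ⟨⟨h1, h2⟩, h3⟩
          exact ⟨⟨h1, ((hxy z h3).1 h2.symm).symm⟩, h3⟩
        · rintro ⟨⟨h1, h2⟩, h3⟩
          exact ⟨⟨h1, ((hxy z h3).2 h2.symm).symm⟩, h3⟩
      rw [this]
    have hZne : Z.Nonempty := by
      rw [← Finset.card_pos, hZr]; omega
    have hlin := linear_fin hered hsmall hG Z X hZne (Finset.disjoint_sdiff) hsep
    rw [hZr] at hlin
    have hlin2 : X.card + 1 ≤ R * r := hlin.trans (Nat.mul_le_mul_right _ hR)
    have h7 : P.card ≤ 2 * (R + 1) * r := by
      have h6 : 2 * (R + 1) * r = 2 * (R * r) + 2 * r := by ring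
      omega
    have h8 : P.card * q ≤ N := by
      calc P.card * q ≤ 2 * (R + 1) * r * q := Nat.mul_le_mul_right _ h7
        _ = 2 * q * (R + 1) * r := by ring
        _ ≤ N := hr3
    omega

/-- A vertex of bounded degree in every nonempty set. -/
theorem low_degree (hered : Hered C) (hsmall : ∀ n : ℕ, (C n).ncard ≤ n.factorial * c ^ n)
    {n : ℕ} {G : SimpleGraph (Fin n)} [DecidableRel G.Adj] (hG : G ∈ C n) (t D : ℕ) (ht : 1 ≤ t)
    (hD : 8 * t * (9 * 2 ^ (3 * Nat.clog 2 c + 7) + 1 + 1) * (8 * c + 16) ≤ D)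
    (hK : ∀ A B : Finset (Fin n), (∀ a ∈ A, ∀ b ∈ B, G.Adj a b) → A.card < t ∨ B.card < t)
    (Y : Finset (Fin n)) (hY : Y.Nonempty) :
    ∃ y ∈ Y, (Y.filter (G.Adj y)).card ≤ t * D + t := by
  classical
  by_contra hcon
  push Not at hcon
  obtain ⟨P, hPY, hPc, hP⟩ := packing_const hered hsmall hG _ t D ht le_rfl hD Y
  obtain ⟨y₀, hy₀⟩ := hY
  have hPne : P.Nonempty := by
    obtain ⟨b, hb, _⟩ := hP y₀ hy₀
    exact ⟨b, hb⟩
  have hYc : t ≤ Y.card := by
    have h1 := hcon y₀ hy₀
    have h2 : (Y.filter (G.Adj y₀)).card ≤ Y.card := Finset.card_filter_le _ _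
    omega
  have hPt : P.card * t ≤ Y.card := by
    rcases hPc with h | h
    · calc P.card * t ≤ 1 * t := Nat.mul_le_mul_right _ h
        _ ≤ Y.card := by omega
    · exact h
  have hπ : ∀ a, ∃ b, a ∈ Y → b ∈ P ∧ (dis G Y a b).card ≤ D := by
    intro a
    by_cases ha : a ∈ Y
    · obtain ⟨b, hb, hd⟩ := hP a ha
      exact ⟨b, fun _ => ⟨hb, hd⟩⟩
    · exact ⟨a, fun h => absurd h ha⟩
  choose π hπ using hπ
  obtain ⟨p, hp, hpc⟩ := Finset.exists_le_card_fiber_of_mul_le_card_of_maps_to
    (s := Y) (t := P) (f := π) (n := t) (fun a ha => (hπ a ha).1) hPne hPt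
  obtain ⟨A, hA, hAc⟩ := Finset.exists_subset_card_eq hpc
  have hAY : ∀ a ∈ A, a ∈ Y ∧ π a = p := by
    intro a ha
    exact Finset.mem_filter.1 (hA ha)
  set B := (Y.filter (G.Adj p)) \ (A.biUnion (fun a => dis G Y a p)) with hB
  have hBc : t < B.card := by
    have h1 : (A.biUnion (fun a => dis G Y a p)).card ≤ t * D := by
      rw [← hAc]
      apply Finset.card_biUnion_le_card_mul
      intro a ha
      obtain ⟨haY, hap⟩ := hAY a ha
      have := (hπ a haY).2
      rwa [hap] at this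
    have h2 := Finset.le_card_sdiff (A.biUnion (fun a => dis G Y a p)) (Y.filter (G.Adj p))
    rw [← hB] at h2
    have h3 := hcon p (hPY hp)
    omega
  have hAB : ∀ a ∈ A, ∀ b ∈ B, G.Adj a b := by
    intro a ha b hb
    obtain ⟨hb1, hb2⟩ := Finset.mem_sdiff.1 hb
    obtain ⟨hbY, hpb⟩ := Finset.mem_filter.1 hb1
    by_contra hnot
    apply hb2
    rw [Finset.mem_biUnion]
    refine ⟨a, ha, ?_⟩
    simp only [dis, Finset.mem_filter]
    exact ⟨hbY, by tauto⟩
  rcases hK A B hAB with h | h <;> omega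

/-- Orientation with bounded out-degree. -/
theorem exists_out {n : ℕ} (G : SimpleGraph (Fin n)) [DecidableRel G.Adj] (d : ℕ)
    (hdeg : ∀ Y : Finset (Fin n), Y.Nonempty → ∃ y ∈ Y, (Y.filter (G.Adj y)).card ≤ d) :
    ∀ (k : ℕ) (Y : Finset (Fin n)), Y.card = k → ∃ out : Fin n → Finset (Fin n),
      (∀ v, (out v).card ≤ d) ∧ (∀ v, ∀ w ∈ out v, G.Adj v w) ∧
        ∀ u ∈ Y, ∀ v ∈ Y, G.Adj u v → v ∈ out u ∨ u ∈ out v := by
  intro k
  induction k with
  | zero =>
    intro Y hY
    rw [Finset.card_eq_zero] at hY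
    subst hY
    exact ⟨fun _ => ∅, by simp, by simp, by simp⟩
  | succ k ih =>
    intro Y hY
    obtain ⟨y, hy, hyd⟩ := hdeg Y (Finset.card_pos.1 (by omega))
    obtain ⟨out, h1, h2, h3⟩ := ih (Y.erase y) (by rw [Finset.card_erase_of_mem hy]; omega)
    refine ⟨Function.update out y (Y.filter (G.Adj y)), ?_, ?_, ?_⟩
    · intro v
      by_cases hv : v = y
      · rw [hv, Function.update_self]; exact hyd
      · rw [Function.update_of_ne hv]; exact h1 v
    · intro v w hw
      by_cases hv : v = y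
      · rw [hv, Function.update_self] at hw
        rw [hv]
        exact (Finset.mem_filter.1 hw).2
      · rw [Function.update_of_ne hv] at hw
        exact h2 v w hw
    · intro u hu v hv huv
      by_cases huy : u = y
      · left
        rw [huy, Function.update_self, Finset.mem_filter]
        exact ⟨hv, huy ▸ huv⟩
      · by_cases hvy : v = y
        · right
          rw [hvy, Function.update_self, Finset.mem_filter]
          exact ⟨hu, (hvy ▸ huv).symm⟩
        · rw [Function.update_of_ne huy, Function.update_of_ne hvy]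
          exact h3 u (Finset.mem_erase.2 ⟨huy, hu⟩) v (Finset.mem_erase.2 ⟨hvy, hv⟩) huv

end

theorem sparse_degenerate (C : (n : ℕ) → Set (SimpleGraph (Fin n)))
    (hered : ∀ (n m : ℕ) (e : Fin m ↪ Fin n) (G : SimpleGraph (Fin n)),
      G ∈ C n → G.comap ⇑e ∈ C m)
    (small : ∃ c : ℕ, ∀ n : ℕ, (C n).ncard ≤ n.factorial * c ^ n)
    (sparse : ∃ t : ℕ, ∀ (n : ℕ), ∀ G ∈ C n, ∀ A B : Finset (Fin n),
      (∀ a ∈ A, ∀ b ∈ B, G.Adj a b) → A.card < t ∨ B.card < t) :
    ∃ d : ℕ, ∀ (n : ℕ), ∀ G ∈ C n, ∀ Y : Finset (Fin n), Y.Nonempty →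
      ∃ y ∈ Y, {z | z ∈ Y ∧ G.Adj y z}.ncard ≤ d := by
  classical
  obtain ⟨c, hsmall⟩ := small
  obtain ⟨t, hsp⟩ := sparse
  refine ⟨(t + 1) * (8 * (t + 1) * (9 * 2 ^ (3 * Nat.clog 2 c + 7) + 1 + 1) * (8 * c + 16)) +
    (t + 1), fun n G hG Y hY => ?_⟩
  obtain ⟨y, hy, hyd⟩ := low_degree hered hsmall hG (t + 1) _ (by omega) le_rfl
    (fun A B hAB => by
      rcases hsp n G hG A B hAB with h | h
      · left; omega
      · right; omega) Y hY
  refine ⟨y, hy, ?_⟩
  have : {z | z ∈ Y ∧ G.Adj y z} = (Y.filter (G.Adj y) : Set (Fin n)) := by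
    ext z; simp
  rw [this, Set.ncard_coe_finset]
  exact hyd

theorem degenerate_labels (C : (n : ℕ) → Set (SimpleGraph (Fin n))) (d : ℕ)
    (hdeg : ∀ (n : ℕ), ∀ G ∈ C n, ∀ Y : Finset (Fin n), Y.Nonempty →
      ∃ y ∈ Y, {z | z ∈ Y ∧ G.Adj y z}.ncard ≤ d) :
    ∃ (K : ℕ) (D : List Bool → List Bool → Prop), ∀ (n : ℕ), ∀ G ∈ C n,
      ∃ ℓ : Fin n → List Bool, Function.Injective ℓ ∧
        (∀ v, (ℓ v).length = K * (Nat.log 2 n + 1)) ∧
        ∀ u v, G.Adj u v ↔ D (ℓ u) (ℓ v) := by
  classical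
  set K := 2 * d + 1 with hK
  let Λ : ℕ → Type := fun L => (Fin d → Option (Fin (2 ^ (L + 1)))) × Fin (2 ^ (L + 1))
  have hΛcard : ∀ L, Fintype.card (Λ L) ≤ 2 ^ (K * (L + 1)) := by
    intro L
    have h1 : Fintype.card (Λ L) = (2 ^ (L + 1) + 1) ^ d * 2 ^ (L + 1) := by
      simp [Λ, Fintype.card_prod]
    rw [h1]
    have h2 : 2 ^ (L + 1) + 1 ≤ 2 ^ (L + 2) := by
      have := Nat.one_le_two_pow (n := L + 1)
      rw [pow_succ 2 (L + 1)]; omega
    calc (2 ^ (L + 1) + 1) ^ d * 2 ^ (L + 1) ≤ (2 ^ (L + 2)) ^ d * 2 ^ (L + 1) := by gcongr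
      _ = 2 ^ ((L + 2) * d + (L + 1)) := by rw [← pow_mul, ← pow_add]
      _ ≤ 2 ^ (K * (L + 1)) := by
          apply Nat.pow_le_pow_right (by norm_num)
          rw [hK]
          nlinarith
  have hemb : ∀ L, ∃ e : Λ L → (Fin (K * (L + 1)) → Bool), Function.Injective e := by
    intro L
    have : Fintype.card (Λ L) ≤ Fintype.card (Fin (K * (L + 1)) → Bool) := by
      simpa using hΛcard L
    obtain ⟨e⟩ := Function.Embedding.nonempty_of_card_le this
    exact ⟨e, e.injective⟩
  choose e he using hemb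
  have hK1 : 0 < K := by omega
  have hLinj : ∀ L L', K * (L + 1) = K * (L' + 1) → L = L' := by
    intro L L' h
    have h1 := Nat.eq_of_mul_eq_mul_left hK1 h
    omega
  refine ⟨K, fun a b => ∃ (L : ℕ) (x y : Λ L), a = List.ofFn (e L x) ∧ b = List.ofFn (e L y) ∧
    ((∃ i, x.1 i = some y.2) ∨ ∃ i, y.1 i = some x.2), fun n G hG => ?_⟩
  set L := Nat.log 2 n with hL
  obtain ⟨num⟩ : Nonempty (Fin n ↪ Fin (2 ^ (L + 1))) := by
    apply Function.Embedding.nonempty_of_card_le
    simpa using (Nat.lt_pow_succ_log_self (by norm_num) n).le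
  obtain ⟨out, ho1, ho2, ho3⟩ := exists_out G d (fun Y hY => by
    obtain ⟨y, hy, hyd⟩ := hdeg n G hG Y hY
    refine ⟨y, hy, ?_⟩
    have : {z | z ∈ Y ∧ G.Adj y z} = (Y.filter (G.Adj y) : Set (Fin n)) := by
      ext z; simp
    rwa [this, Set.ncard_coe_finset] at hyd) (Finset.univ : Finset (Fin n)).card Finset.univ rfl
  have hE : ∀ v, ∃ E : Fin d → Option (Fin (2 ^ (L + 1))),
      ∀ x, x ∈ (out v).image num ↔ ∃ i, E i = some x :=
    fun v => exists_list_fun ((out v).image num) d (Finset.card_image_le.trans (ho1 v))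
  choose E hE using hE
  let x : Fin n → Λ L := fun v => (E v, num v)
  have hxinj : Function.Injective x := by
    intro a b hab
    exact num.injective (congrArg Prod.snd hab)
  have hmem : ∀ u v, (∃ i, (x u).1 i = some (x v).2) ↔ v ∈ out u := by
    intro u v
    show (∃ i, E u i = some (num v)) ↔ v ∈ out u
    rw [← hE u (num v), Finset.mem_image]
    constructor
    · rintro ⟨z, hz, hzv⟩
      rwa [← num.injective hzv]
    · intro h
      exact ⟨v, h, rfl⟩
  have hadj : ∀ u v, G.Adj u v ↔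
      ((∃ i, (x u).1 i = some (x v).2) ∨ ∃ i, (x v).1 i = some (x u).2) := by
    intro u v
    rw [hmem, hmem]
    constructor
    · intro h
      exact ho3 u (Finset.mem_univ _) v (Finset.mem_univ _) h
    · rintro (h | h)
      · exact ho2 u v h
      · exact (ho2 v u h).symm
  refine ⟨fun v => List.ofFn (e L (x v)), ?_, ?_, ?_⟩
  · intro a b hab
    exact hxinj (he L (List.ofFn_injective hab))
  · intro v
    rw [List.length_ofFn]
  · intro u v
    constructor
    · intro h
      exact ⟨L, x u, x v, rfl, rfl, (hadj u v).1 h⟩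
    · rintro ⟨L', x', y', hx', hy', hd⟩
      have hlen : K * (L + 1) = K * (L' + 1) := by
        have := congrArg List.length hx'
        simpa using this
      have := hLinj L L' hlen
      subst this
      have h1 : x u = x' := he L (List.ofFn_injective hx')
      have h2 : x v = y' := he L (List.ofFn_injective hy')
      rw [← h1, ← h2] at hd
      exact (hadj u v).2 hd

end Pool.Agent.Hhelper71.Small
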